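import Pool.Agent.W_3283e1_sh.ErA

set_option autoImplicit false

namespace W3283p

open Complex W3283e1 W3283f W3283l W3283v W3283c MeasureTheory Filter Topology

/-- Points of the windows in the variable `x = e^v`. -/
theorem MnA_win (a U1 u0 : ℝ) (k : ℕ) (hk : 0 < k) (p : ℝ → Prop)
    (h : ∀ U : ℝ, U1 ≤ U → ∃ v : ℝ, U ≤ v ∧ v ≤ U + (Real.log U) ^ a ∧ p v) :
    ∃ X0 : ℝ, ∀ X : ℝ, X0 ≤ X → ∃ v : ℝ, X ≤ Real.exp v ∧
      Real.exp v ≤ X * Real.exp ((Real.log (Real.log X)) ^ a) ∧ u0 ≤ v ∧ 1 ≤ v ∧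
      Real.log k ≤ v ∧ 10 ≤ Real.exp v ∧ p v := by
  have hk0 : (0 : ℝ) < k := by exact_mod_cast hk
  refine ⟨Real.exp (max (max U1 u0) (1 + Real.log (k + 10))), fun X hX => ?_⟩
  have hX0 : 0 < X := lt_of_lt_of_le (Real.exp_pos _) hX
  have hXU : max (max U1 u0) (1 + Real.log (k + 10)) ≤ Real.log X := by
    rw [Real.le_log_iff_exp_le hX0]
    exact hX
  obtain ⟨v, h1, h2, h3⟩ := h (Real.log X)
    (((le_max_left _ _).trans (le_max_left _ _)).trans hXU)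
  have hlog : 0 ≤ Real.log ((k : ℝ) + 10) := Real.log_nonneg (by linarith)
  have hv : 1 + Real.log (k + 10) ≤ v := ((le_max_right _ _).trans hXU).trans h1
  have hlk : Real.log k ≤ Real.log ((k : ℝ) + 10) := Real.log_le_log hk0 (by linarith)
  refine ⟨v, ?_, ?_, (((le_max_right _ _).trans (le_max_left _ _)).trans hXU).trans h1,
    by linarith, by linarith, ?_, h3⟩
  · have h5 := Real.exp_le_exp.2 h1
    rwa [Real.exp_log hX0] at h5
  · have h5 := Real.exp_le_exp.2 h2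
    rwa [Real.exp_add, Real.exp_log hX0] at h5
  · have h4 : Real.log ((k : ℝ) + 10) ≤ v := by linarith
    have h5 := Real.exp_le_exp.2 h4
    rw [Real.exp_log (by linarith)] at h5
    linarith

/-- `allA_short` with `σ = 1`. -/
theorem shA_up (a : ℝ) (ha : 2 < a) (k : ℕ) (c : ℤ) (n f i j : ℕ) (L : ℂ → ℂ) (r : ℕ) (l V : ℝ)
    (h : W3283g.SU k c n f i j L r l V) (D : ℝ → ℝ) (hD : Amp L D) :
    ∃ X0 : ℝ, ∀ X : ℝ, X0 ≤ X → ∃ x : ℝ, X ≤ x ∧
      x ≤ X * Real.exp ((Real.log (Real.log X)) ^ a) ∧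
      CG r l * (Real.log x) ^ r * Real.exp (D x) ≤ bsdProd (c * k ^ 2) 0 x := by
  obtain ⟨U1, hU1⟩ := allA_short a ha k c n f i j L r l V h D hD 1 (Or.inl rfl)
  obtain ⟨X0, hX0⟩ := MnA_win a U1 1 k h.hk _ hU1
  refine ⟨X0, fun X hX => ?_⟩
  obtain ⟨v, h1, h2, -, h3, h4, -, h5⟩ := hX0 X hX
  refine ⟨Real.exp v, h1, h2, ?_⟩
  rw [one_mul] at h5
  rw [Real.log_exp, P_er k c n f i j L r l V h v (by linarith) h4]
  refine mul_le_mul_of_nonneg_left (Real.exp_le_exp.2 h5) ?_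
  exact (mul_pos (CG_pos r l h.hl) (pow_pos (by linarith) r)).le

/-- `allA_short` with `σ = -1`. -/
theorem shA_dn (a : ℝ) (ha : 2 < a) (k : ℕ) (c : ℤ) (n f i j : ℕ) (L : ℂ → ℂ) (r : ℕ) (l V : ℝ)
    (h : W3283g.SU k c n f i j L r l V) (hreal : ∀ σ : ℝ, 1 < σ → L σ ≠ 0)
    (D : ℝ → ℝ) (hD : Amp L D) :
    ∃ X0 : ℝ, ∀ X : ℝ, X0 ≤ X → ∃ x : ℝ, X ≤ x ∧
      x ≤ X * Real.exp ((Real.log (Real.log X)) ^ a) ∧
      bsdProd (c * k ^ 2) 0 x ≤ CG r l * (Real.log x) ^ r * Real.exp (-D x) := by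
  obtain ⟨U1, hU1⟩ := allA_short a ha k c n f i j L r l V h D hD (-1) (Or.inr ⟨rfl, hreal⟩)
  obtain ⟨X0, hX0⟩ := MnA_win a U1 1 k h.hk _ hU1
  refine ⟨X0, fun X hX => ?_⟩
  obtain ⟨v, h1, h2, -, h3, h4, -, h5⟩ := hX0 X hX
  refine ⟨Real.exp v, h1, h2, ?_⟩
  rw [Real.log_exp, P_er k c n f i j L r l V h v (by linarith) h4]
  refine mul_le_mul_of_nonneg_left (Real.exp_le_exp.2 ?_) ?_
  · show ee n j l V r v ≤ -D (Real.exp v)
    linarith
  · exact (mul_pos (CG_pos r l h.hl) (pow_pos (by linarith) r)).le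

/-- Crossings. -/
theorem shA_cross (a : ℝ) (ha : 2 < a) (k : ℕ) (c : ℤ) (n f i j : ℕ) (L : ℂ → ℂ) (r : ℕ)
    (l V : ℝ) (h : W3283g.SU k c n f i j L r l V) (hreal : ∀ σ : ℝ, 1 < σ → L σ ≠ 0) :
    ∃ X0 : ℝ, ∀ X : ℝ, X0 ≤ X → ∃ y : ℝ, X ≤ y ∧
      y ≤ X * Real.exp ((Real.log (Real.log X)) ^ a) ∧
      |bsdProd (c * k ^ 2) 0 y / (CG r l * (Real.log y) ^ r) - 1| ≤ 5 / Real.sqrt y := by
  have hAmp : Amp L (fun x => 1 / Real.log x) := Or.inl ⟨1, one_pos, fun x _ => rfl⟩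
  obtain ⟨U1, hU1⟩ := allA_short a ha k c n f i j L r l V h _ hAmp 1 (Or.inl rfl)
  obtain ⟨U2, hU2⟩ := allA_short a ha k c n f i j L r l V h _ hAmp (-1) (Or.inr ⟨rfl, hreal⟩)
  obtain ⟨X1, hX1⟩ := MnA_win a U1 1 k h.hk _ hU1
  obtain ⟨X2, hX2⟩ := MnA_win a U2 1 k h.hk _ hU2
  refine ⟨max X1 X2, fun X hX => ?_⟩
  obtain ⟨v, v1, v2, -, v3, v4, v5, v6⟩ := hX1 X ((le_max_left _ _).trans hX)
  obtain ⟨w, w1, w2, -, w3, w4, w5, w6⟩ := hX2 X ((le_max_right _ _).trans hX)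
  rw [Real.log_exp] at v6 w6
  have hv0 : 0 < v := by linarith
  have hw0 : 0 < w := by linarith
  have gv : 0 < CG r l * v ^ r := mul_pos (CG_pos r l h.hl) (pow_pos hv0 r)
  have gw : 0 < CG r l * w ^ r := mul_pos (CG_pos r l h.hl) (pow_pos hw0 r)
  have ev : 0 < bsdProd (c * k ^ 2) 0 (Real.exp v) -
      CG r l * (Real.log (Real.exp v)) ^ r := by
    rw [Real.log_exp, P_er k c n f i j L r l V h v hv0 v4]
    have g1 : 0 < ee n j l V r v := by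
      have : 0 < 1 / v := by positivity
      linarith
    have g2 : 1 < Real.exp (ee n j l V r v) := Real.one_lt_exp_iff.2 g1
    have g3 : CG r l * v ^ r * Real.exp (ee n j l V r v) - CG r l * v ^ r =
        CG r l * v ^ r * (Real.exp (ee n j l V r v) - 1) := by ring
    show 0 < CG r l * v ^ r * Real.exp (ee n j l V r v) - CG r l * v ^ r
    rw [g3]
    exact mul_pos gv (by linarith)
  have ew : bsdProd (c * k ^ 2) 0 (Real.exp w) -
      CG r l * (Real.log (Real.exp w)) ^ r < 0 := by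
    rw [Real.log_exp, P_er k c n f i j L r l V h w hw0 w4]
    have g1 : ee n j l V r w < 0 := by
      have : 0 < 1 / w := by positivity
      linarith
    have g2 : Real.exp (ee n j l V r w) < 1 := Real.exp_lt_one_iff.2 g1
    have g3 : CG r l * w ^ r * Real.exp (ee n j l V r w) - CG r l * w ^ r =
        CG r l * w ^ r * (Real.exp (ee n j l V r w) - 1) := by ring
    show CG r l * w ^ r * Real.exp (ee n j l V r w) - CG r l * w ^ r < 0
    rw [g3]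
    exact mul_neg_of_pos_of_neg gw (by linarith)
  rcases lt_trichotomy (Real.exp v) (Real.exp w) with hlt | heq | hgt
  · obtain ⟨z, z1, z2, z3⟩ := cross k c n f i j L r l V h _ _ v5 hlt (mul_neg_of_pos_of_neg ev ew)
    exact ⟨z, v1.trans z1, z2.trans w2, z3⟩
  · rw [heq] at ev
    exact absurd ev (not_lt.2 ew.le)
  · obtain ⟨z, z1, z2, z3⟩ := cross k c n f i j L r l V h _ _ w5 hgt (mul_neg_of_neg_of_pos ew ev)
    exact ⟨z, w1.trans z1, z2.trans v2, z3⟩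

end W3283p
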