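import Pool.Agent.W_3283e1_sh.QQd
import Pool.Agent.W_3283e1_v3.Csh

set_option autoImplicit false

namespace W3283p

open MeasureTheory W3283v Filter Topology

theorem TQ_cont (w : ℂ) (hw : w ≠ 0) (u : ℝ) (hu : 1 ≤ u) :
    IntervalIntegrable (fun t : ℝ => Complex.exp (w * t) / (w * (t : ℂ) ^ 2)) volume 1 u := by
  refine ContinuousOn.intervalIntegrable fun t ht => ?_
  rw [Set.uIcc_of_le hu] at ht
  have ht0 : (t : ℂ) ≠ 0 := by
    have : t ≠ 0 := by linarith [ht.1]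
    exact_mod_cast this
  refine ContinuousAt.continuousWithinAt (ContinuousAt.div ?_ ?_ ?_)
  · fun_prop
  · fun_prop
  · exact mul_ne_zero hw (pow_ne_zero 2 ht0)

theorem TQ_cont3 (w : ℂ) (u : ℝ) (hu : 1 ≤ u) :
    IntervalIntegrable (fun t : ℝ => (Complex.cosh (w * t) - 1) / (t : ℂ) ^ 3) volume 1 u := by
  refine ContinuousOn.intervalIntegrable fun t ht => ?_
  rw [Set.uIcc_of_le hu] at ht
  have ht0 : (t : ℂ) ≠ 0 := by
    have : t ≠ 0 := by linarith [ht.1]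
    exact_mod_cast this
  refine ContinuousAt.continuousWithinAt (ContinuousAt.div ?_ ?_ ?_)
  · fun_prop
  · fun_prop
  · exact pow_ne_zero 3 ht0

theorem TQ_deriv (w : ℂ) (hw : w ≠ 0) (t : ℝ) (ht : t ≠ 0) :
    HasDerivAt (fun t : ℝ => 2 / w ^ 2 * ((Complex.cosh (w * t) - 1) / (t : ℂ) ^ 2))
      (Complex.exp (w * t) / (w * (t : ℂ) ^ 2) + Complex.exp (-w * t) / (-w * (t : ℂ) ^ 2) -
        4 / w ^ 2 * ((Complex.cosh (w * t) - 1) / (t : ℂ) ^ 3)) t := by
  have ht0 : (t : ℂ) ≠ 0 := by exact_mod_cast ht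
  have h1 : HasDerivAt (fun z : ℂ => Complex.cosh (w * z))
      (Complex.sinh (w * t) * (w * 1)) (t : ℂ) :=
    (Complex.hasDerivAt_cosh (w * t)).comp (t : ℂ) ((hasDerivAt_id (t : ℂ)).const_mul w)
  have h2 := ((h1.sub_const 1).div (hasDerivAt_pow 2 (t : ℂ)) (pow_ne_zero 2 ht0)).const_mul
    (2 / w ^ 2)
  have h3 := h2.comp_ofReal
  refine h3.congr_deriv ?_
  have e1 : Complex.sinh (w * t) = (Complex.exp (w * t) - Complex.exp (-w * t)) / 2 := by
    rw [neg_mul]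
    rfl
  rw [e1]
  generalize Complex.exp (w * t) = a
  generalize Complex.exp (-w * t) = b
  generalize Complex.cosh (w * t) = c
  field_simp
  push_cast
  ring

theorem TQ_norm (w : ℂ) (s : ℝ) : |w.im| ≤ ‖w - s‖ := by
  have h1 := Complex.abs_im_le_norm (w - s)
  simpa using h1

theorem TQ_ftc (w : ℂ) (hw0 : w ≠ 0) (d : ℝ) (hd : 0 < d) (hw : ∀ s : ℝ, 0 ≤ s → d ≤ ‖w - s‖)
    (u : ℝ) (hu : 1 ≤ u) :
    ∫ t in (1 : ℝ)..u, Complex.exp (w * t) / (w * (t : ℂ) ^ 2) = QQ w u / u - QQ w 1 := by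
  have h1 := intervalIntegral.integral_eq_sub_of_hasDerivAt
    (f := fun u : ℝ => QQ w u / (u : ℂ)) (a := 1) (b := u) (fun t ht => by
      rw [Set.uIcc_of_le hu] at ht
      exact qq_deriv w d hd hw t (by linarith [ht.1])) (TQ_cont w hw0 u hu)
  rw [h1]
  simp

/-- Integration by parts: `TT w u = w ∫_1^u sinh (w t)/t² dt`, i.e.
`(2/w²) TT w u = ∫_1^u (e^{wt} - e^{-wt})/(w t²) dt`. -/
theorem tt_int (w : ℂ) (hw : w ≠ 0) (u : ℝ) (hu : 1 ≤ u) :
    2 / w ^ 2 * TT w u = (∫ t in (1 : ℝ)..u, Complex.exp (w * t) / (w * (t : ℂ) ^ 2)) +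
      ∫ t in (1 : ℝ)..u, Complex.exp (-w * t) / (-w * (t : ℂ) ^ 2) := by
  have hw' : -w ≠ 0 := neg_ne_zero.2 hw
  have h1 := intervalIntegral.integral_eq_sub_of_hasDerivAt
    (f := fun t : ℝ => 2 / w ^ 2 * ((Complex.cosh (w * t) - 1) / (t : ℂ) ^ 2)) (a := 1) (b := u)
    (fun t ht => by
      rw [Set.uIcc_of_le hu] at ht
      exact TQ_deriv w hw t (by linarith [ht.1]))
    (((TQ_cont w hw u hu).add (TQ_cont (-w) hw' u hu)).sub ((TQ_cont3 w u hu).const_mul _))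
  rw [intervalIntegral.integral_sub ((TQ_cont w hw u hu).add (TQ_cont (-w) hw' u hu))
      ((TQ_cont3 w u hu).const_mul _),
    intervalIntegral.integral_add (TQ_cont w hw u hu) (TQ_cont (-w) hw' u hu),
    intervalIntegral.integral_const_mul] at h1
  unfold TT
  simp only [Complex.ofReal_one, mul_one, one_pow, div_one] at h1
  linear_combination -h1

/-- `tt_int` and the fundamental theorem with `qq_deriv` for `w` and `-w`. -/
theorem tt_qq (w : ℂ) (hw : w.im ≠ 0) (hw0 : 0 ≤ w.re) (u : ℝ) (hu : 1 ≤ u) :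
    2 / w ^ 2 * TT w u = QQ w u / u - QQ w 1 + (QQ (-w) u / u - QQ (-w) 1) := by
  have hw1 : w ≠ 0 := fun h => hw (by rw [h, Complex.zero_im])
  have hd : 0 < |w.im| := abs_pos.2 hw
  rw [tt_int w hw1 u hu, TQ_ftc w hw1 |w.im| hd (fun s _ => TQ_norm w s) u hu,
    TQ_ftc (-w) (neg_ne_zero.2 hw1) |w.im| hd (fun s _ => by
      have h1 := TQ_norm (-w) s
      rwa [Complex.neg_im, abs_neg] at h1) u hu]

/-- For real `w > 0` the first integral of `tt_int` is `RR w.re u / u`. -/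
theorem tt_rr (w : ℂ) (hw : w.im = 0) (hw0 : 0 < w.re) (u : ℝ) (hu : 1 ≤ u) :
    2 / w ^ 2 * TT w u = ((RR w.re u : ℝ) : ℂ) / u + (QQ (-w) u / u - QQ (-w) 1) := by
  have hwe : w = (w.re : ℂ) := Complex.ext (by simp) (by simp [hw])
  have hw1 : w ≠ 0 := fun h => by
    rw [h, Complex.zero_re] at hw0
    exact lt_irrefl _ hw0
  have hu0 : (u : ℂ) ≠ 0 := by
    have : u ≠ 0 := by linarith
    exact_mod_cast this
  rw [tt_int w hw1 u hu, TQ_ftc (-w) (neg_ne_zero.2 hw1) w.re hw0 (fun s hs => by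
      have h1 := Complex.abs_re_le_norm (-w - s)
      rw [Complex.sub_re, Complex.neg_re, Complex.ofReal_re] at h1
      have h2 : |-w.re - s| = w.re + s := by
        rw [abs_of_nonpos (by linarith)]
        ring
      rw [h2] at h1
      linarith) u hu]
  congr 1
  have h1 : ∀ t : ℝ, Complex.exp (w * t) / (w * (t : ℂ) ^ 2) =
      ((Real.exp (w.re * t) / (w.re * t ^ 2) : ℝ) : ℂ) := by
    intro t
    push_cast
    rw [← hwe]
  rw [intervalIntegral.integral_congr fun t _ => h1 t, intervalIntegral.integral_ofReal]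
  unfold RR
  push_cast
  field_simp

/-- `‖cosh (w t) - 1‖ ≤ 2 e^{u/2}` for `t ≤ u`, `0 ≤ Re w ≤ 1/2` (`Csh_norm` of `W_3283e1_v3.Csh`). -/
theorem tt_bd (w : ℂ) (hw0 : 0 ≤ w.re) (hw1 : w.re ≤ 1 / 2) (u : ℝ) (hu : 1 ≤ u) :
    ‖TT w u‖ ≤ 8 * u * Real.exp (u / 2) := by
  have hu0 : 0 < u := by linarith
  have he : 0 < Real.exp (u / 2) := Real.exp_pos _
  have hc : ∀ t : ℝ, 1 ≤ t → t ≤ u → ‖Complex.cosh (w * t) - 1‖ ≤ 2 * Real.exp (u / 2) := by
    intro t ht htu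
    refine (Csh_norm hw0 hw1 (by linarith)).trans ?_
    have h1 : Real.exp (t / 2) ≤ Real.exp (u / 2) := Real.exp_le_exp.2 (by linarith)
    linarith
  have h1 : ‖(Complex.cosh (w * u) - 1) / (u : ℂ) ^ 2‖ ≤ 2 * u * Real.exp (u / 2) := by
    rw [norm_div, norm_pow, Complex.norm_real, Real.norm_of_nonneg hu0.le]
    have h2 : (1 : ℝ) ≤ u ^ 2 := one_le_pow₀ hu
    refine (div_le_self (norm_nonneg _) h2).trans ((hc u hu le_rfl).trans ?_)
    nlinarith
  have h2 : ‖Complex.cosh w - 1‖ ≤ 2 * u * Real.exp (u / 2) := by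
    have h3 := hc 1 le_rfl hu
    rw [Complex.ofReal_one, mul_one] at h3
    refine h3.trans ?_
    nlinarith
  have h3 : ‖∫ t in (1 : ℝ)..u, (Complex.cosh (w * t) - 1) / (t : ℂ) ^ 3‖ ≤
      2 * Real.exp (u / 2) * |u - 1| := by
    refine intervalIntegral.norm_integral_le_of_norm_le_const fun t ht => ?_
    rw [Set.uIoc_of_le hu] at ht
    have ht0 : 0 < t := by linarith [ht.1]
    rw [norm_div, norm_pow, Complex.norm_real, Real.norm_of_nonneg ht0.le]
    exact (div_le_self (norm_nonneg _) (one_le_pow₀ ht.1.le)).trans (hc t ht.1.le ht.2)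
  rw [abs_of_nonneg (by linarith)] at h3
  unfold TT
  have h4 := norm_add_le ((Complex.cosh (w * u) - 1) / (u : ℂ) ^ 2 - (Complex.cosh w - 1))
    (2 * ∫ t in (1 : ℝ)..u, (Complex.cosh (w * t) - 1) / (t : ℂ) ^ 3)
  have h5 := norm_sub_le ((Complex.cosh (w * u) - 1) / (u : ℂ) ^ 2) (Complex.cosh w - 1)
  rw [norm_mul, Complex.norm_ofNat] at h4
  nlinarith

end W3283p
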