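import Pool.Agent.W_3283e1_sh.IbP
import Pool.Agent.W_3283e1_sh.TQ
import Pool.Agent.W_3283e1_v3.Csh
import Pool.Agent.W_3283e1_v3.GrA

set_option autoImplicit false

namespace W3283p

open MeasureTheory W3283v Filter Topology

variable {ι : Type} {lam : ι → ℂ} {m : ι → ℝ}

theorem ADiv_inv_sq (K u : ℝ) (hu : 1 ≤ u) (hK : 0 ≤ K) :
    IntervalIntegrable (fun t : ℝ => K / t ^ 2) volume 1 u ∧
      ∫ t in (1 : ℝ)..u, K / t ^ 2 ≤ K := by
  have hne : ∀ t ∈ Set.uIcc (1 : ℝ) u, t ≠ 0 := by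
    intro t ht
    rw [Set.uIcc_of_le hu] at ht
    linarith [ht.1]
  have hd : ∀ t ∈ Set.uIcc (1 : ℝ) u, HasDerivAt (fun t : ℝ => -(K / t)) (K / t ^ 2) t := by
    intro t ht
    have h0 := hne t ht
    have h1 := ((hasDerivAt_inv h0).const_mul K).neg
    refine (h1.congr_deriv ?_).congr_of_eventuallyEq ?_
    · field_simp
    · exact Filter.Eventually.of_forall fun x => by
        show -(K / x) = -(K * x⁻¹)
        rw [div_eq_mul_inv]
  have hi : IntervalIntegrable (fun t : ℝ => K / t ^ 2) volume 1 u := by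
    refine ContinuousOn.intervalIntegrable ?_
    exact continuousOn_const.div (by fun_prop) fun t ht => pow_ne_zero _ (hne t ht)
  refine ⟨hi, ?_⟩
  rw [intervalIntegral.integral_eq_sub_of_hasDerivAt hd hi]
  have h1 : 0 ≤ K / u := div_nonneg hK (by linarith)
  rw [div_one]
  linarith

/-- `ibp` with `k = 2` and `hA.ex`, `B = I0 A = Σ (2m/λ²)(cosh λt - 1) + c3 t - Om1 t`:
`∫_1^u A/t² = B u/u² - B 1 + 2 ∫_1^u B/t³`.  The sum over the zeros is exchanged with `∫_1^u` (the terms are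
continuous and bounded by `(m/‖λ‖²) · 8 e^{u/2}`, as in `ev`); the terms with `c3 t` and `Om1`
(`Om1_bd`) are bounded: `c3 (1/u - 1 + 2 ∫_1^u dt/t²)`, `C (1 + 1 + 2 ∫_1^u dt/t³)`. -/
theorem a_div (hZ : ZC lam m) (A : ℝ → ℝ) (hA : EFC lam m A) :
    ∃ C : ℝ, 0 ≤ C ∧ ∀ u : ℝ, 1 ≤ u →
      Summable (fun i => 2 * (m i : ℂ) / (lam i) ^ 2 * TT (lam i) u) ∧
      ‖((∫ t in (1 : ℝ)..u, A t / t ^ 2 : ℝ) : ℂ) -
        ∑' i, 2 * (m i : ℂ) / (lam i) ^ 2 * TT (lam i) u‖ ≤ C := by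
  classical
  have hcount : Countable ι := Ev_countable hZ
  obtain ⟨c3, hex⟩ := hA.ex
  obtain ⟨C, hC⟩ := Om1_bd
  have hC0 : 0 ≤ C := (abs_nonneg _).trans (hC 0)
  have hm : ∀ i, 0 ≤ m i := fun i => by linarith [hZ.zd.one i]
  obtain ⟨c, hc⟩ : ∃ c : ι → ℂ, c = fun i => 2 * (m i : ℂ) / (lam i) ^ 2 := ⟨_, rfl⟩
  have hci : ∀ i, 2 * (m i : ℂ) / (lam i) ^ 2 = c i := fun i => by rw [hc]
  have hcs : Summable (fun i => ‖c i‖) := by
    refine (hZ.zd.sm.mul_left 2).congr fun i => ?_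
    rw [← hci, norm_div, norm_mul, norm_pow, Complex.norm_real, Real.norm_of_nonneg (hm i)]
    simp only [Complex.norm_ofNat]
    ring
  have hg : ∀ (i : ι) (t u : ℝ), 0 ≤ t → t ≤ u →
      ‖c i * (Complex.cosh (lam i * t) - 1)‖ ≤ ‖c i‖ * (2 * Real.exp (u / 2)) := by
    intro i t u ht htu
    rw [norm_mul]
    refine mul_le_mul_of_nonneg_left ?_ (norm_nonneg _)
    refine (Csh_norm (hZ.re0 i) (hZ.re1 i) ht).trans ?_
    have := Real.exp_le_exp.2 (show t / 2 ≤ u / 2 by linarith)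
    linarith
  have hgs : ∀ t : ℝ, 0 ≤ t → Summable (fun i => c i * (Complex.cosh (lam i * t) - 1)) :=
    fun t ht => Summable.of_norm_bounded (hcs.mul_right (2 * Real.exp (t / 2)))
      fun i => hg i t t ht le_rfl
  obtain ⟨S, hSd⟩ : ∃ S : ℝ → ℂ, S = fun t : ℝ => ∑' i, c i * (Complex.cosh (lam i * (t : ℂ)) - 1) :=
    ⟨_, rfl⟩
  have hSs : ∀ t : ℝ, 0 ≤ t → HasSum (fun i => c i * (Complex.cosh (lam i * t) - 1)) (S t) := by
    intro t ht
    rw [hSd]
    exact (hgs t ht).hasSum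
  have hS : ContinuousOn S (Set.Ici 0) := by
    rw [hSd]
    have := (csh_lap lam m hZ).1
    simp only [hci] at this
    exact this
  simp only [hci] at hex ⊢
  refine ⟨4 * |c3| + 4 * C, by positivity, fun u hu => ?_⟩
  have hu0 : 0 < u := by linarith
  have hne : ∀ t ∈ Set.uIcc (1 : ℝ) u, (t : ℂ) ^ 3 ≠ 0 := by
    intro t ht
    rw [Set.uIcc_of_le hu] at ht
    refine pow_ne_zero _ ?_
    exact_mod_cast (show t ≠ 0 by linarith [ht.1])
  have hsub : Set.uIcc (1 : ℝ) u ⊆ Set.Ici 0 := by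
    rw [Set.uIcc_of_le hu]
    intro t ht
    exact (zero_le_one.trans ht.1 : (0 : ℝ) ≤ t)
  have hpow : ContinuousOn (fun t : ℝ => (t : ℂ) ^ 3) (Set.uIcc 1 u) := by fun_prop
  have hcosh : ∀ i, ContinuousOn (fun t : ℝ => c i * (Complex.cosh (lam i * t) - 1))
      (Set.uIcc 1 u) := by
    intro i
    have : Continuous fun t : ℝ => Complex.cosh (lam i * t) :=
      Complex.continuous_cosh.comp (by fun_prop)
    exact Continuous.continuousOn (by fun_prop)
  have hex1 : HasSum (fun i => ∫ t in (1 : ℝ)..u,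
      c i * (Complex.cosh (lam i * t) - 1) / (t : ℂ) ^ 3)
      (∫ t in (1 : ℝ)..u, S t / (t : ℂ) ^ 3) := by
    refine intervalIntegral.hasSum_integral_of_dominated_convergence
      (fun i _ => ‖c i‖ * (2 * Real.exp (u / 2))) (fun i => ?_) (fun i => ?_) ?_ ?_ ?_
    · have h1 : ContinuousOn (fun t : ℝ =>
          c i * (Complex.cosh (lam i * t) - 1) / (t : ℂ) ^ 3) (Set.uIcc 1 u) :=
        (hcosh i).div hpow hne
      exact (h1.mono Set.uIoc_subset_uIcc).aestronglyMeasurable measurableSet_uIoc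
    · refine Filter.Eventually.of_forall fun t ht => ?_
      rw [Set.uIoc_of_le hu] at ht
      have h1 := hg i t u (by linarith [ht.1]) ht.2
      rw [norm_div, norm_pow, Complex.norm_real, Real.norm_of_nonneg (by linarith [ht.1])]
      refine (div_le_self (norm_nonneg _) (one_le_pow₀ ht.1.le)).trans h1
    · exact Filter.Eventually.of_forall fun t _ => hcs.mul_right _
    · exact intervalIntegrable_const
    · refine Filter.Eventually.of_forall fun t ht => ?_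
      rw [Set.uIoc_of_le hu] at ht
      exact (hSs t (by linarith [ht.1])).div_const _
  have hterm : ∀ i, c i * TT (lam i) u = c i * (Complex.cosh (lam i * u) - 1) / (u : ℂ) ^ 2 -
      c i * (Complex.cosh (lam i * (1 : ℝ)) - 1) +
      2 * ∫ t in (1 : ℝ)..u, c i * (Complex.cosh (lam i * t) - 1) / (t : ℂ) ^ 3 := by
    intro i
    have h1 : ∀ t : ℝ, c i * (Complex.cosh (lam i * t) - 1) / (t : ℂ) ^ 3 =
        c i * ((Complex.cosh (lam i * t) - 1) / (t : ℂ) ^ 3) := fun t => mul_div_assoc _ _ _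
    simp only [h1]
    rw [intervalIntegral.integral_const_mul]
    unfold TT
    rw [Complex.ofReal_one, mul_one]
    ring
  have hsum : HasSum (fun i => c i * TT (lam i) u)
      (S u / (u : ℂ) ^ 2 - S 1 + 2 * ∫ t in (1 : ℝ)..u, S t / (t : ℂ) ^ 3) := by
    rw [funext hterm]
    exact (((hSs u hu0.le).div_const _).sub (hSs 1 zero_le_one)).add (hex1.mul_left 2)
  refine ⟨hsum.summable, ?_⟩
  rw [hsum.tsum_eq]
  have hib := ibp A (fun T => GrA_int A hA 0 T le_rfl) 2 (by norm_num) u hu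
  have hB : ∀ t : ℝ, 0 ≤ t → ((I0 A t : ℝ) : ℂ) = S t + (c3 * t - (Om1 t : ℂ)) := by
    intro t ht
    have h1 := hex t ht
    rw [I0, h1, hSd]
    ring
  obtain ⟨R, hR⟩ : ∃ R : ℝ → ℂ, R = fun t : ℝ => (c3 : ℂ) * t - (Om1 t : ℂ) := ⟨_, rfl⟩
  have hRb : ∀ t : ℝ, 1 ≤ t → ‖R t‖ ≤ (|c3| + C) * t := by
    intro t ht
    rw [hR]
    refine (norm_sub_le _ _).trans ?_
    rw [norm_mul, Complex.norm_real, Complex.norm_real, Complex.norm_real, Real.norm_eq_abs,
      Real.norm_eq_abs, Real.norm_eq_abs, abs_of_nonneg (by linarith : (0 : ℝ) ≤ t)]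
    have h1 := hC t
    have h2 : C * 1 ≤ C * t := mul_le_mul_of_nonneg_left ht hC0
    linarith
  have hRc : ContinuousOn R (Set.uIcc 1 u) := by
    have c1 : IntegrableOn W3283l.om (Set.Icc 0 u) := by
      rw [integrableOn_Icc_iff_integrableOn_Ioc]
      exact W3283l.om_int.mono_set Set.Ioc_subset_Ioi_self
    have c2 : ContinuousOn Om1 (Set.Icc 0 u) := intervalIntegral.continuousOn_primitive c1
    have c3' : ContinuousOn (fun t => ((Om1 t : ℝ) : ℂ)) (Set.uIcc 1 u) := by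
      refine Complex.continuous_ofReal.comp_continuousOn (c2.mono fun t ht => ?_)
      rw [Set.uIcc_of_le hu] at ht
      exact ⟨by linarith [ht.1], ht.2⟩
    rw [hR]
    exact ContinuousOn.sub (by fun_prop) c3'
  have i1 : IntervalIntegrable (fun t : ℝ => S t / (t : ℂ) ^ 3) volume 1 u :=
    ((hS.mono hsub).div hpow hne).intervalIntegrable
  have i2 : IntervalIntegrable (fun t : ℝ => R t / (t : ℂ) ^ 3) volume 1 u :=
    (hRc.div hpow hne).intervalIntegrable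
  have hintB : ((∫ t in (1 : ℝ)..u, I0 A t / t ^ 3 : ℝ) : ℂ) =
      (∫ t in (1 : ℝ)..u, S t / (t : ℂ) ^ 3) + ∫ t in (1 : ℝ)..u, R t / (t : ℂ) ^ 3 := by
    rw [← intervalIntegral.integral_add i1 i2, ← intervalIntegral.integral_ofReal]
    refine intervalIntegral.integral_congr fun t ht => ?_
    rw [Set.uIcc_of_le hu] at ht
    push_cast
    rw [hB t (by linarith [ht.1]), hR]
    ring
  have hmain : ((∫ t in (1 : ℝ)..u, A t / t ^ 2 : ℝ) : ℂ) -
      (S u / (u : ℂ) ^ 2 - S 1 + 2 * ∫ t in (1 : ℝ)..u, S t / (t : ℂ) ^ 3) =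
      R u / (u : ℂ) ^ 2 - R 1 + 2 * ∫ t in (1 : ℝ)..u, R t / (t : ℂ) ^ 3 := by
    rw [hib]
    push_cast
    rw [hintB, hB u hu0.le, hB 1 zero_le_one, hR]
    ring
  rw [hmain]
  have hk : 0 ≤ |c3| + C := by positivity
  have b1 : ‖R u / (u : ℂ) ^ 2‖ ≤ |c3| + C := by
    rw [norm_div, norm_pow, Complex.norm_real, Real.norm_of_nonneg hu0.le,
      div_le_iff₀ (by positivity)]
    refine (hRb u hu).trans (mul_le_mul_of_nonneg_left ?_ hk)
    nlinarith
  have b2 : ‖R 1‖ ≤ |c3| + C := (hRb 1 le_rfl).trans_eq (mul_one _)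
  have b3 : ‖∫ t in (1 : ℝ)..u, R t / (t : ℂ) ^ 3‖ ≤ |c3| + C := by
    obtain ⟨j1, j2⟩ := ADiv_inv_sq (|c3| + C) u hu hk
    refine (intervalIntegral.norm_integral_le_of_norm_le hu ?_ j1).trans j2
    refine Filter.Eventually.of_forall fun t ht => ?_
    have ht0 : 0 < t := by linarith [ht.1]
    rw [norm_div, norm_pow, Complex.norm_real, Real.norm_of_nonneg ht0.le,
      div_le_div_iff₀ (by positivity) (by positivity)]
    have h1 := hRb t ht.1.le
    have h2 : 0 < t ^ 2 := by positivity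
    calc ‖R t‖ * t ^ 2 ≤ ((|c3| + C) * t) * t ^ 2 := mul_le_mul_of_nonneg_right h1 h2.le
      _ = (|c3| + C) * t ^ 3 := by ring
  calc _ ≤ ‖R u / (u : ℂ) ^ 2 - R 1‖ + ‖2 * ∫ t in (1 : ℝ)..u, R t / (t : ℂ) ^ 3‖ :=
        norm_add_le _ _
    _ ≤ (‖R u / (u : ℂ) ^ 2‖ + ‖R 1‖) + ‖(2 : ℂ)‖ * ‖∫ t in (1 : ℝ)..u, R t / (t : ℂ) ^ 3‖ :=
        add_le_add (norm_sub_le _ _) (norm_mul _ _).le
    _ ≤ 4 * |c3| + 4 * C := by
        rw [Complex.norm_ofNat]
        linarith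

end W3283p
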