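import Mathlib

set_option autoImplicit false

namespace W3283p

/-- Pigeonhole: among the `card F + 1` disjoint annuli `ρ/M^(k+1) < r ≤ ρ/M^k`, `k ≤ card F`, one contains no
`‖f i - c‖`.  (If all contained one, choose `i_k ∈ F` for each `k`: `k ↦ i_k` is injective, since the annuli are
disjoint, from `Finset.range (card F + 1)` to `F`.) -/
theorem annul {ι : Type} (F : Finset ι) (f : ι → ℂ) (c : ℂ) (M ρ : ℝ) (hM : 1 < M) (hρ : 0 < ρ) :
    ∃ k : ℕ, k ≤ F.card ∧ ∀ i ∈ F, ‖f i - c‖ ≤ ρ / M ^ (k + 1) ∨ ρ / M ^ k < ‖f i - c‖ := by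
  classical
  by_contra hcon
  push Not at hcon
  have h : ∀ k : ℕ, ∃ i, k ≤ F.card → i ∈ F ∧ ρ / M ^ (k + 1) < ‖f i - c‖ ∧
      ‖f i - c‖ ≤ ρ / M ^ k := by
    intro k
    by_cases hk : k ≤ F.card
    · obtain ⟨i, hi, h1, h2⟩ := hcon k hk
      exact ⟨i, fun _ => ⟨hi, h1, h2⟩⟩
    · obtain ⟨i, hi, -⟩ := hcon 0 (Nat.zero_le _)
      exact ⟨i, fun h => absurd h hk⟩
  choose g hg using h
  obtain ⟨k, hk, k', hk', hne, he⟩ := Finset.exists_ne_map_eq_of_card_lt_of_maps_to
    (s := Finset.range (F.card + 1)) (t := F) (by rw [Finset.card_range]; omega) (f := g)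
    (fun k hk => (hg k (by have := Finset.mem_range.1 hk; omega)).1)
  have key : ∀ k k' : ℕ, k ≤ F.card → k' ≤ F.card → k < k' → g k = g k' → False := by
    intro k k' hk hk' hlt he
    have h1 := (hg k hk).2.1
    have h2 := (hg k' hk').2.2
    rw [← he] at h2
    have h3 : ρ / M ^ k' ≤ ρ / M ^ (k + 1) :=
      div_le_div_of_nonneg_left hρ.le (by positivity) (pow_le_pow_right₀ hM.le hlt)
    linarith
  have hk1 := Finset.mem_range.1 hk
  have hk1' := Finset.mem_range.1 hk'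
  rcases Nat.lt_or_gt_of_ne hne with hlt | hlt
  · exact key k k' (by omega) (by omega) hlt he
  · exact key k' k (by omega) (by omega) hlt he.symm

end W3283p
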