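import Pool.Agent.W_3283e1_sh.Defs
import Pool.Agent.W_3283e1_lw.Cnt

set_option autoImplicit false

namespace W3283p

open MeasureTheory W3283v

variable {ι : Type} {lam : ι → ℂ} {m : ι → ℝ}

theorem Bst_P {p : ℕ} (hp : 1 ≤ p) : (0 : ℝ) < (p : ℝ) ^ 2 := by
  have : (0 : ℝ) < p := by exact_mod_cast hp
  positivity

/-- `f i = e^{Re λ} / (1 + |Im λ|/p²)`.  The set of `i` with `f i ≥ f i1` is finite, since `e^{Re λ} ≤ e^{1/2}`
bounds `|Im λ|` there, hence `‖λ‖` (`W3283l.cnt_fin hZ.zd`); a maximum of `f` over it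
(`Set.Finite.exists_maximal` or `Finset.exists_max_image`) is a maximum over all `i`. -/
theorem best_exists (hZ : ZC lam m) (i1 : ι) (p : ℕ) (hp : 1 ≤ p) : ∃ i0, Best lam p i0 := by
  have hP := Bst_P hp
  have hden : ∀ i, 0 < 1 + |(lam i).im| / (p : ℝ) ^ 2 := fun i => by positivity
  let f : ι → ℝ := fun i => Real.exp (lam i).re / (1 + |(lam i).im| / (p : ℝ) ^ 2)
  have hf0 : ∀ i, 0 < f i := fun i => div_pos (Real.exp_pos _) (hden i)
  have hfin : {i | f i1 ≤ f i}.Finite := by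
    refine (W3283l.cnt_fin hZ.zd (1 / 2 + (p : ℝ) ^ 2 * (Real.exp (1 / 2) / f i1))).subset ?_
    intro i hi
    have hi' : f i1 ≤ f i := hi
    have h1 : f i1 * (1 + |(lam i).im| / (p : ℝ) ^ 2) ≤ Real.exp (1 / 2) := by
      have h2 : f i1 * (1 + |(lam i).im| / (p : ℝ) ^ 2) ≤ Real.exp (lam i).re :=
        (le_div_iff₀ (hden i)).1 hi'
      exact h2.trans (Real.exp_le_exp.2 (hZ.re1 i))
    have h3 : 1 + |(lam i).im| / (p : ℝ) ^ 2 ≤ Real.exp (1 / 2) / f i1 := by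
      rw [le_div_iff₀ (hf0 i1)]
      linarith
    have h4 : |(lam i).im| / (p : ℝ) ^ 2 ≤ Real.exp (1 / 2) / f i1 := by linarith
    rw [div_le_iff₀ hP] at h4
    have h5 := Complex.norm_le_abs_re_add_abs_im (lam i)
    have h6 : |(lam i).re| ≤ 1 / 2 := by
      rw [abs_of_nonneg (hZ.re0 i)]
      exact hZ.re1 i
    change ‖lam i‖ ≤ _
    linarith
  obtain ⟨i0, hi0, hmax⟩ := Set.exists_max_image _ f hfin ⟨i1, le_refl (f i1)⟩
  refine ⟨i0, fun i => ?_⟩
  have h1 : f i ≤ f i0 := by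
    by_cases h : f i1 ≤ f i
    · exact hmax i h
    · exact (not_le.1 h).le.trans hi0
  have h2 : Real.exp (lam i).re * (1 + |(lam i0).im| / (p : ℝ) ^ 2) ≤
      Real.exp (lam i0).re * (1 + |(lam i).im| / (p : ℝ) ^ 2) :=
    (div_le_div_iff₀ (hden i) (hden i0)).1 h1
  rw [Real.exp_sub, div_mul_eq_mul_div, div_le_iff₀ (Real.exp_pos _)]
  linarith

/-- `1 + |a|/P ≤ (1 + |b|/P)(1 + |a - b|/P)`. -/
theorem best_a {p : ℕ} (hp : 1 ≤ p) {i0 : ι} (hB : Best lam p i0) (i : ι) :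
    Real.exp ((lam i).re - (lam i0).re) ≤ 1 + |(lam i).im - (lam i0).im| / (p : ℝ) ^ 2 := by
  have hP := Bst_P hp
  have h := hB i
  have hden : 0 < 1 + |(lam i0).im| / (p : ℝ) ^ 2 := by positivity
  rw [← le_div_iff₀ hden] at h
  refine h.trans ?_
  rw [div_le_iff₀ hden]
  have h1 : |(lam i).im| ≤ |(lam i).im - (lam i0).im| + |(lam i0).im| := by
    have := abs_add_le ((lam i).im - (lam i0).im) (lam i0).im
    rwa [sub_add_cancel] at this
  have h2 : |(lam i).im| / (p : ℝ) ^ 2 ≤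
      |(lam i).im - (lam i0).im| / (p : ℝ) ^ 2 + |(lam i0).im| / (p : ℝ) ^ 2 := by
    rw [← add_div]
    gcongr
  have h3 : 0 ≤ |(lam i).im - (lam i0).im| / (p : ℝ) ^ 2 * (|(lam i0).im| / (p : ℝ) ^ 2) := by
    positivity
  nlinarith

theorem best_b {p : ℕ} (hp : 1 ≤ p) {i0 : ι} (hB : Best lam p i0) (i : ι) :
    Real.exp ((lam i).re - (lam i0).re) ≤ 1 + |(lam i).im| / (p : ℝ) ^ 2 := by
  have hP := Bst_P hp
  refine le_trans ?_ (hB i)
  have h1 : 0 ≤ |(lam i0).im| / (p : ℝ) ^ 2 := by positivity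
  have h2 := Real.exp_pos ((lam i).re - (lam i0).re)
  nlinarith

/-- `1 + x ≤ e^x`. -/
theorem best_re {p : ℕ} (hp : 1 ≤ p) {i0 : ι} (hB : Best lam p i0) (i : ι) :
    (lam i).re - |(lam i).im| / (p : ℝ) ^ 2 ≤ (lam i0).re := by
  have h1 := best_b hp hB i
  have h2 := Real.add_one_le_exp ((lam i).re - (lam i0).re)
  linarith

/-- `1 + |γ0|/p² ≤ e^{Re λ0 - Re λ} (1 + |γ|/p²) ≤ e^{1/2} · 7/6 ≤ 2`. -/
theorem best_im (hZ : ZC lam m) {p : ℕ} (hp : 1 ≤ p) {i0 : ι} (hB : Best lam p i0) (i : ι)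
    (hi : |(lam i).im| ≤ (p : ℝ) ^ 2 / 6) : |(lam i0).im| ≤ (p : ℝ) ^ 2 := by
  have hP := Bst_P hp
  have h := hB i
  have h1 : 1 + |(lam i0).im| / (p : ℝ) ^ 2 ≤
      Real.exp ((lam i0).re - (lam i).re) * (1 + |(lam i).im| / (p : ℝ) ^ 2) := by
    have h2 := mul_le_mul_of_nonneg_left h (Real.exp_pos ((lam i0).re - (lam i).re)).le
    rw [← mul_assoc, ← Real.exp_add] at h2
    have e : (lam i0).re - (lam i).re + ((lam i).re - (lam i0).re) = 0 := by ring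
    rwa [e, Real.exp_zero, one_mul] at h2
  have h3 : Real.exp ((lam i0).re - (lam i).re) ≤ 17 / 10 := by
    have h4 : Real.exp ((lam i0).re - (lam i).re) ≤ Real.exp (1 / 2) := by
      apply Real.exp_le_exp.2
      have := hZ.re0 i
      have := hZ.re1 i0
      linarith
    refine h4.trans ?_
    have h5 : Real.exp (1 / 2) * Real.exp (1 / 2) = Real.exp 1 := by
      rw [← Real.exp_add]
      norm_num
    have h6 := Real.exp_one_lt_d9
    have h7 := Real.exp_pos (1 / 2)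
    nlinarith
  have h8 : |(lam i).im| / (p : ℝ) ^ 2 ≤ 1 / 6 := by
    rw [div_le_iff₀ hP]
    linarith
  have h9 : Real.exp ((lam i0).re - (lam i).re) * (1 + |(lam i).im| / (p : ℝ) ^ 2) ≤
      17 / 10 * (7 / 6) := by
    apply mul_le_mul h3 (by linarith) (by positivity) (by norm_num)
  have h10 : |(lam i0).im| / (p : ℝ) ^ 2 ≤ 1 := by linarith
  rwa [div_le_one hP] at h10

end W3283p
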