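import Pool.Agent.W_3283e1_sh.Defs
import Pool.Agent.W_3283e1_v3.ParA

set_option autoImplicit false

namespace W3283p

open W3283v

theorem DPr_exp (z : ℂ) (h0 : 0 ≤ z.re) : 1 ≤ ‖Complex.exp (z / 20)‖ := by
  rw [Complex.norm_exp]
  have h1 : (z / 20).re = z.re / 20 := by
    have : z / 20 = z / ((20 : ℝ) : ℂ) := by push_cast; rfl
    rw [this, Complex.div_ofReal_re]
  rw [h1]
  exact Real.one_le_exp (by positivity)

theorem DPr_exp' (z : ℂ) (h : z.re ≤ 1 / 2) : ‖Complex.exp (z / 20)‖ ≤ 5 / 4 := by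
  rw [Complex.norm_exp]
  have h1 : (z / 20).re = z.re / 20 := by
    have : z / 20 = z / ((20 : ℝ) : ℂ) := by push_cast; rfl
    rw [this, Complex.div_ofReal_re]
  rw [h1]
  have h2 : Real.exp (z.re / 20) ≤ Real.exp (1 / 40) := Real.exp_le_exp.2 (by linarith)
  have h3 : Real.exp (1 / 40) ≤ 5 / 4 := by
    have h4 := Real.exp_bound_div_one_sub_of_interval' (x := 1 / 40) (by norm_num) (by norm_num)
    refine h4.le.trans ?_
    norm_num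
  exact h2.trans h3

theorem DPr_norm20 (z : ℂ) : ‖z / 20‖ = ‖z‖ / 20 := by
  rw [norm_div]
  norm_num

/-- `|e^{a} - e^{b}| = |e^b| |e^{a-b} - 1| ≥ |a - b| (1 - |a - b|)` for `Re b ≥ 0`, `|a - b| ≤ 1/10`
(here `|a - b| = ‖l0 - y‖/20 ≤ (1 + 1/2)/20`). -/
theorem dp_sep (l0 y : ℂ) (hl0 : 0 ≤ l0.re) (hl0' : l0.re ≤ 1 / 2) (hy : 0 ≤ y.re)
    (hy' : y.re ≤ 1 / 2) (him : |y.im - l0.im| ≤ 1) :
    ‖y - l0‖ / 40 ≤ ‖Complex.exp (l0 / 20) - Complex.exp (y / 20)‖ := by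
  obtain ⟨w, hw⟩ : ∃ w, w = (y - l0) / 20 := ⟨_, rfl⟩
  have hn : ‖w‖ = ‖y - l0‖ / 20 := by rw [hw, DPr_norm20]
  have hb : ‖y - l0‖ ≤ 3 / 2 := by
    refine (Complex.norm_le_abs_re_add_abs_im _).trans ?_
    have h1 : |(y - l0).re| ≤ 1 / 2 := by
      rw [Complex.sub_re, abs_le]
      constructor <;> linarith
    have h2 : |(y - l0).im| ≤ 1 := by
      rw [Complex.sub_im]
      exact him
    linarith
  have hw1 : ‖w‖ ≤ 3 / 40 := by
    rw [hn]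
    linarith
  have h1 := Complex.norm_exp_sub_one_sub_id_le (x := w) (by linarith)
  have h2 : ‖w‖ - ‖w‖ ^ 2 ≤ ‖Complex.exp w - 1‖ := by
    have h3 : ‖w‖ ≤ ‖Complex.exp w - 1‖ + ‖Complex.exp w - 1 - w‖ := by
      have h4 : w = (Complex.exp w - 1) - (Complex.exp w - 1 - w) := by ring
      calc ‖w‖ = ‖(Complex.exp w - 1) - (Complex.exp w - 1 - w)‖ := by rw [← h4]
        _ ≤ _ := norm_sub_le _ _
    linarith
  have h5 : Complex.exp (l0 / 20) - Complex.exp (y / 20) =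
      -(Complex.exp (l0 / 20) * (Complex.exp w - 1)) := by
    rw [mul_sub, ← Complex.exp_add, mul_one, hw]
    have : l0 / 20 + (y - l0) / 20 = y / 20 := by ring
    rw [this]
    ring
  rw [h5, norm_neg, norm_mul]
  have h6 := DPr_exp l0 hl0
  have h7 : ‖w‖ / 2 ≤ ‖Complex.exp w - 1‖ := by nlinarith [norm_nonneg w]
  have h8 : ‖y - l0‖ / 40 = ‖w‖ / 2 := by
    rw [hn]
    ring
  rw [h8]
  calc ‖w‖ / 2 ≤ ‖Complex.exp w - 1‖ := h7
    _ = 1 * ‖Complex.exp w - 1‖ := (one_mul _).symm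
    _ ≤ _ := mul_le_mul_of_nonneg_right h6 (norm_nonneg _)

/-- Product of `dp_sep`. -/
theorem dp_low (S : Finset ℂ) (l0 : ℂ) (ρ : ℝ) (hl0 : 0 ≤ l0.re) (hl0' : l0.re ≤ 1 / 2)
    (hρ : 0 ≤ ρ)
    (hS : ∀ y ∈ S, 0 ≤ y.re ∧ y.re ≤ 1 / 2 ∧ |y.im - l0.im| ≤ 1 ∧ ρ ≤ ‖y - l0‖) :
    (ρ / 40) ^ S.card ≤ ‖DP S l0‖ := by
  unfold DP
  rw [norm_prod, ← Finset.prod_const]
  refine Finset.prod_le_prod (fun _ _ => by positivity) fun y hy => ?_
  obtain ⟨h1, h2, h3, h4⟩ := hS y hy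
  have h5 := dp_sep l0 y hl0 hl0' h1 h2 h3
  linarith

/-- `DP S l / DP S l0 = ∏ (1 + a_y)`, `a_y = (e^{l/20} - e^{l0/20})/(e^{l0/20} - e^{y/20})`,
`‖a_y‖ ≤ (ρ1/10)/(ρ/40)` (`|e^{l/20} - e^{l0/20}| ≤ 2 ‖l - l0‖/20`), and
`‖∏ (1 + a_y) - 1‖ ≤ ∏ (1 + ‖a_y‖) - 1 ≤ e^{Σ ‖a_y‖} - 1`. -/
theorem dp_near (S : Finset ℂ) (l0 l : ℂ) (ρ1 ρ : ℝ) (hl0 : 0 ≤ l0.re) (hl0' : l0.re ≤ 1 / 2)
    (hρ : 0 < ρ)
    (hS : ∀ y ∈ S, 0 ≤ y.re ∧ y.re ≤ 1 / 2 ∧ |y.im - l0.im| ≤ 1 ∧ ρ ≤ ‖y - l0‖)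
    (hl : ‖l - l0‖ ≤ ρ1) (hρ1 : ρ1 ≤ 1) :
    ‖DP S l - DP S l0‖ ≤ (Real.exp (4 * (ρ1 / ρ) * S.card) - 1) * ‖DP S l0‖ := by
  obtain ⟨e, he⟩ : ∃ e, e = Complex.exp (l / 20) - Complex.exp (l0 / 20) := ⟨_, rfl⟩
  have hρ1' : 0 ≤ ρ1 := (norm_nonneg _).trans hl
  have hen : ‖e‖ ≤ ρ1 / 10 := by
    obtain ⟨v, hv⟩ : ∃ v, v = (l - l0) / 20 := ⟨_, rfl⟩
    have hvn : ‖v‖ = ‖l - l0‖ / 20 := by rw [hv, DPr_norm20]
    have h1 := Complex.norm_exp_sub_one_sub_id_le (x := v) (by rw [hvn]; linarith)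
    have h2 : ‖Complex.exp v - 1‖ ≤ ‖v‖ + ‖v‖ ^ 2 := by
      have h4 : Complex.exp v - 1 = v + (Complex.exp v - 1 - v) := by ring
      calc ‖Complex.exp v - 1‖ = ‖v + (Complex.exp v - 1 - v)‖ := by rw [← h4]
        _ ≤ ‖v‖ + ‖Complex.exp v - 1 - v‖ := norm_add_le _ _
        _ ≤ _ := by linarith
    have h5 : e = Complex.exp (l0 / 20) * (Complex.exp v - 1) := by
      rw [he, mul_sub, ← Complex.exp_add, mul_one, hv]
      have : l0 / 20 + (l - l0) / 20 = l / 20 := by ring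
      rw [this]
    rw [h5, norm_mul]
    have h6 := DPr_exp' l0 hl0'
    have h7 : ‖v‖ ≤ ρ1 / 20 := by
      rw [hvn]
      linarith
    have h8 : ‖Complex.exp v - 1‖ ≤ ρ1 / 20 * (21 / 20) := by
      refine h2.trans ?_
      have h9 : ‖v‖ ≤ 1 / 20 := h7.trans (by linarith)
      nlinarith [norm_nonneg v]
    calc ‖Complex.exp (l0 / 20)‖ * ‖Complex.exp v - 1‖ ≤ 5 / 4 * (ρ1 / 20 * (21 / 20)) :=
          mul_le_mul h6 h8 (norm_nonneg _) (by norm_num)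
      _ ≤ ρ1 / 10 := by nlinarith
  have hb : ∀ y ∈ S, ρ / 40 ≤ ‖Complex.exp (l0 / 20) - Complex.exp (y / 20)‖ := by
    intro y hy
    obtain ⟨h1, h2, h3, h4⟩ := hS y hy
    have h5 := dp_sep l0 y hl0 hl0' h1 h2 h3
    linarith
  have hb0 : ∀ y ∈ S, Complex.exp (l0 / 20) - Complex.exp (y / 20) ≠ 0 := by
    intro y hy h0
    have h1 := hb y hy
    rw [h0, norm_zero] at h1
    linarith
  have h1 : DP S l = DP S l0 *
      ∏ y ∈ S, (1 + e / (Complex.exp (l0 / 20) - Complex.exp (y / 20))) := by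
    unfold DP
    rw [← Finset.prod_mul_distrib]
    refine Finset.prod_congr rfl fun y hy => ?_
    rw [mul_add, mul_one, mul_div_cancel₀ _ (hb0 y hy), he]
    ring
  have h2 : DP S l - DP S l0 = DP S l0 *
      ((∏ y ∈ S, (1 + e / (Complex.exp (l0 / 20) - Complex.exp (y / 20)))) - 1) := by
    rw [h1]
    ring
  rw [h2, norm_mul, mul_comm]
  refine mul_le_mul_of_nonneg_right ?_ (norm_nonneg _)
  refine (Finset.norm_prod_one_add_sub_one_le _ _).trans ?_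
  have h3 : ∑ y ∈ S, ‖e / (Complex.exp (l0 / 20) - Complex.exp (y / 20))‖ ≤
      4 * (ρ1 / ρ) * S.card := by
    have h4 : ∀ y ∈ S, ‖e / (Complex.exp (l0 / 20) - Complex.exp (y / 20))‖ ≤ 4 * (ρ1 / ρ) := by
      intro y hy
      rw [norm_div]
      calc ‖e‖ / ‖Complex.exp (l0 / 20) - Complex.exp (y / 20)‖ ≤ (ρ1 / 10) / (ρ / 40) :=
            div_le_div₀ (by positivity) hen (by positivity) (hb y hy)
        _ = 4 * (ρ1 / ρ) := by
            field_simp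
            ring
    refine (Finset.sum_le_card_nsmul _ _ _ h4).trans (le_of_eq ?_)
    rw [nsmul_eq_mul]
    ring
  have h5 := Real.exp_le_exp.2 h3
  linarith

/-- `|e^{z/20}| ≤ e^{1/40}` for `Re z ≤ 1/2`. -/
theorem dp_up (S : Finset ℂ) (hS : ∀ y ∈ S, y.re ≤ 1 / 2) (z : ℂ) (hz : z.re ≤ 1 / 2) :
    ‖DP S z‖ ≤ 4 ^ S.card ∧ ‖DM S z‖ ≤ 4 ^ S.card := by
  have h1 := DPr_exp' z hz
  constructor
  · unfold DP
    rw [norm_prod, ← Finset.prod_const]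
    refine Finset.prod_le_prod (fun _ _ => norm_nonneg _) fun y hy => ?_
    have h2 := DPr_exp' y (hS y hy)
    refine (norm_sub_le _ _).trans ?_
    linarith
  · unfold DM
    rw [norm_prod, ← Finset.prod_const]
    refine Finset.prod_le_prod (fun _ _ => norm_nonneg _) fun y hy => ?_
    have h2 := DPr_exp' y (hS y hy)
    have h3 : ‖((Real.exp (y.re / 20) : ℝ) : ℂ)‖ = ‖Complex.exp (y / 20)‖ := by
      rw [Complex.norm_real, Real.norm_of_nonneg (Real.exp_pos _).le, Complex.norm_exp]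
      congr 1
      have : y / 20 = y / ((20 : ℝ) : ℂ) := by push_cast; rfl
      rw [this, Complex.div_ofReal_re]
    refine (norm_add_le _ _).trans ?_
    rw [h3]
    linarith

end W3283p
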