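import Pool.Agent.W_3283e1_sh.KerP

set_option autoImplicit false

namespace W3283p

open MeasureTheory W3283v

/-- `Ph w - 1 = ∫ q(v) (e^{wv} - 1) dv` for the kernel `q` of `ker0` (`∫ q = Ph 0 = 1`, `q ≥ 0`, support in
`[0, D]`, `D = n h + 2`), and `‖e^{z} - 1‖ ≤ 2 ‖z‖` for `‖z‖ ≤ 1`. -/
theorem Ph_near (n p : ℕ) (hp : 1 ≤ p) (h : ℝ) (hh : 0 < h) (w : ℂ)
    (hw : ‖w‖ * (n * h + 2) ≤ 1) : ‖Ph n p h w - 1‖ ≤ 2 * (‖w‖ * (n * h + 2)) := by
  obtain ⟨q, hq, hqw⟩ := ker0 n p hp h hh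
  obtain ⟨D, hD⟩ : ∃ D : ℝ, D = n * h + 2 := ⟨_, rfl⟩
  rw [← hD] at hq hw ⊢
  have hD0 : 0 ≤ D := by
    rw [hD]
    positivity
  obtain ⟨B, hB⟩ := hq.bd
  have hkb : KB (fun v => ((q v : ℝ) : ℂ)) D B := by
    refine ⟨Complex.measurable_ofReal.comp hq.meas, ?_, ?_, ?_⟩
    · intro v hv
      show ((q v : ℝ) : ℂ) = 0
      rw [hq.neg v hv, Complex.ofReal_zero]
    · intro v hv
      show ((q v : ℝ) : ℂ) = 0
      rw [hq.pos v hv, Complex.ofReal_zero]
    · intro v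
      rw [Complex.norm_real, Real.norm_eq_abs, abs_of_nonneg (hq.nonneg v)]
      exact hB v
  have h0 : hatr q 0 = 1 := by
    rw [hqw]
    unfold Ph ph
    simp
  have hi1 : Integrable (fun v : ℝ => ((q v : ℝ) : ℂ) * Complex.exp (w * v)) :=
    kb_int hkb _ (by fun_prop)
  have hi0 : Integrable (fun v : ℝ => ((q v : ℝ) : ℂ) * Complex.exp (0 * v)) :=
    kb_int hkb _ (by fun_prop)
  have hi2 : Integrable (fun v : ℝ => ((q v : ℝ) : ℂ)) := by
    have := kb_int hkb (fun _ => 1) continuous_const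
    simpa using this
  have hir : Integrable q := hi2.re
  have hqi : ∫ v, q v = 1 := by
    have h1 : hatr q 0 = ((∫ v, q v : ℝ) : ℂ) := by
      rw [← integral_complex_ofReal]
      unfold hatr hat
      simp
    rw [h0] at h1
    exact_mod_cast h1.symm
  have e1 : Ph n p h w - 1 = ∫ v : ℝ, (((q v : ℝ) : ℂ) * Complex.exp (w * v) -
      ((q v : ℝ) : ℂ) * Complex.exp (0 * v)) := by
    rw [integral_sub hi1 hi0]
    rw [← h0, ← hqw w]
    rfl
  rw [e1]
  have h2 := norm_integral_le_of_norm_le (μ := volume)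
    (f := fun v : ℝ => (((q v : ℝ) : ℂ) * Complex.exp (w * v) -
      ((q v : ℝ) : ℂ) * Complex.exp (0 * v)))
    (g := fun v : ℝ => q v * (2 * (‖w‖ * D))) (hir.mul_const _)
    (Filter.Eventually.of_forall fun v => by
      show ‖(((q v : ℝ) : ℂ) * Complex.exp (w * v) - ((q v : ℝ) : ℂ) * Complex.exp (0 * v))‖ ≤
        q v * (2 * (‖w‖ * D))
      rw [zero_mul, Complex.exp_zero, ← mul_sub, norm_mul, Complex.norm_real, Real.norm_eq_abs,
        abs_of_nonneg (hq.nonneg v)]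
      rcases lt_or_ge v 0 with h3 | h3
      · rw [hq.neg v h3, zero_mul, zero_mul]
      rcases lt_or_ge D v with h4 | h4
      · rw [hq.pos v h4, zero_mul, zero_mul]
      refine mul_le_mul_of_nonneg_left ?_ (hq.nonneg v)
      have h5 : ‖w * (v : ℂ)‖ ≤ ‖w‖ * D := by
        rw [norm_mul, Complex.norm_real, Real.norm_eq_abs, abs_of_nonneg h3]
        exact mul_le_mul_of_nonneg_left h4 (norm_nonneg _)
      have h6 := Complex.norm_exp_sub_one_le (h5.trans hw)
      linarith)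
  refine h2.trans (le_of_eq ?_)
  rw [integral_mul_const, hqi, one_mul]

end W3283p
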