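import Pool.Agent.W_3283e1_sh.PhB
import Pool.Agent.W_3283e1_sh.PhN

set_option autoImplicit false

namespace W3283p

theorem NrT_mul {x y : ℂ} {a b : ℝ} (hx : ‖x - 1‖ ≤ a) (hy : ‖y - 1‖ ≤ b) (ha : 0 ≤ a) :
    ‖x * y - 1‖ ≤ (1 + a) * (1 + b) - 1 := by
  have h1 : x * y - 1 = (x - 1) * (y - 1) + (x - 1) + (y - 1) := by ring
  rw [h1]
  have h2 := norm_add_le ((x - 1) * (y - 1) + (x - 1)) (y - 1)
  have h3 := norm_add_le ((x - 1) * (y - 1)) (x - 1)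
  rw [norm_mul] at h3
  have h4 : ‖x - 1‖ * ‖y - 1‖ ≤ a * b := mul_le_mul hx hy (norm_nonneg _) ha
  nlinarith

theorem NrT_ph (z : ℂ) : Complex.exp z - 1 = z * ph z := by
  by_cases hz : z = 0
  · subst hz
    rw [Complex.exp_zero, sub_self, zero_mul]
  · rw [PhB_ne hz, mul_div_cancel₀ _ hz]

/-- The terms of the zeros `l` very near to the leading one `l0` all agree with that of `l0` up to a factor
`1 + ε`, `|ε| ≤ 1/2`.  `e^{lr} - 1 = l r ph (l r)`, so the term is `m1 F0 a b² c d`,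
`a = e^{(l - l0)p}`, `b = ph (l r)`, `c = Ph (l - l0)`, `d = DP S l/DP S l0` (if `DP S l0 = 0` both
sides vanish), `|a - 1| ≤ 1/20` (`‖e^z - 1‖ ≤ 2‖z‖`), `|b - 1| ≤ 1/40` (`ph_one`), `|c - 1| ≤ 1/20`
(`Ph_near`), `|d - 1| ≤ 1/20`: `(21/20)³ (41/40)² - 1 ≤ 1/2`. -/
theorem near_term (n p : ℕ) (hp : 1 ≤ p) (h r : ℝ) (hh : 0 < h) (S : Finset ℂ)
    (l0 l : ℂ) (hl : l ≠ 0) (h1 : ‖l - l0‖ * p ≤ 1 / 40) (h2 : ‖l * (r : ℂ)‖ ≤ 1 / 40)
    (h3 : ‖l - l0‖ * (n * h + 2) ≤ 1 / 40) (h4 : ‖DP S l - DP S l0‖ ≤ 1 / 20 * ‖DP S l0‖)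
    (m1 : ℝ) (hm : 0 ≤ m1) :
    ‖(m1 : ℂ) / l ^ 2 * (Complex.exp (l * p) * ((Complex.exp (l * r) - 1) ^ 2 *
        (DP S l * Ph n p h (l - l0)))) -
      m1 * (Complex.exp (l0 * p) * ((r : ℂ) ^ 2 * DP S l0))‖ ≤
      m1 * ‖Complex.exp (l0 * p) * ((r : ℂ) ^ 2 * DP S l0)‖ / 2 := by
  have hz : ‖(l - l0) * (p : ℂ)‖ ≤ 1 / 40 := by
    rw [norm_mul, Complex.norm_natCast]
    exact h1
  have ha : ‖Complex.exp ((l - l0) * p) - 1‖ ≤ 1 / 20 := by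
    have := Complex.norm_exp_sub_one_le (x := (l - l0) * (p : ℂ)) (by linarith)
    linarith
  have hb : ‖ph (l * r) - 1‖ ≤ 1 / 40 := (ph_one _ (by linarith)).trans h2
  have hc : ‖Ph n p h (l - l0) - 1‖ ≤ 1 / 20 := by
    have := Ph_near n p hp h hh (l - l0) (by linarith)
    linarith
  have hab := NrT_mul ha hb (by norm_num)
  have habb := NrT_mul hab hb (by norm_num)
  have habc := NrT_mul habb hc (by norm_num)
  obtain ⟨x, hx⟩ : ∃ x : ℂ, x = Complex.exp ((l - l0) * p) * ph (l * r) * ph (l * r) *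
    Ph n p h (l - l0) := ⟨_, rfl⟩
  rw [← hx] at habc
  have hd : ‖DP S l‖ ≤ 21 / 20 * ‖DP S l0‖ := by
    have h5 : DP S l = DP S l0 + (DP S l - DP S l0) := by ring
    have h6 := norm_add_le (DP S l0) (DP S l - DP S l0)
    rw [← h5] at h6
    linarith
  have hxP : ‖x * DP S l - DP S l0‖ ≤ 1 / 2 * ‖DP S l0‖ := by
    have h5 : x * DP S l - DP S l0 = (x - 1) * DP S l + (DP S l - DP S l0) := by ring
    rw [h5]
    have h6 := norm_add_le ((x - 1) * DP S l) (DP S l - DP S l0)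
    rw [norm_mul] at h6
    have h7 : ‖x - 1‖ * ‖DP S l‖ ≤ 1 / 5 * (21 / 20 * ‖DP S l0‖) := by
      refine mul_le_mul (habc.trans (by norm_num)) hd (norm_nonneg _) (by norm_num)
    have h8 := norm_nonneg (DP S l0)
    linarith
  have he : Complex.exp (l * p) = Complex.exp (l0 * p) * Complex.exp ((l - l0) * p) := by
    rw [← Complex.exp_add]
    congr 1
    ring
  have hterm : (m1 : ℂ) / l ^ 2 * (Complex.exp (l * p) * ((Complex.exp (l * r) - 1) ^ 2 *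
        (DP S l * Ph n p h (l - l0)))) -
      m1 * (Complex.exp (l0 * p) * ((r : ℂ) ^ 2 * DP S l0)) =
      (m1 : ℂ) * (Complex.exp (l0 * p) * ((r : ℂ) ^ 2 * (x * DP S l - DP S l0))) := by
    rw [NrT_ph (l * r), he, hx]
    field_simp
  have hm1 : ‖(m1 : ℂ)‖ = m1 := by
    rw [Complex.norm_real, Real.norm_eq_abs, abs_of_nonneg hm]
  rw [hterm, norm_mul, norm_mul, norm_mul, norm_mul, norm_mul, hm1]
  have h9 : m1 * (‖Complex.exp (l0 * p)‖ * (‖(r : ℂ) ^ 2‖ * ‖x * DP S l - DP S l0‖)) ≤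
      m1 * (‖Complex.exp (l0 * p)‖ * (‖(r : ℂ) ^ 2‖ * (1 / 2 * ‖DP S l0‖))) := by gcongr
  refine h9.trans (le_of_eq ?_)
  ring

end W3283p
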