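import Pool.Agent.W_3283e1_sh.Ann
import Pool.Agent.W_3283e1_sh.DPr
import Pool.Agent.W_3283e1_sh.Bst
import Pool.Agent.W_3283e1_sh.NrT

set_option autoImplicit false

namespace W3283p

open MeasureTheory W3283v

variable {ι : Type} {lam : ι → ℂ} {m : ι → ℝ}

/-- The zeros near the leading one.  `F = {i : |Im λ_i - Im λ0| ≤ 1}` is finite (`W3283l.cnt_fin`) and
`card F ≤ Σ_F m ≤ C log(|Im λ0| + 2) ≤ C log(p² + 2) ≤ 3 C log p` (`hL`, `best_im`; `hZ.zd.one`), so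
`card F ≤ N := ⌊Cn log p⌋`, `Cn = 3 C + 1`.  `annul` with `M = (log p)²`, `ρ = 1/p²` gives `k ≤ card F ≤ N`;
`Nr` = the `i ∈ F` with `‖λ_i - λ0‖ ≤ ρ1 := ρ/M^(k+1)`, `S` = the `λ_i`, `i ∈ F`, with `‖λ_i - λ0‖ > ρ2 := ρ/M^k`.
`dp_low` with `ρ2 ≥ ρ/M^N` (and `ρ2/40 ≤ 1`, so the exponent `card S` may be replaced by `N`).
`near_term`: `‖λ_i - λ0‖ ≤ 1/p²`, `‖λ_i‖ ≤ p² + 2`, `r = 1/p³`, and `dp_near` with
`4 (ρ1/ρ2) card S ≤ 4 N/(log p)² ≤ 4 Cn/log p ≤ 1/25`, `e^{1/25} - 1 ≤ 1/20`. -/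
theorem cluster (hZ : ZC lam m) (hL : LCnt lam m) (i1 : ι) :
    ∃ (Cn : ℝ) (p0 : ℕ), 0 < Cn ∧ 100 ≤ p0 ∧ ∀ p : ℕ, p0 ≤ p → ∀ i0 : ι, Best lam p i0 →
      ∃ (S : Finset ℂ) (Nr : Finset ι), S.card ≤ ⌊Cn * Real.log p⌋₊ ∧ i0 ∈ Nr ∧
        (∀ i, i ∈ Nr ∨ lam i ∈ S ∨ 1 ≤ |(lam i).im - (lam i0).im|) ∧
        (∀ y ∈ S, y.re ≤ 1 / 2) ∧
        ((1 / (p : ℝ) ^ 2) / ((Real.log p) ^ 2) ^ ⌊Cn * Real.log p⌋₊ / 40) ^
          ⌊Cn * Real.log p⌋₊ ≤ ‖DP S (lam i0)‖ ∧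
        ∀ i ∈ Nr, ∀ (n : ℕ) (h : ℝ), 0 < h → n * h + 2 ≤ p →
          ‖(m i : ℂ) / (lam i) ^ 2 * (Complex.exp (lam i * p) *
              ((Complex.exp (lam i * ((1 / (p : ℝ) ^ 3 : ℝ) : ℂ)) - 1) ^ 2 *
                (DP S (lam i) * Ph n p h (lam i - lam i0)))) -
            m i * (Complex.exp (lam i0 * p) *
              ((((1 / (p : ℝ) ^ 3 : ℝ) : ℂ)) ^ 2 * DP S (lam i0)))‖ ≤
            m i * ‖Complex.exp (lam i0 * p) *
              ((((1 / (p : ℝ) ^ 3 : ℝ) : ℂ)) ^ 2 * DP S (lam i0))‖ / 2 := by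
  classical
  obtain ⟨C, hC, hcnt⟩ := hL
  -- the size of `p`
  have hlarge : ∀ᶠ p : ℕ in Filter.atTop, 100 * (3 * C + 1) ≤ Real.log p ∧
      6 * |(lam i1).im| ≤ (p : ℝ) := by
    refine Filter.Eventually.and ?_ ?_
    · exact (Real.tendsto_log_atTop.comp tendsto_natCast_atTop_atTop).eventually_ge_atTop _
    · exact tendsto_natCast_atTop_atTop.eventually_ge_atTop _
  obtain ⟨p1, hp1⟩ := Filter.eventually_atTop.1 hlarge
  refine ⟨3 * C + 1, max 100 p1, by linarith, le_max_left _ _, fun p hp i0 hB => ?_⟩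
  have hp100 : 100 ≤ p := (le_max_left _ _).trans hp
  have hpR : (100 : ℝ) ≤ (p : ℝ) := by exact_mod_cast hp100
  have hp0 : (0 : ℝ) < (p : ℝ) := by linarith
  have hp1' : 1 ≤ p := by omega
  obtain ⟨hlog, him1⟩ := hp1 p ((le_max_right _ _).trans hp)
  obtain ⟨Lp, hLp⟩ : ∃ Lp : ℝ, Lp = Real.log p := ⟨_, rfl⟩
  obtain ⟨N, hN⟩ : ∃ N : ℕ, N = ⌊(3 * C + 1) * Real.log p⌋₊ := ⟨_, rfl⟩
  rw [← hN]
  have hLp100 : 100 * (3 * C + 1) ≤ Lp := by rw [hLp]; exact hlog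
  have hLp0 : 100 ≤ Lp := by linarith
  have him0 : |(lam i0).im| ≤ (p : ℝ) ^ 2 := by
    refine best_im hZ hp1' hB i1 ?_
    nlinarith [abs_nonneg (lam i1).im]
  have hnorm : ∀ i, ‖lam i‖ ≤ (lam i).re + |(lam i).im| := fun i => by
    have h1 := Complex.norm_le_abs_re_add_abs_im (lam i)
    rwa [abs_of_nonneg (hZ.re0 i)] at h1
  -- the zeros near the leading one
  have hfin : {i | |(lam i).im - (lam i0).im| ≤ 1}.Finite := by
    refine (W3283l.cnt_fin hZ.zd (1 / 2 + (|(lam i0).im| + 1))).subset fun i hi => ?_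
    have h1 : |(lam i).im| ≤ |(lam i0).im| + 1 := by
      have h2 : |(lam i).im - (lam i0).im| ≤ 1 := hi
      have h3 := abs_sub_abs_le_abs_sub (lam i).im (lam i0).im
      linarith
    show ‖lam i‖ ≤ _
    have h4 := hnorm i
    have h5 := hZ.re1 i
    linarith
  obtain ⟨Ff, hFf⟩ : ∃ Ff : Finset ι, Ff = hfin.toFinset := ⟨_, rfl⟩
  have hmem : ∀ i, i ∈ Ff ↔ |(lam i).im - (lam i0).im| ≤ 1 := fun i => by
    rw [hFf, Set.Finite.mem_toFinset]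
    exact Iff.rfl
  have hcard : (Ff.card : ℝ) ≤ (3 * C + 1) * Lp := by
    have h1 := hcnt (lam i0).im Ff fun i hi => (hmem i).1 hi
    have h2 : (Ff.card : ℝ) ≤ ∑ i ∈ Ff, m i := by
      have h3 := Finset.card_nsmul_le_sum Ff m 1 fun i _ => hZ.zd.one i
      simpa using h3
    have h4 : Real.log (|(lam i0).im| + 2) ≤ 3 * Lp := by
      have h5 : |(lam i0).im| + 2 ≤ (p : ℝ) ^ 3 := by nlinarith [sq_nonneg ((p : ℝ))]
      have h6 := Real.log_le_log (by positivity) h5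
      rw [Real.log_pow] at h6
      rw [hLp]
      exact_mod_cast h6
    have h7 : C * Real.log (|(lam i0).im| + 2) ≤ C * (3 * Lp) :=
      mul_le_mul_of_nonneg_left h4 hC
    nlinarith
  have hFN : Ff.card ≤ N := by
    rw [hN]
    refine Nat.le_floor ?_
    rw [← hLp]
    exact hcard
  have hNle : (N : ℝ) ≤ (3 * C + 1) * Lp := by
    rw [hN, hLp]
    exact Nat.floor_le (by rw [← hLp]; nlinarith)
  obtain ⟨M, hM⟩ : ∃ M : ℝ, M = (Real.log p) ^ 2 := ⟨_, rfl⟩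
  obtain ⟨ρ, hρ⟩ : ∃ ρ : ℝ, ρ = 1 / (p : ℝ) ^ 2 := ⟨_, rfl⟩
  rw [← hM, ← hρ]
  have hM1 : 1 < M := by
    rw [hM, ← hLp]
    nlinarith
  have hM0 : 0 < M := by linarith
  have hρ0 : 0 < ρ := by
    rw [hρ]
    positivity
  have hρp : ρ * (p : ℝ) ^ 2 = 1 := by
    rw [hρ]
    field_simp
  have hρ1 : ρ * p ≤ 1 / 100 := by
    have h1 : ρ * p * p = 1 := by rw [← hρp]; ring
    have h2 : 0 < ρ * p := mul_pos hρ0 hp0
    nlinarith
  obtain ⟨k, hk, hann⟩ := annul Ff lam (lam i0) M ρ hM1 hρ0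
  obtain ⟨ρ1, hρ1d⟩ : ∃ ρ1 : ℝ, ρ1 = ρ / M ^ (k + 1) := ⟨_, rfl⟩
  obtain ⟨ρ2, hρ2d⟩ : ∃ ρ2 : ℝ, ρ2 = ρ / M ^ k := ⟨_, rfl⟩
  rw [← hρ1d, ← hρ2d] at hann
  have hMk : 1 ≤ M ^ k := one_le_pow₀ hM1.le
  have hMk1 : 1 ≤ M ^ (k + 1) := one_le_pow₀ hM1.le
  have hρ10 : 0 < ρ1 := by
    rw [hρ1d]
    positivity
  have hρ20 : 0 < ρ2 := by
    rw [hρ2d]
    positivity
  have hρ1le : ρ1 ≤ ρ := by
    rw [hρ1d]
    exact div_le_self hρ0.le hMk1
  have hρ2le : ρ2 ≤ ρ := by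
    rw [hρ2d]
    exact div_le_self hρ0.le hMk
  have hρle : ρ ≤ 1 / 100 := by nlinarith
  have hratio : ρ1 / ρ2 = 1 / M := by
    rw [hρ1d, hρ2d, pow_succ]
    field_simp
  obtain ⟨Nr, hNr⟩ : ∃ Nr : Finset ι, Nr = Ff.filter fun i => ‖lam i - lam i0‖ ≤ ρ1 := ⟨_, rfl⟩
  obtain ⟨S, hS⟩ : ∃ S : Finset ℂ, S = (Ff.filter fun i => ρ2 < ‖lam i - lam i0‖).image lam :=
    ⟨_, rfl⟩
  have hSmem : ∀ y ∈ S, ∃ i, lam i = y ∧ |(lam i).im - (lam i0).im| ≤ 1 ∧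
      ρ2 < ‖lam i - lam i0‖ := by
    intro y hy
    rw [hS, Finset.mem_image] at hy
    obtain ⟨i, hi, rfl⟩ := hy
    rw [Finset.mem_filter] at hi
    exact ⟨i, rfl, (hmem i).1 hi.1, hi.2⟩
  have hScard : S.card ≤ N := by
    rw [hS]
    exact (Finset.card_image_le.trans (Finset.card_filter_le _ _)).trans hFN
  have hSprop : ∀ y ∈ S, 0 ≤ y.re ∧ y.re ≤ 1 / 2 ∧ |y.im - (lam i0).im| ≤ 1 ∧
      ρ2 ≤ ‖y - lam i0‖ := by
    intro y hy
    obtain ⟨i, rfl, h1, h2⟩ := hSmem y hy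
    exact ⟨hZ.re0 i, hZ.re1 i, h1, h2.le⟩
  refine ⟨S, Nr, hScard, ?_, ?_, ?_, ?_, ?_⟩
  · rw [hNr, Finset.mem_filter]
    refine ⟨(hmem i0).2 (by simp), ?_⟩
    rw [sub_self, norm_zero]
    exact hρ10.le
  · intro i
    by_cases h1 : |(lam i).im - (lam i0).im| ≤ 1
    · rcases hann i ((hmem i).2 h1) with h2 | h2
      · exact Or.inl (by rw [hNr, Finset.mem_filter]; exact ⟨(hmem i).2 h1, h2⟩)
      · refine Or.inr (Or.inl ?_)
        rw [hS]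
        exact Finset.mem_image_of_mem _ (Finset.mem_filter.2 ⟨(hmem i).2 h1, h2⟩)
    · exact Or.inr (Or.inr (le_of_lt (not_le.1 h1)))
  · intro y hy
    exact (hSprop y hy).2.1
  · refine le_trans ?_ (dp_low S (lam i0) ρ2 (hZ.re0 i0) (hZ.re1 i0) hρ20.le hSprop)
    have h1 : ρ / M ^ N / 40 ≤ ρ2 / 40 := by
      refine div_le_div_of_nonneg_right ?_ (by norm_num)
      rw [hρ2d]
      exact div_le_div_of_nonneg_left hρ0.le (by positivity)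
        (pow_le_pow_right₀ hM1.le (hk.trans hFN))
    have h2 : (ρ / M ^ N / 40) ^ N ≤ (ρ2 / 40) ^ N :=
      pow_le_pow_left₀ (by positivity) h1 N
    refine h2.trans (pow_le_pow_of_le_one (by positivity) ?_ hScard)
    linarith
  · intro i hi n h hh hnh
    rw [hNr, Finset.mem_filter] at hi
    obtain ⟨hiF, hid⟩ := hi
    have hdi : ‖lam i - lam i0‖ ≤ ρ := hid.trans hρ1le
    refine near_term n p hp1' h (1 / (p : ℝ) ^ 3) hh S (lam i0) (lam i) (hZ.ne i) ?_ ?_ ?_ ?_ (m i)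
      (zero_le_one.trans (hZ.zd.one i))
    · calc ‖lam i - lam i0‖ * p ≤ ρ * p := mul_le_mul_of_nonneg_right hdi hp0.le
        _ ≤ 1 / 40 := by linarith
    · rw [norm_mul, Complex.norm_real, Real.norm_of_nonneg (by positivity)]
      have h1 : ‖lam i‖ ≤ (p : ℝ) ^ 2 + 2 := by
        have h2 := hnorm i
        have h3 := hZ.re1 i
        have h4 := abs_sub_abs_le_abs_sub (lam i).im (lam i0).im
        have h5 := (hmem i).1 hiF
        linarith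
      rw [mul_one_div, div_le_iff₀ (by positivity)]
      nlinarith [sq_nonneg ((p : ℝ))]
    · calc ‖lam i - lam i0‖ * (n * h + 2) ≤ ρ * p :=
          mul_le_mul hdi hnh (by positivity) hρ0.le
        _ ≤ 1 / 40 := by linarith
    · refine (dp_near S (lam i0) (lam i) ρ1 ρ2 (hZ.re0 i0) (hZ.re1 i0) hρ20 hSprop hid
        (by linarith)).trans ?_
      refine mul_le_mul_of_nonneg_right ?_ (norm_nonneg _)
      rw [hratio]
      have h1 : 4 * (1 / M) * (S.card : ℝ) ≤ 1 / 25 := by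
        have h2 : (S.card : ℝ) ≤ (3 * C + 1) * Lp := by
          have : (S.card : ℝ) ≤ (N : ℝ) := by exact_mod_cast hScard
          linarith
        have h3 : 100 * (S.card : ℝ) ≤ M := by
          rw [hM, ← hLp]
          nlinarith
        rw [mul_one_div, div_mul_eq_mul_div, div_le_iff₀ hM0]
        linarith
      have h2 : Real.exp (4 * (1 / M) * (S.card : ℝ)) ≤ Real.exp (1 / 25) :=
        Real.exp_le_exp.2 h1
      have h3 : Real.exp (1 / 25) ≤ 21 / 20 := by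
        have h4 := Real.one_sub_le_exp_neg (1 / 25 : ℝ)
        have h5 : Real.exp (1 / 25) * Real.exp (-(1 / 25)) = 1 := by
          rw [← Real.exp_add]
          simp
        have h6 := Real.exp_pos (1 / 25)
        nlinarith
      linarith

end W3283p
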