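import Pool.Agent.W_3283e1_sh.D2k

set_option autoImplicit false

namespace W3283p

open MeasureTheory W3283v

theorem Cmb_ii (A : ℝ → ℝ) (hA : ∀ T : ℝ, IntegrableOn A (Set.Ioc 0 T)) (a b : ℝ) (ha : 0 ≤ a)
    (hb : 0 ≤ b) : IntervalIntegrable A volume a b := by
  rw [intervalIntegrable_iff]
  refine (hA (max a b)).mono_set ?_
  intro t ht
  rw [Set.mem_uIoc] at ht
  rcases ht with ⟨h1, h2⟩ | ⟨h1, h2⟩
  · exact ⟨by linarith, h2.trans (le_max_right _ _)⟩
  · exact ⟨by linarith, h2.trans (le_max_left _ _)⟩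

theorem Cmb_I0 (A : ℝ → ℝ) (a : ℝ) (ha : 0 ≤ a) : I0 A a = ∫ t in (0 : ℝ)..a, A t := by
  rw [I0, intervalIntegral.integral_of_le ha]

theorem Cmb_sub (A : ℝ → ℝ) (hA : ∀ T : ℝ, IntegrableOn A (Set.Ioc 0 T)) (a b : ℝ) (ha : 0 ≤ a)
    (hb : 0 ≤ b) : I0 A b - I0 A a = ∫ t in a..b, A t := by
  rw [Cmb_I0 A a ha, Cmb_I0 A b hb]
  exact intervalIntegral.integral_interval_sub_left (Cmb_ii A hA 0 b le_rfl hb)
    (Cmb_ii A hA 0 a le_rfl ha)

theorem Cmb_cont (A : ℝ → ℝ) (hA : ∀ T : ℝ, IntegrableOn A (Set.Ioc 0 T)) :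
    Continuous (I0 A) := by
  obtain ⟨A', hA'⟩ : ∃ A' : ℝ → ℝ, A' = (Set.Ioi (0 : ℝ)).indicator A := ⟨_, rfl⟩
  have h1 : ∀ a b : ℝ, IntervalIntegrable A' volume a b := by
    intro a b
    rw [intervalIntegrable_iff, hA', IntegrableOn, integrable_indicator_iff measurableSet_Ioi,
      IntegrableOn, Measure.restrict_restrict measurableSet_Ioi]
    refine (hA (max a b)).mono_set ?_
    rintro t ⟨h0, ht⟩
    rw [Set.mem_uIoc] at ht
    rcases ht with ⟨h1, h2⟩ | ⟨h1, h2⟩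
    · exact ⟨h0, h2.trans (le_max_right _ _)⟩
    · exact ⟨h0, h2.trans (le_max_left _ _)⟩
  have h2 : I0 A = fun u => ∫ t in (0 : ℝ)..u, A' t := by
    funext u
    rcases le_total 0 u with hu | hu
    · rw [Cmb_I0 A u hu, intervalIntegral.integral_of_le hu, intervalIntegral.integral_of_le hu]
      refine setIntegral_congr_fun measurableSet_Ioc fun t ht => ?_
      rw [hA']
      exact (Set.indicator_of_mem ht.1 A).symm
    · rw [intervalIntegral.integral_of_ge hu, I0, Set.Ioc_eq_empty (not_lt.2 hu),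
        setIntegral_empty]
      rw [setIntegral_eq_zero_of_forall_eq_zero, neg_zero]
      intro t ht
      rw [hA']
      exact Set.indicator_of_notMem (fun h => absurd ht.2 (not_le.2 h)) A
  rw [h2]
  exact intervalIntegral.continuous_primitive h1 0

theorem Cmb_pr (A e : ℝ → ℝ) (hA : ∀ T : ℝ, IntegrableOn A (Set.Ioc 0 T))
    (he : ∀ T : ℝ, IntegrableOn e (Set.Ioc 0 T)) (C0 : ℝ)
    (hid : ∀ u : ℝ, 0 < u → |u * e u - (∫ t in Set.Ioc 0 u, e t) - A u| ≤ C0) (a b c : ℝ)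
    (ha : 0 < a) (hac : a ≤ c) (hcb : c ≤ b) :
    |(∫ t in a..b, A t) + (b - a) * I0 e c| ≤
      (b + (b - a)) * (∫ t in a..b, |e t|) + C0 * (b - a) := by
  have hab := hac.trans hcb
  have iA := Cmb_ii A hA a b ha.le (ha.le.trans hab)
  have ie := Cmb_ii e he a b ha.le (ha.le.trans hab)
  have iea := ie.abs
  obtain ⟨E, hE⟩ : ∃ E, E = ∫ t in a..b, |e t| := ⟨_, rfl⟩
  have hE' : E = ∫ t in Set.Ioc a b, |e t| := by rw [hE, intervalIntegral.integral_of_le hab]
  have h1 : (∫ t in a..b, A t) + (b - a) * I0 e c = ∫ t in a..b, (A t + I0 e c) := by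
    rw [intervalIntegral.integral_add iA intervalIntegrable_const, intervalIntegral.integral_const,
      smul_eq_mul]
  have h2 : ∀ t ∈ Set.Icc a b, |A t + I0 e c| ≤ b * |e t| + (E + C0) := by
    intro t ht
    have ht0 : 0 < t := ha.trans_le ht.1
    have h3 := hid t ht0
    have h4 : |I0 e c - I0 e t| ≤ E := by
      rw [Cmb_sub e he t c ht0.le (ha.le.trans hac), hE']
      have h5 := intervalIntegral.norm_integral_le_integral_norm_uIoc (f := e) (μ := volume)
        (a := t) (b := c)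
      rw [Real.norm_eq_abs] at h5
      refine h5.trans ?_
      refine setIntegral_mono_set ?_ ?_ ?_
      · exact (intervalIntegrable_iff_integrableOn_Ioc_of_le hab).1 iea
      · exact Filter.Eventually.of_forall fun x => abs_nonneg _
      · refine Filter.Eventually.of_forall fun x hx => ?_
        have hx' : x ∈ Set.uIoc t c := hx
        rw [Set.mem_uIoc] at hx'
        rcases hx' with ⟨h6, h7⟩ | ⟨h6, h7⟩
        · exact ⟨by linarith [ht.1], by linarith⟩
        · exact ⟨by linarith, by linarith [ht.2]⟩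
    have h5 : A t + I0 e c = -(t * e t - (∫ s in Set.Ioc 0 t, e s) - A t) + t * e t +
        (I0 e c - I0 e t) := by
      have h6 : I0 e t = ∫ s in Set.Ioc 0 t, e s := rfl
      rw [h6]
      ring
    rw [h5]
    refine (abs_add_three _ _ _).trans ?_
    rw [abs_neg, abs_mul, abs_of_pos ht0]
    have h6 : t * |e t| ≤ b * |e t| := mul_le_mul_of_nonneg_right ht.2 (abs_nonneg _)
    linarith
  rw [h1]
  calc |∫ t in a..b, (A t + I0 e c)| ≤ ∫ t in a..b, |A t + I0 e c| :=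
        intervalIntegral.abs_integral_le_integral_abs hab
    _ ≤ ∫ t in a..b, (b * |e t| + (E + C0)) :=
        intervalIntegral.integral_mono_on hab (iA.add intervalIntegrable_const).abs
          ((iea.const_mul b).add intervalIntegrable_const) h2
    _ = _ := by
        rw [intervalIntegral.integral_add (iea.const_mul b) intervalIntegrable_const,
          intervalIntegral.integral_const_mul, intervalIntegral.integral_const, smul_eq_mul, ← hE]
        ring

/-- The second difference of `B = I0 A`: `B(y+2r) - 2B(y+r) + B(y) = ∫_y^{y+r} (A(t+r) - A(t)) dt`,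
`A = t e - I0 e - ρ`, `|ρ| ≤ C0`, `I0 e (t+r) - I0 e t = ∫_t^{t+r} e`; so it is at most
`∫_y^{y+2r} t |e(t)| dt + r ∫_y^{y+2r} |e| + 2 C0 r`. -/
theorem dd_bd (A e : ℝ → ℝ) (hA : ∀ T : ℝ, IntegrableOn A (Set.Ioc 0 T))
    (he : ∀ T : ℝ, IntegrableOn e (Set.Ioc 0 T)) (C0 : ℝ)
    (hid : ∀ u : ℝ, 0 < u → |u * e u - (∫ t in Set.Ioc 0 u, e t) - A u| ≤ C0) (y r : ℝ)
    (hy : 1 ≤ y) (hr : 0 < r) :
    |I0 A (y + 2 * r) - 2 * I0 A (y + r) + I0 A y| ≤
      (y + 3 * r) * (∫ t in Set.Ioc y (y + 2 * r), |e t|) + 2 * C0 * r := by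
  have hy0 : 0 < y := by linarith
  have h1 := Cmb_pr A e hA he C0 hid y (y + r) (y + r) hy0 (by linarith) le_rfl
  have h2 := Cmb_pr A e hA he C0 hid (y + r) (y + 2 * r) (y + r) (by linarith) le_rfl (by linarith)
  have ie1 := (Cmb_ii e he y (y + r) hy0.le (by linarith)).abs
  have ie2 := (Cmb_ii e he (y + r) (y + 2 * r) (by linarith) (by linarith)).abs
  have h3 : I0 A (y + 2 * r) - 2 * I0 A (y + r) + I0 A y =
      ((∫ t in (y + r)..(y + 2 * r), A t) + (y + 2 * r - (y + r)) * I0 e (y + r)) -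
      ((∫ t in y..(y + r), A t) + (y + r - y) * I0 e (y + r)) := by
    rw [← Cmb_sub A hA y (y + r) hy0.le (by linarith),
      ← Cmb_sub A hA (y + r) (y + 2 * r) (by linarith) (by linarith)]
    ring
  have h4 : ∫ t in Set.Ioc y (y + 2 * r), |e t| =
      (∫ t in y..(y + r), |e t|) + ∫ t in (y + r)..(y + 2 * r), |e t| := by
    rw [intervalIntegral.integral_add_adjacent_intervals ie1 ie2,
      intervalIntegral.integral_of_le (by linarith)]
  have n1 : 0 ≤ ∫ t in y..(y + r), |e t| :=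
    intervalIntegral.integral_nonneg (by linarith) fun t _ => abs_nonneg _
  have n2 : 0 ≤ ∫ t in (y + r)..(y + 2 * r), |e t| :=
    intervalIntegral.integral_nonneg (by linarith) fun t _ => abs_nonneg _
  rw [h3, h4]
  refine (abs_sub _ _).trans ?_
  have h5 : (y + r + (y + r - y)) * (∫ t in y..(y + r), |e t|) ≤
      (y + 3 * r) * (∫ t in y..(y + r), |e t|) :=
    mul_le_mul_of_nonneg_right (by linarith) n1
  have h6 : (y + 2 * r + (y + 2 * r - (y + r))) * (∫ t in (y + r)..(y + 2 * r), |e t|) =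
      (y + 3 * r) * (∫ t in (y + r)..(y + 2 * r), |e t|) := by ring
  have h7 : C0 * (y + r - y) = C0 * r := by ring
  have h8 : C0 * (y + 2 * r - (y + r)) = C0 * r := by ring
  rw [h7] at h1
  rw [h6, h8] at h2
  have h9 : (y + 3 * r) * ((∫ t in y..(y + r), |e t|) + ∫ t in (y + r)..(y + 2 * r), |e t|) =
      (y + 3 * r) * (∫ t in y..(y + r), |e t|) +
      (y + 3 * r) * ∫ t in (y + r)..(y + 2 * r), |e t| := by ring
  rw [h9]
  linarith

/-- `|e| ≤ σ e + 2τ` where `σ e ≥ -τ`. -/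
theorem abs_bd (e : ℝ → ℝ) (he : ∀ T : ℝ, IntegrableOn e (Set.Ioc 0 T)) (σ τ : ℝ)
    (hσ : σ = 1 ∨ σ = -1) (hτ : 0 ≤ τ) (y s : ℝ) (hy : 1 ≤ y) (hs : 0 ≤ s)
    (hpos : ∀ v : ℝ, y ≤ v → v ≤ y + s → -τ ≤ σ * e v) :
    ∫ t in Set.Ioc y (y + s), |e t| ≤ σ * (I0 e (y + s) - I0 e y) + 2 * s * τ := by
  have hy0 : 0 ≤ y := by linarith
  have hys : y ≤ y + s := by linarith
  have ie := Cmb_ii e he y (y + s) hy0 (by linarith)
  rw [← intervalIntegral.integral_of_le hys, Cmb_sub e he y (y + s) hy0 (by linarith)]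
  calc ∫ t in y..(y + s), |e t| ≤ ∫ t in y..(y + s), (σ * e t + 2 * τ) := by
        refine intervalIntegral.integral_mono_on hys ie.abs
          ((ie.const_mul σ).add intervalIntegrable_const) fun t ht => ?_
        have h1 := hpos t ht.1 ht.2
        have h2 : |e t| = |σ * e t| := by
          rcases hσ with h | h
          · rw [h, one_mul]
          · rw [h, neg_one_mul, abs_neg]
        rw [h2]
        rcases abs_cases (σ * e t) with ⟨h3, _⟩ | ⟨h3, _⟩
        · rw [h3]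
          linarith
        · rw [h3]
          linarith
    _ = _ := by
        rw [intervalIntegral.integral_add (ie.const_mul σ) intervalIntegrable_const,
          intervalIntegral.integral_const_mul, intervalIntegral.integral_const, smul_eq_mul]
        ring

theorem Cmb_nk (w : ℝ → ℝ) (D : ℝ) (hw : NK w D) (f : ℝ → ℝ) (hf : Continuous f) :
    IntegrableOn (fun v => w v * f v) (Set.Ioc 0 D) := by
  obtain ⟨B, hB⟩ := hw.bd
  have h1 : IntegrableOn f (Set.Ioc 0 D) :=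
    hf.continuousOn.integrableOn_Icc.mono_set Set.Ioc_subset_Icc_self
  refine Integrable.bdd_mul h1 hw.meas.aestronglyMeasurable (c := B)
    (Filter.Eventually.of_forall fun v => ?_)
  rw [Real.norm_of_nonneg (hw.nonneg v)]
  exact hB v

theorem Cmb_shift (K : ℝ → ℂ) (D B : ℝ) (hK : KB K D B) (hD : 0 ≤ D) (r : ℝ) (hr : 0 ≤ r)
    (f : ℝ → ℂ) (hf : Continuous f) :
    ∫ v in Set.Ioc 0 (D + 2 * r), f v * D2 r K v =
      ∫ v in Set.Ioc 0 D, K v * (f (v + 2 * r) - 2 * f (v + r) + f v) := by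
  have h1 := Ev_supp (d2_kb K D B hK hD r hr).1 f
  have h2 := Ev_supp hK (fun v => f (v + 2 * r) - 2 * f (v + r) + f v)
  rw [← h2]
  have h3 : ∫ v in Set.Ioc 0 (D + 2 * r), f v * D2 r K v =
      ∫ v in Set.Ioc 0 (D + 2 * r), D2 r K v * f v := by
    congr 1
    funext v
    ring
  rw [h3, ← h1]
  have i0 := kb_int hK f hf
  have i1 := Ker_shift_int hK f hf r
  have i2 := Ker_shift_int hK f hf (2 * r)
  have j1 := kb_int hK (fun v => f (v + r)) (by fun_prop)
  have j2 := kb_int hK (fun v => f (v + 2 * r)) (by fun_prop)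
  have h4 : ∀ v : ℝ, D2 r K v * f v =
      K (v - 2 * r) * f v - 2 * (K (v - r) * f v) + K v * f v := by
    intro v
    unfold D2
    ring
  have h5 : ∀ v : ℝ, K v * (f (v + 2 * r) - 2 * f (v + r) + f v) =
      K v * f (v + 2 * r) - 2 * (K v * f (v + r)) + K v * f v := by
    intro v
    ring
  simp only [h4, h5]
  have k1 : Integrable (fun v : ℝ => K (v - 2 * r) * f v - 2 * (K (v - r) * f v)) :=
    i2.sub (i1.const_mul 2)
  have k2 : Integrable (fun v : ℝ => K v * f (v + 2 * r) - 2 * (K v * f (v + r))) :=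
    j2.sub (j1.const_mul 2)
  rw [integral_add k1 i0, integral_sub i2 (i1.const_mul 2),
    integral_const_mul, integral_add k2 i0,
    integral_sub j2 (j1.const_mul 2), integral_const_mul, Ker_shift f r, Ker_shift f (2 * r)]

/-- `∫ B(U+v) D2 r K v dv = ∫ K(v) (B(U+v+2r) - 2B(U+v+r) + B(U+v)) dv` (translations; everything lives
on bounded intervals), `‖K‖ ≤ w`, then `dd_bd`, `abs_bd` with `y = U + v`, `y + 3r ≤ 2U`. -/
theorem cmb (A e : ℝ → ℝ) (hA : ∀ T : ℝ, IntegrableOn A (Set.Ioc 0 T))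
    (he : ∀ T : ℝ, IntegrableOn e (Set.Ioc 0 T)) (C0 : ℝ) (hC0 : 0 ≤ C0)
    (hid : ∀ u : ℝ, 0 < u → |u * e u - (∫ t in Set.Ioc 0 u, e t) - A u| ≤ C0)
    (K : ℝ → ℂ) (w : ℝ → ℝ) (D B : ℝ) (hK : KB K D B) (hw : NK w D) (hD : 0 ≤ D)
    (hKw : ∀ v : ℝ, ‖K v‖ ≤ w v) (r : ℝ) (hr : 0 < r) (hr1 : r ≤ 1) (U : ℝ) (hU : 1 ≤ U)
    (hDU : D + 3 ≤ U) (σ τ : ℝ) (hσ : σ = 1 ∨ σ = -1) (hτ : 0 ≤ τ)
    (hpos : ∀ v : ℝ, U ≤ v → v ≤ U + D + 2 * r → -τ ≤ σ * e v) :
    ‖∫ v in Set.Ioc 0 (D + 2 * r), ((I0 A (U + v) : ℝ) : ℂ) * D2 r K v‖ ≤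
      2 * U * (σ * ∫ v in Set.Ioc 0 D, w v * (I0 e (U + v + 2 * r) - I0 e (U + v))) +
        (8 * U * r * τ + 2 * C0 * r) * ∫ v in Set.Ioc 0 D, w v := by
  have cA := Cmb_cont A hA
  have ce := Cmb_cont e he
  have cf : Continuous (fun v : ℝ => ((I0 A (U + v) : ℝ) : ℂ)) := by fun_prop
  have h1 := Cmb_shift K D B hK hD r hr.le (fun v : ℝ => ((I0 A (U + v) : ℝ) : ℂ)) cf
  rw [h1]
  obtain ⟨G, hG⟩ : ∃ G : ℝ → ℝ,
      G = fun v => I0 A (U + v + 2 * r) - 2 * I0 A (U + v + r) + I0 A (U + v) := ⟨_, rfl⟩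
  have cG : Continuous G := by rw [hG]; fun_prop
  have h2 : ∀ v : ℝ, K v * (((I0 A (U + (v + 2 * r)) : ℝ) : ℂ) -
      2 * ((I0 A (U + (v + r)) : ℝ) : ℂ) + ((I0 A (U + v) : ℝ) : ℂ)) = K v * ((G v : ℝ) : ℂ) := by
    intro v
    rw [hG]
    simp only
    rw [← add_assoc, ← add_assoc]
    push_cast
    rfl
  simp only [h2]
  have iw := Cmb_nk w D hw (fun _ => 1) continuous_const
  simp only [mul_one] at iw
  have id := Cmb_nk w D hw (fun v => I0 e (U + v + 2 * r) - I0 e (U + v)) (by fun_prop)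
  have iK := Ev_int hK (fun v => ((G v : ℝ) : ℂ)) (by fun_prop)
  refine (norm_integral_le_integral_norm _).trans ?_
  have h3 : ∫ v in Set.Ioc 0 D, ‖K v * ((G v : ℝ) : ℂ)‖ ≤
      ∫ v in Set.Ioc 0 D, (2 * U * σ * (w v * (I0 e (U + v + 2 * r) - I0 e (U + v))) +
        (8 * U * r * τ + 2 * C0 * r) * w v) := by
    refine setIntegral_mono_on iK.norm ((id.const_mul _).add (iw.const_mul _))
      measurableSet_Ioc fun v hv => ?_
    have hv0 : 0 < v := hv.1
    have hv1 : v ≤ D := hv.2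
    have h4 := dd_bd A e hA he C0 hid (U + v) r (by linarith) hr
    have h5 := abs_bd e he σ τ hσ hτ (U + v) (2 * r) (by linarith) (by linarith)
      (fun x hx hx' => hpos x (by linarith) (by linarith))
    have h6 : 0 ≤ ∫ t in Set.Ioc (U + v) (U + v + 2 * r), |e t| :=
      setIntegral_nonneg measurableSet_Ioc fun t _ => abs_nonneg _
    have h7 : |G v| ≤ 2 * U * (σ * (I0 e (U + v + 2 * r) - I0 e (U + v)) + 2 * (2 * r) * τ) +
        2 * C0 * r := by
      rw [hG]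
      refine h4.trans ?_
      have h8 : (U + v + 3 * r) * (∫ t in Set.Ioc (U + v) (U + v + 2 * r), |e t|) ≤
          2 * U * (∫ t in Set.Ioc (U + v) (U + v + 2 * r), |e t|) :=
        mul_le_mul_of_nonneg_right (by linarith) h6
      have h9 := mul_le_mul_of_nonneg_left h5 (show (0 : ℝ) ≤ 2 * U by linarith)
      linarith
    rw [norm_mul, Complex.norm_real, Real.norm_eq_abs]
    calc ‖K v‖ * |G v| ≤ w v * |G v| := mul_le_mul_of_nonneg_right (hKw v) (abs_nonneg _)
      _ ≤ w v * (2 * U * (σ * (I0 e (U + v + 2 * r) - I0 e (U + v)) + 2 * (2 * r) * τ) +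
          2 * C0 * r) := mul_le_mul_of_nonneg_left h7 (hw.nonneg v)
      _ = _ := by ring
  refine h3.trans (le_of_eq ?_)
  rw [integral_add (id.const_mul _) (iw.const_mul _), integral_const_mul, integral_const_mul]
  ring

end W3283p
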