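import Pool.Agent.W_3283e1_sh.KerP

set_option autoImplicit false

namespace W3283p

open MeasureTheory W3283v

/-- The modulated kernel with the differences, and its majorant.  Induction on `S`.  `S = ∅`: `q` of `ker0`,
`K v = e^{-λ0 v} q v`, `w v = e^{-Re λ0 v} q v` (at most `q v`, since `Re λ0 ≥ 0` and `q` lives on
`[0, n h + 2]`); the transforms are shifted by `λ0`, `Re λ0`.  Insertion of `y`:
`K' v = K (v - 1/20) - e^{y/20} K v`, `w' v = w (v - 1/20) + e^{Re y/20} w v`; see `ker_dif`, `Ker_dif_hat`,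
`Ker_hat_shift` in `W_3283e1_v3.Ker`. -/
theorem kdif (n p : ℕ) (hp : 1 ≤ p) (h : ℝ) (hh : 0 < h) (l0 : ℂ) (hl0 : 0 ≤ l0.re)
    (S : Finset ℂ) :
    ∃ (K : ℝ → ℂ) (w : ℝ → ℝ) (B : ℝ), 0 ≤ B ∧ KB K (n * h + 2 + (S.card : ℝ) / 20) B ∧
      NK w (n * h + 2 + (S.card : ℝ) / 20) ∧ (∀ v : ℝ, ‖K v‖ ≤ w v) ∧
      (∀ z : ℂ, hat K z = DP S z * Ph n p h (z - l0)) ∧
      (∀ z : ℂ, hatr w z = DM S z * Ph n p h (z - ((l0.re : ℝ) : ℂ))) := by
  classical
  induction S using Finset.induction_on with
  | empty =>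
    obtain ⟨q, hq, hqh⟩ := ker0 n p hp h hh
    obtain ⟨B, hB0, hB, -⟩ := KerP_kb hq
    have e0 : n * h + 2 + (((∅ : Finset ℂ).card : ℕ) : ℝ) / 20 = n * h + 2 := by simp
    rw [e0]
    have hK : ∀ v : ℝ, ‖Complex.exp (-(l0 * v)) * ((q v : ℝ) : ℂ)‖ = Real.exp (-(l0.re * v)) * q v := by
      intro v
      rw [norm_mul, Complex.norm_exp, Complex.norm_real, Real.norm_of_nonneg (hq.nonneg v)]
      congr 2
      simp
    have hw : ∀ v : ℝ, Real.exp (-(l0.re * v)) * q v ≤ B := by
      intro v
      by_cases hv : v < 0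
      · rw [hq.neg v hv, mul_zero]
        exact hB0
      · have h1 : Real.exp (-(l0.re * v)) ≤ 1 := by
          rw [Real.exp_le_one_iff]
          have := mul_nonneg hl0 (not_lt.1 hv)
          linarith
        calc Real.exp (-(l0.re * v)) * q v ≤ 1 * q v :=
              mul_le_mul_of_nonneg_right h1 (hq.nonneg v)
          _ ≤ B := by rw [one_mul]; exact hB v
    refine ⟨fun v => Complex.exp (-(l0 * v)) * ((q v : ℝ) : ℂ),
      fun v => Real.exp (-(l0.re * v)) * q v, B, hB0, ⟨?_, ?_, ?_, ?_⟩, ⟨?_, ?_, ?_, ?_, ?_⟩, ?_, ?_, ?_⟩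
    · have hq1 := hq.meas
      fun_prop
    · intro v hv
      simp only [hq.neg v hv, Complex.ofReal_zero, mul_zero]
    · intro v hv
      simp only [hq.pos v hv, Complex.ofReal_zero, mul_zero]
    · intro v
      rw [hK]
      exact hw v
    · have hq1 := hq.meas
      fun_prop
    · intro v
      exact mul_nonneg (Real.exp_pos _).le (hq.nonneg v)
    · intro v hv
      simp only [hq.neg v hv, mul_zero]
    · intro v hv
      simp only [hq.pos v hv, mul_zero]
    · exact ⟨B, hw⟩
    · intro v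
      rw [hK]
    · intro z
      unfold DP
      rw [Finset.prod_empty, one_mul, ← hqh]
      unfold hatr hat
      refine integral_congr_ae (Filter.Eventually.of_forall fun v => ?_)
      simp only
      rw [sub_mul, sub_eq_add_neg, Complex.exp_add]
      ring
    · intro z
      unfold DM
      rw [Finset.prod_empty, one_mul, ← hqh]
      unfold hatr hat
      refine integral_congr_ae (Filter.Eventually.of_forall fun v => ?_)
      simp only
      rw [sub_mul, sub_eq_add_neg, Complex.exp_add]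
      push_cast
      ring
  | insert y S hy ih =>
    obtain ⟨K, w, B, hB0, hKB, hNK, hKw, hK1, hw1⟩ := ih
    obtain ⟨Bw, hBw0, hBw, hwk⟩ := KerP_kb hNK
    have e1 : n * h + 2 + (((insert y S).card : ℕ) : ℝ) / 20 = n * h + 2 + (S.card : ℝ) / 20 + 1 / 20 := by
      rw [Finset.card_insert_of_notMem hy]
      push_cast
      ring
    rw [e1]
    have hE : ‖Complex.exp (y / 20)‖ = Real.exp (y.re / 20) := by
      rw [Complex.norm_exp]
      congr 1
      simp
    have hr : ∀ z : ℂ, z * (((1 / 20 : ℝ)) : ℂ) = z / 20 := by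
      intro z
      push_cast
      ring
    refine ⟨fun v => K (v - 1 / 20) - Complex.exp (y / 20) * K v,
      fun v => w (v - 1 / 20) + Real.exp (y.re / 20) * w v, (1 + ‖Complex.exp (y / 20)‖) * B,
      by positivity, Ker_dif_kb hKB (1 / 20) (by norm_num) _, ⟨?_, ?_, ?_, ?_, ?_⟩, ?_, ?_, ?_⟩
    · have hq1 := hNK.meas
      fun_prop
    · intro v
      exact add_nonneg (hNK.nonneg _) (mul_nonneg (Real.exp_pos _).le (hNK.nonneg v))
    · intro v hv
      simp only [hNK.neg v hv, hNK.neg (v - 1 / 20) (by linarith), mul_zero, add_zero]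
    · intro v hv
      simp only [hNK.pos v (by linarith), hNK.pos (v - 1 / 20) (by linarith), mul_zero, add_zero]
    · refine ⟨Bw + Real.exp (y.re / 20) * Bw, fun v => ?_⟩
      exact add_le_add (hBw _) (mul_le_mul_of_nonneg_left (hBw v) (Real.exp_pos _).le)
    · intro v
      refine (norm_sub_le _ _).trans ?_
      rw [norm_mul, hE]
      exact add_le_add (hKw _) (mul_le_mul_of_nonneg_left (hKw v) (Real.exp_pos _).le)
    · intro z
      have h1 := Ker_dif_hat hKB (1 / 20) (Complex.exp (y / 20)) z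
      rw [h1, hK1, hr]
      unfold DP
      rw [Finset.prod_insert hy]
      ring
    · intro z
      have h1 := Ker_dif_hat hwk (1 / 20) (-((Real.exp (y.re / 20) : ℝ) : ℂ)) z
      have h2 : hatr (fun v => w (v - 1 / 20) + Real.exp (y.re / 20) * w v) z =
          hat (fun v => ((w (v - 1 / 20) : ℝ) : ℂ) -
            (-((Real.exp (y.re / 20) : ℝ) : ℂ)) * ((w v : ℝ) : ℂ)) z := by
        unfold hatr
        congr 1
        funext v
        push_cast
        ring
      have h3 : hat (fun v => ((w v : ℝ) : ℂ)) z = hatr w z := rfl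
      rw [h2, h1, h3, hw1, hr]
      unfold DM
      rw [Finset.prod_insert hy]
      ring

end W3283p
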