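import Pool.Agent.W_3283e1_sh.Defs

set_option autoImplicit false

namespace W3283p

open MeasureTheory W3283v

theorem PhB_zero : ph 0 = 1 := by
  unfold ph
  rw [if_pos rfl]

theorem PhB_ne {z : ℂ} (hz : z ≠ 0) : ph z = (Complex.exp z - 1) / z := by
  unfold ph
  rw [if_neg hz]

/-- `(e^z - 1)/z = ∫_0^1 e^{tz} dt`, so the norm is at most `∫_0^1 e^{t Re z} dt ≤ e^{max(0, Re z)}`. -/
theorem ph_bd (z : ℂ) : ‖ph z‖ ≤ Real.exp (max 0 z.re) := by
  by_cases hz : z = 0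
  · subst hz
    rw [PhB_zero, norm_one]
    exact Real.one_le_exp (le_max_left _ _)
  · have hpos : 0 < ‖z‖ := norm_pos_iff.2 hz
    rw [PhB_ne hz, norm_div, div_le_iff₀ hpos]
    have h1 := Convex.norm_image_sub_le_of_norm_deriv_le (𝕜 := ℂ) (f := Complex.exp)
      (C := Real.exp (max 0 z.re)) (s := {w : ℂ | w.re ≤ max 0 z.re}) (x := 0) (y := z)
      (fun w _ => Complex.differentiableAt_exp)
      (fun w hw => by
        rw [Complex.deriv_exp, Complex.norm_exp]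
        exact Real.exp_le_exp.2 hw)
      (convex_halfSpace_re_le _) (by simp) (by simp)
    rw [Complex.exp_zero, sub_zero] at h1
    exact h1

/-- `‖e^z - 1‖ ≤ e^{Re z} + 1 ≤ 2 e^{max(0, Re z)}`. -/
theorem ph_bd' (z : ℂ) : ‖ph z‖ * ‖z‖ ≤ 2 * Real.exp (max 0 z.re) := by
  by_cases hz : z = 0
  · subst hz
    rw [norm_zero, mul_zero]
    positivity
  · have hpos : 0 < ‖z‖ := norm_pos_iff.2 hz
    rw [PhB_ne hz, norm_div, div_mul_cancel₀ _ hpos.ne']
    have h1 := norm_sub_le (Complex.exp z) 1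
    rw [norm_one, Complex.norm_exp] at h1
    have h2 : Real.exp z.re ≤ Real.exp (max 0 z.re) := Real.exp_le_exp.2 (le_max_right _ _)
    have h3 : 1 ≤ Real.exp (max 0 z.re) := Real.one_le_exp (le_max_left _ _)
    linarith

/-- `‖(e^z - 1)/z - 1‖ ≤ ‖z‖` for `‖z‖ ≤ 1` (`Complex.norm_exp_sub_one_sub_id_le`). -/
theorem ph_one (z : ℂ) (hz : ‖z‖ ≤ 1) : ‖ph z - 1‖ ≤ ‖z‖ := by
  by_cases h0 : z = 0
  · subst h0
    rw [PhB_zero, sub_self]
  · have hpos : 0 < ‖z‖ := norm_pos_iff.2 h0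
    have h1 : ph z - 1 = (Complex.exp z - 1 - z) / z := by
      rw [PhB_ne h0]
      field_simp
    rw [h1, norm_div, div_le_iff₀ hpos]
    have h2 := Complex.norm_exp_sub_one_sub_id_le hz
    rw [sq] at h2
    exact h2

/-- One factor. -/
theorem PhB_fac (w : ℂ) (s x : ℝ) (hs : 0 < s) (hx : 0 < x) (hxw : x ≤ ‖w‖) :
    ‖ph (w * s)‖ ≤ Real.exp (max 0 w.re * s) * min 1 (2 / (x * s)) := by
  have hre : max 0 (w * (s : ℂ)).re = max 0 w.re * s := by
    rw [Complex.re_mul_ofReal, max_mul_of_nonneg _ _ hs.le, zero_mul]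
  have h1 := ph_bd (w * s)
  have h2 := ph_bd' (w * s)
  rw [hre] at h1 h2
  have hn : ‖w * (s : ℂ)‖ = ‖w‖ * s := by
    rw [norm_mul, Complex.norm_real, Real.norm_eq_abs, abs_of_pos hs]
  rw [hn] at h2
  rcases min_choice 1 (2 / (x * s)) with h | h
  · rw [h, mul_one]
    exact h1
  · rw [h, ← mul_div_assoc, le_div_iff₀ (by positivity)]
    have h3 : x * s ≤ ‖w‖ * s := mul_le_mul_of_nonneg_right hxw hs.le
    have h4 := mul_le_mul_of_nonneg_left h3 (norm_nonneg (ph (w * s)))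
    linarith

theorem PhB_fac0 (w : ℂ) (s : ℝ) (hs : 0 < s) :
    ‖ph (w * s)‖ ≤ Real.exp (max 0 w.re * s) := by
  have hre : max 0 (w * (s : ℂ)).re = max 0 w.re * s := by
    rw [Complex.re_mul_ofReal, max_mul_of_nonneg _ _ hs.le, zero_mul]
  have h1 := ph_bd (w * s)
  rw [hre] at h1
  exact h1

theorem PhB_exp (n p : ℕ) (hp : 1 ≤ p) (h M : ℝ) :
    Real.exp (M * h) ^ n * Real.exp (M * (1 / p)) ^ (2 * p) = Real.exp (M * (n * h + 2)) := by
  have hp0 : (p : ℝ) ≠ 0 := by positivity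
  rw [← Real.exp_nat_mul, ← Real.exp_nat_mul, ← Real.exp_add]
  congr 1
  push_cast
  field_simp

theorem PhB_norm (n p : ℕ) (h : ℝ) (w : ℂ) : ‖Ph n p h w‖ =
    ‖ph (w * h)‖ ^ n * ‖ph (w * ((1 / p : ℝ) : ℂ))‖ ^ (2 * p) := by
  unfold Ph
  rw [norm_mul, norm_pow, norm_pow]
  have h1 : w * ((1 / p : ℝ) : ℂ) = w / p := by
    push_cast
    ring
  rw [h1]

/-- Product of `ph_bd`, `ph_bd'` for the `n + 2p` factors:
`‖ph (w h)‖ ≤ e^{max(0,Re w) h} min(1, 2/(x h))` since `‖w h‖ ≥ x h`, and the same with `1/p`; the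
exponents add up to `max(0, Re w)(n h + 2)`. -/
theorem Ph_bd (n p : ℕ) (hp : 1 ≤ p) (h : ℝ) (hh : 0 < h) (w : ℂ) (x : ℝ) (hx : 0 < x)
    (hxw : x ≤ ‖w‖) :
    ‖Ph n p h w‖ ≤ Real.exp (max 0 w.re * (n * h + 2)) * (min 1 (2 / (x * h))) ^ n *
      (min 1 (2 * p / x)) ^ (2 * p) := by
  have hp0 : (0 : ℝ) < p := by positivity
  have h1 := PhB_fac w h x hh hx hxw
  have h2 := PhB_fac w (1 / p) x (by positivity) hx hxw
  have h3 : 2 / (x * (1 / (p : ℝ))) = 2 * p / x := by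
    field_simp
  rw [h3] at h2
  rw [PhB_norm, ← PhB_exp n p hp h (max 0 w.re)]
  have h4 := mul_le_mul (pow_le_pow_left₀ (norm_nonneg _) h1 n)
    (pow_le_pow_left₀ (norm_nonneg _) h2 (2 * p)) (by positivity) (by positivity)
  refine h4.trans (le_of_eq ?_)
  rw [mul_pow, mul_pow]
  ring

/-- All factors are at most `e^{max(0, Re w) h}` resp. `e^{max(0, Re w)/p}`. -/
theorem Ph_bd0 (n p : ℕ) (hp : 1 ≤ p) (h : ℝ) (hh : 0 < h) (w : ℂ) :
    ‖Ph n p h w‖ ≤ Real.exp (max 0 w.re * (n * h + 2)) := by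
  have hp0 : (0 : ℝ) < p := by positivity
  have h1 := PhB_fac0 w h hh
  have h2 := PhB_fac0 w (1 / p) (by positivity)
  rw [PhB_norm, ← PhB_exp n p hp h (max 0 w.re)]
  exact mul_le_mul (pow_le_pow_left₀ (norm_nonneg _) h1 n)
    (pow_le_pow_left₀ (norm_nonneg _) h2 (2 * p)) (by positivity) (by positivity)

/-- `(1 + x/p²) min(1, 2p/x) ≤ 1 + 2/p ≤ e^{2/p}` (cases `x ≤ 2p`, `x > 2p`), and the power `2p`. -/
theorem wlem (p : ℕ) (hp : 1 ≤ p) (x : ℝ) (hx : 0 < x) :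
    (1 + x / (p : ℝ) ^ 2) ^ (2 * p) * (min 1 (2 * p / x)) ^ (2 * p) ≤ Real.exp 4 := by
  have hp0 : (0 : ℝ) < p := by positivity
  have h1 : (1 + x / (p : ℝ) ^ 2) * min 1 (2 * p / x) ≤ 1 + 2 / p := by
    rcases le_or_gt x (2 * p) with h | h
    · have h2 : (1 + x / (p : ℝ) ^ 2) * min 1 (2 * p / x) ≤ (1 + x / (p : ℝ) ^ 2) * 1 :=
        mul_le_mul_of_nonneg_left (min_le_left _ _) (by positivity)
      have h3 : x / (p : ℝ) ^ 2 ≤ 2 / p := by
        rw [div_le_div_iff₀ (by positivity) hp0]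
        nlinarith
      linarith
    · have h2 : (1 + x / (p : ℝ) ^ 2) * min 1 (2 * p / x) ≤
          (1 + x / (p : ℝ) ^ 2) * (2 * p / x) :=
        mul_le_mul_of_nonneg_left (min_le_right _ _) (by positivity)
      have h3 : (1 + x / (p : ℝ) ^ 2) * (2 * p / x) = 2 * p / x + 2 / p := by
        field_simp
      have h4 : 2 * p / x ≤ 1 := by
        rw [div_le_one hx]
        exact h.le
      linarith
  have h5 : 1 + 2 / (p : ℝ) ≤ Real.exp (2 / p) := by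
    have := Real.add_one_le_exp (2 / (p : ℝ))
    linarith
  have h6 : (0 : ℝ) ≤ min 1 (2 * p / x) := by positivity
  rw [← mul_pow]
  refine (pow_le_pow_left₀ (by positivity) (h1.trans h5) (2 * p)).trans (le_of_eq ?_)
  rw [← Real.exp_nat_mul]
  congr 1
  push_cast
  field_simp
  norm_num

end W3283p
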