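import Pool.Agent.W_3283e1_sh.Bst
import Pool.Agent.W_3283e1_sh.PhB

set_option autoImplicit false

namespace W3283p

open MeasureTheory W3283v

variable {ι : Type} {lam : ι → ℂ} {m : ι → ℝ}

theorem LemX_key {p : ℕ} (hp : 1 ≤ p) {n : ℕ} {h : ℝ} (hh : 6 ≤ h) (hD : n * h + 2 ≤ p)
    {d t x : ℝ} (w : ℂ) (hx : 0 < x) (hxw : x ≤ ‖w‖) (hxh : 6 ≤ x * h) (hw : w.re ≤ d)
    (hdt : d ≤ t) (ht : 0 ≤ t) (hb : Real.exp t ≤ 1 + x / (p : ℝ) ^ 2) :
    Real.exp (d * p) * ‖Ph n p h w‖ ≤ Real.exp 4 * (1 / 3) ^ n := by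
  have hp0 : (0 : ℝ) ≤ p := by positivity
  have h1 := Ph_bd n p hp h (by linarith) w x hx hxw
  have hnh : 0 ≤ (n : ℝ) * h + 2 := by positivity
  have hmin : min 1 (2 / (x * h)) ≤ 1 / 3 := by
    refine (min_le_right _ _).trans ?_
    rw [div_le_div_iff₀ (by linarith) (by norm_num)]
    linarith
  have hmin0 : 0 ≤ min 1 (2 / (x * h)) := le_min (by norm_num) (by positivity)
  have hmp0 : 0 ≤ min 1 (2 * (p : ℝ) / x) := le_min (by norm_num) (by positivity)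
  have h2 : (min 1 (2 / (x * h))) ^ n ≤ (1 / 3 : ℝ) ^ n := pow_le_pow_left₀ hmin0 hmin n
  have h3 : Real.exp (d * p) * Real.exp (max 0 w.re * (n * h + 2)) ≤ Real.exp t ^ (2 * p) := by
    rw [← Real.exp_add, ← Real.exp_nat_mul]
    apply Real.exp_le_exp.2
    have h4 : d * p ≤ t * p := mul_le_mul_of_nonneg_right hdt hp0
    have h5 : max 0 w.re * (n * h + 2) ≤ t * p :=
      mul_le_mul (max_le ht (hw.trans hdt)) hD hnh ht
    push_cast
    linarith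
  have h6 : Real.exp t ^ (2 * p) ≤ (1 + x / (p : ℝ) ^ 2) ^ (2 * p) :=
    pow_le_pow_left₀ (Real.exp_pos _).le hb _
  have h7 := wlem p hp x hx
  have h8 : Real.exp (d * p) * Real.exp (max 0 w.re * (n * h + 2)) *
      (min 1 (2 * (p : ℝ) / x)) ^ (2 * p) ≤ Real.exp 4 :=
    (mul_le_mul_of_nonneg_right (h3.trans h6) (pow_nonneg hmp0 _)).trans h7
  calc Real.exp (d * p) * ‖Ph n p h w‖
      ≤ Real.exp (d * p) * (Real.exp (max 0 w.re * (n * h + 2)) * (min 1 (2 / (x * h))) ^ n *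
        (min 1 (2 * p / x)) ^ (2 * p)) := mul_le_mul_of_nonneg_left h1 (Real.exp_pos _).le
    _ = (Real.exp (d * p) * Real.exp (max 0 w.re * (n * h + 2)) *
        (min 1 (2 * (p : ℝ) / x)) ^ (2 * p)) * (min 1 (2 / (x * h))) ^ n := by ring
    _ ≤ Real.exp 4 * (1 / 3) ^ n :=
        mul_le_mul h8 h2 (pow_nonneg hmin0 _) (Real.exp_pos _).le

theorem LemX_max {a x q : ℝ} (hx : 0 ≤ x / q) (h : Real.exp a ≤ 1 + x / q) :
    Real.exp (max 0 a) ≤ 1 + x / q := by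
  rcases le_total 0 a with h1 | h1
  · rwa [max_eq_right h1]
  · rw [max_eq_left h1, Real.exp_zero]
    linarith

/-- Zeros away from the leading one.  Let `x = |Im λ_i - Im λ0| ≥ 1`, `θ = max(0, Re λ_i - Re λ0)`.  `Ph_bd` with
`w = λ_i - λ0`, `‖w‖ ≥ |Im w| = x`, gives
`e^{(Re λ_i - Re λ0) p} ‖Ph‖ ≤ e^{θ (p + n h + 2)} (1/3)^n min(1, 2p/x)^{2p}` (`2/(x h) ≤ 1/3` as `h ≥ 6`),
`e^{θ(p + n h + 2)} ≤ (e^θ)^{2p} ≤ (1 + x/p²)^{2p}` by `best_a`, and `wlem`. -/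
theorem lemX (p : ℕ) (hp : 1 ≤ p) (i0 : ι) (hB : Best lam p i0) (n : ℕ) (h : ℝ) (hh : 6 ≤ h)
    (hD : n * h + 2 ≤ p) (i : ι) (hx : 1 ≤ |(lam i).im - (lam i0).im|) :
    Real.exp (((lam i).re - (lam i0).re) * p) * ‖Ph n p h (lam i - lam i0)‖ ≤
      Real.exp 4 * (1 / 3) ^ n := by
  have hp0 : 0 < (p : ℝ) := by exact_mod_cast hp
  refine LemX_key hp hh hD (d := (lam i).re - (lam i0).re)
    (t := max 0 ((lam i).re - (lam i0).re)) (x := |(lam i).im - (lam i0).im|)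
    (lam i - lam i0) (by linarith) ?_ (by nlinarith) (by rw [Complex.sub_re]) (le_max_right _ _)
    (le_max_left _ _) (LemX_max (by positivity) (best_a hp hB i))
  rw [← Complex.sub_im]
  exact Complex.abs_im_le_norm _

/-- The same without modulation: `w = λ_i - s - Re λ0`, `|Im w| = |Im λ_i| = x`, `x h ≥ 6`,
`Re w ≤ Re λ_i - Re λ0`; `best_b` instead of `best_a`. -/
theorem lemX' (p : ℕ) (hp : 1 ≤ p) (i0 : ι) (hB : Best lam p i0) (n : ℕ) (h : ℝ) (hh : 6 ≤ h)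
    (hD : n * h + 2 ≤ p) (i : ι) (hx : 6 ≤ |(lam i).im| * h) (s : ℝ) (hs : 0 ≤ s) :
    Real.exp (((lam i).re - (lam i0).re) * p) *
      ‖Ph n p h (lam i - (s : ℂ) - (((lam i0).re : ℝ) : ℂ))‖ ≤ Real.exp 4 * (1 / 3) ^ n := by
  have hp0 : 0 < (p : ℝ) := by exact_mod_cast hp
  have hx0 : 0 < |(lam i).im| := by
    by_contra h0
    have h1 : |(lam i).im| = 0 := le_antisymm (not_lt.1 h0) (abs_nonneg _)
    rw [h1, zero_mul] at hx
    linarith
  refine LemX_key hp hh hD (d := (lam i).re - (lam i0).re)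
    (t := max 0 ((lam i).re - (lam i0).re)) (x := |(lam i).im|)
    (lam i - (s : ℂ) - (((lam i0).re : ℝ) : ℂ)) hx0 ?_ hx ?_ (le_max_right _ _)
    (le_max_left _ _) (LemX_max (by positivity) (best_b hp hB i))
  · have h1 : (lam i).im = (lam i - (s : ℂ) - (((lam i0).re : ℝ) : ℂ)).im := by simp
    conv_lhs => rw [h1]
    exact Complex.abs_im_le_norm _
  · have h1 : (lam i - (s : ℂ) - (((lam i0).re : ℝ) : ℂ)).re = (lam i).re - s - (lam i0).re := by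
      simp
    rw [h1]
    linarith

end W3283p
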