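import Pool.Agent.W_3283e1_sh.QQd

set_option autoImplicit false

namespace W3283p

open MeasureTheory W3283v Filter Topology

theorem UbT_supp {w0 : ℝ → ℝ} {D : ℝ} (hw : NK w0 D) (f : ℝ → ℂ) :
    ∫ v in Set.Ioc 0 D, (w0 v : ℂ) * f v = ∫ v : ℝ, (w0 v : ℂ) * f v := by
  rw [← integral_Icc_eq_integral_Ioc]
  refine setIntegral_eq_integral_of_forall_compl_eq_zero fun v hv => ?_
  rw [Set.mem_Icc, not_and_or, not_le, not_le] at hv
  rcases hv with hv | hv
  · rw [hw.neg v hv, Complex.ofReal_zero, zero_mul]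
  · rw [hw.pos v hv, Complex.ofReal_zero, zero_mul]

theorem UbT_den (l : ℂ) (s : ℝ) : l.im ^ 2 ≤ ‖(l - s) ^ 2‖ := by
  rw [norm_pow, ← sq_abs l.im]
  have h1 : |l.im| ≤ ‖l - s‖ := by
    have h2 := Complex.abs_im_le_norm (l - s)
    rwa [Complex.sub_im, Complex.ofReal_im, sub_zero] at h2
  gcongr

theorem UbT_exp (l : ℂ) (s u : ℝ) :
    ‖Complex.exp ((l - s) * (u : ℂ))‖ = Real.exp ((l.re - s) * u) := by
  rw [Complex.norm_exp]
  congr 1
  simp

theorem UbT_int (w0 : ℝ → ℝ) (D : ℝ) (hw : NK w0 D) (l : ℂ) (hl : l.im ≠ 0) (U : ℝ)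
    (hU : 1 ≤ U) :
    Integrable (Function.uncurry fun (v s : ℝ) =>
      (w0 v : ℂ) * (Complex.exp ((l - s) * ((U + v : ℝ) : ℂ)) / (l - s) ^ 2))
      ((volume.restrict (Set.Ioc 0 D)).prod (volume.restrict (Set.Ioi 0))) := by
  obtain ⟨B, hB⟩ := hw.bd
  have hB0 : 0 ≤ B := (hw.nonneg 0).trans (hB 0)
  have hl2 : 0 < l.im ^ 2 := by positivity
  have hm : Measurable (Function.uncurry fun (v s : ℝ) =>
      (w0 v : ℂ) * (Complex.exp ((l - s) * ((U + v : ℝ) : ℂ)) / (l - s) ^ 2)) := by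
    have hw1 := hw.meas
    unfold Function.uncurry
    fun_prop
  have hg1 : Integrable (fun _ : ℝ => B * Real.exp (|l.re| * (U + D)) / l.im ^ 2)
      (volume.restrict (Set.Ioc 0 D)) := integrable_const _
  have hg2 : Integrable (fun s : ℝ => Real.exp ((-U) * s)) (volume.restrict (Set.Ioi 0)) :=
    integrableOn_exp_mul_Ioi (by linarith) 0
  refine Integrable.mono' (hg1.mul_prod hg2) hm.aestronglyMeasurable ?_
  rw [Measure.prod_restrict]
  refine ae_restrict_of_forall_mem (measurableSet_Ioc.prod measurableSet_Ioi) ?_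
  rintro ⟨v, s⟩ ⟨hv, hs⟩
  have hv1 : 0 < v := hv.1
  have hv2 : v ≤ D := hv.2
  have hs1 : 0 < s := hs
  change ‖(w0 v : ℂ) * (Complex.exp ((l - s) * ((U + v : ℝ) : ℂ)) / (l - s) ^ 2)‖ ≤
    B * Real.exp (|l.re| * (U + D)) / l.im ^ 2 * Real.exp ((-U) * s)
  rw [norm_mul, norm_div, Complex.norm_real, Real.norm_of_nonneg (hw.nonneg v), UbT_exp]
  have h1 : Real.exp ((l.re - s) * (U + v)) ≤
      Real.exp (|l.re| * (U + D)) * Real.exp ((-U) * s) := by
    rw [← Real.exp_add]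
    refine Real.exp_le_exp.2 ?_
    have h2 : l.re * (U + v) ≤ |l.re| * (U + D) := by
      have h3 : l.re * (U + v) ≤ |l.re| * (U + v) :=
        mul_le_mul_of_nonneg_right (le_abs_self _) (by linarith)
      have h4 : |l.re| * (U + v) ≤ |l.re| * (U + D) :=
        mul_le_mul_of_nonneg_left (by linarith) (abs_nonneg _)
      linarith
    nlinarith [mul_pos hs1 hv1]
  calc w0 v * (Real.exp ((l.re - s) * (U + v)) / ‖(l - s) ^ 2‖)
      ≤ B * ((Real.exp (|l.re| * (U + D)) * Real.exp ((-U) * s)) / l.im ^ 2) := by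
        have h5 := UbT_den l s
        have h6 := hB v
        have h7 := hw.nonneg v
        gcongr
    _ = B * Real.exp (|l.re| * (U + D)) / l.im ^ 2 * Real.exp ((-U) * s) := by ring

/-- Fubini: `∫ w0(v) QQ λ (U + v) dv = ∫_0^∞ e^{(λ-s)U} hat w0 (λ - s)/(λ - s)² ds`, so its norm is at most
`G/(Im λ)² · ∫_0^∞ e^{-sU} ds` if `‖e^{λU} hat w0 (λ - s)‖ ≤ G` for all `s ≥ 0`. -/
theorem ub_term (w0 : ℝ → ℝ) (D : ℝ) (hw : NK w0 D) (hD : 0 ≤ D) (l : ℂ) (hl : l.im ≠ 0) (U : ℝ)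
    (hU : 1 ≤ U) (G : ℝ)
    (hG : ∀ s : ℝ, 0 ≤ s → Real.exp (l.re * U) * ‖hatr w0 (l - s)‖ ≤ G) :
    ‖∫ v in Set.Ioc 0 D, (w0 v : ℂ) * QQ l (U + v)‖ ≤ G / (l.im ^ 2 * U) := by
  have hU0 : 0 < U := by linarith
  have hl2 : 0 < l.im ^ 2 := by positivity
  have hint := UbT_int w0 D hw l hl U hU
  have h1 : ∫ v in Set.Ioc 0 D, (w0 v : ℂ) * QQ l (U + v) =
      ∫ v in Set.Ioc 0 D, ∫ s in Set.Ioi (0 : ℝ),
        (w0 v : ℂ) * (Complex.exp ((l - s) * ((U + v : ℝ) : ℂ)) / (l - s) ^ 2) := by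
    refine integral_congr_ae (Filter.Eventually.of_forall fun v => ?_)
    simp only
    unfold QQ
    rw [← integral_const_mul]
  have h2 : ∀ s : ℝ, ∫ v in Set.Ioc 0 D,
      (w0 v : ℂ) * (Complex.exp ((l - s) * ((U + v : ℝ) : ℂ)) / (l - s) ^ 2) =
      Complex.exp ((l - s) * (U : ℂ)) / (l - s) ^ 2 * hatr w0 (l - s) := by
    intro s
    unfold hatr hat
    rw [← UbT_supp hw, ← integral_const_mul]
    refine integral_congr_ae (Filter.Eventually.of_forall fun v => ?_)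
    simp only
    rw [Complex.ofReal_add, mul_add, Complex.exp_add]
    ring
  rw [h1, integral_integral_swap hint]
  have hg : Integrable (fun s : ℝ => G / l.im ^ 2 * Real.exp ((-U) * s))
      (volume.restrict (Set.Ioi 0)) :=
    (integrableOn_exp_mul_Ioi (by linarith) 0).const_mul _
  refine (norm_integral_le_of_norm_le hg ?_).trans (le_of_eq ?_)
  · refine ae_restrict_of_forall_mem measurableSet_Ioi fun s hs => ?_
    have hs1 : 0 < s := hs
    rw [h2, norm_mul, norm_div, UbT_exp]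
    have h3 := hG s hs1.le
    have h4 := UbT_den l s
    have h5 : Real.exp ((l.re - s) * U) = Real.exp (l.re * U) * Real.exp ((-U) * s) := by
      rw [← Real.exp_add]
      congr 1
      ring
    rw [h5]
    have hG0 : 0 ≤ G := le_trans (by positivity) h3
    calc Real.exp (l.re * U) * Real.exp ((-U) * s) / ‖(l - s) ^ 2‖ * ‖hatr w0 (l - s)‖
        = (Real.exp (l.re * U) * ‖hatr w0 (l - s)‖) / ‖(l - s) ^ 2‖ * Real.exp ((-U) * s) := by
          ring
      _ ≤ G / l.im ^ 2 * Real.exp ((-U) * s) := by gcongr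
  · rw [integral_const_mul, integral_exp_mul_Ioi (by linarith)]
    rw [mul_zero, Real.exp_zero]
    field_simp

/-- `RR a` is increasing on `[1, ∞)` (product of two nonnegative increasing functions). -/
theorem rr_mono (a : ℝ) (ha : 0 < a) (u v : ℝ) (hu : 1 ≤ u) (huv : u ≤ v) : RR a u ≤ RR a v := by
  have hcont : ∀ x : ℝ, 1 ≤ x →
      IntervalIntegrable (fun t : ℝ => Real.exp (a * t) / (a * t ^ 2)) volume 1 x := by
    intro x hx
    refine ContinuousOn.intervalIntegrable ?_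
    rw [Set.uIcc_of_le hx]
    refine ContinuousOn.div (by fun_prop) (by fun_prop) fun t ht => ?_
    have h1 : 0 < t := lt_of_lt_of_le one_pos ht.1
    positivity
  have hpos : ∀ t : ℝ, 0 ≤ Real.exp (a * t) / (a * t ^ 2) := fun t => by positivity
  have h1 : 0 ≤ ∫ t in (1 : ℝ)..u, Real.exp (a * t) / (a * t ^ 2) :=
    intervalIntegral.integral_nonneg hu fun t _ => hpos t
  have h2 : ∫ t in (1 : ℝ)..u, Real.exp (a * t) / (a * t ^ 2) ≤
      ∫ t in (1 : ℝ)..v, Real.exp (a * t) / (a * t ^ 2) := by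
    have h3 := intervalIntegral.integral_interval_sub_left (hcont v (hu.trans huv)) (hcont u hu)
    have h4 : 0 ≤ ∫ t in u..v, Real.exp (a * t) / (a * t ^ 2) :=
      intervalIntegral.integral_nonneg huv fun t _ => hpos t
    linarith
  unfold RR
  exact mul_le_mul huv h2 h1 (by linarith)

/-- `∫_0^D w0 = hatr w0 0` (real part). -/
theorem nk_int (w0 : ℝ → ℝ) (D : ℝ) (hw : NK w0 D) :
    IntegrableOn w0 (Set.Ioc 0 D) ∧ ((∫ v in Set.Ioc 0 D, w0 v : ℝ) : ℂ) = hatr w0 0 := by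
  obtain ⟨B, hB⟩ := hw.bd
  constructor
  · refine Measure.integrableOn_of_bounded (M := B) (by simp) hw.meas.aestronglyMeasurable ?_
    refine Filter.Eventually.of_forall fun v => ?_
    rw [Real.norm_of_nonneg (hw.nonneg v)]
    exact hB v
  · unfold hatr hat
    rw [← UbT_supp hw]
    refine (integral_complex_ofReal (f := fun v => w0 v)).symm.trans ?_
    refine integral_congr_ae (Filter.Eventually.of_forall fun v => ?_)
    simp

end W3283p
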