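import Pool.Agent.W_3283e1_sh.D2k
import Pool.Agent.W_3283e1_sh.LemX
import Pool.Agent.W_3283e1_sh.DPr
import Pool.Agent.W_3283e1_sh.UbT

set_option autoImplicit false

namespace W3283p

open MeasureTheory W3283v

variable {ι : Type} {lam : ι → ℂ} {m : ι → ℝ}

/-- `‖e^{λ r} - 1‖² ≤ 9` for `Re λ ≤ 1/2`, `0 < r ≤ 1`. -/
theorem Lb_nine (l : ℂ) (hl : l.re ≤ 1 / 2) (_hl0 : 0 ≤ l.re) (r : ℝ) (hr : 0 < r) (hr1 : r ≤ 1) :
    ‖(Complex.exp (l * r) - 1) ^ 2‖ ≤ 9 := by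
  have h1 : ‖Complex.exp (l * r)‖ ≤ 2 := by
    rw [Complex.norm_exp, Complex.re_mul_ofReal]
    have h2 : l.re * r ≤ 1 / 2 := by nlinarith
    have h3 : Real.exp (1 / 2) ≤ 2 := by
      have h4 := Real.exp_one_lt_d9
      have h5 : Real.exp (1 / 2) * Real.exp (1 / 2) = Real.exp 1 := by
        rw [← Real.exp_add]
        norm_num
      have h6 := Real.exp_pos (1 / 2)
      nlinarith
    exact (Real.exp_le_exp.2 h2).trans h3
  have h2 : ‖Complex.exp (l * r) - 1‖ ≤ 3 := by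
    refine (norm_sub_le _ _).trans ?_
    rw [norm_one]
    linarith
  rw [norm_pow]
  have h3 := norm_nonneg (Complex.exp (l * r) - 1)
  nlinarith

/-- `‖e^{-λ r} - 1‖² ≤ 4` for `Re λ ≥ 0`, `0 < r`. -/
theorem Lb_four (l : ℂ) (_hl0 : 0 ≤ l.re) (r : ℝ) (hr : 0 < r) :
    ‖(Complex.exp (-l * r) - 1) ^ 2‖ ≤ 4 := by
  have h1 : ‖Complex.exp (-l * r)‖ ≤ 1 := by
    rw [Complex.norm_exp, Complex.re_mul_ofReal, Complex.neg_re, Real.exp_le_one_iff]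
    nlinarith
  have h2 : ‖Complex.exp (-l * r) - 1‖ ≤ 2 := by
    refine (norm_sub_le _ _).trans ?_
    rw [norm_one]
    linarith
  rw [norm_pow]
  have h3 := norm_nonneg (Complex.exp (-l * r) - 1)
  nlinarith

/-- `‖Ph w‖ ≤ 1` for `Re w ≤ 0`. -/
theorem Lb_ph (n p : ℕ) (hp : 1 ≤ p) (h : ℝ) (hh : 0 < h) (w : ℂ) (hw : w.re ≤ 0) :
    ‖Ph n p h w‖ ≤ 1 := by
  refine (Ph_bd0 n p hp h hh w).trans ?_
  rw [max_eq_left hw, zero_mul, Real.exp_zero]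

/-- The lower bound.  `ev` with `q = D2 r K` (`d2_kb`), `U = p`:
the integral is `Σ (m/λ²)(e^{λp} (e^{λr}-1)² hat K λ + e^{-λp} (e^{-λr}-1)² hat K (-λ)) - ∫ Om1 D2`.
(1) Terms `e^{-λp}`: `|e^{-λp}| ≤ 1`, `|e^{-λr} - 1|² ≤ 4`, `‖DP S (-λ)‖ ≤ 4^|S|` (`dp_up`),
`‖Ph (-λ - λ0)‖ ≤ 1` (`Ph_bd0`): at most `4 · 4^|S| m/‖λ‖²`.  (2) `Om1_bd`, `d2_norm`,
`∫ w = hatr w 0 ≤ 4^|S|` (`nk_int`, `dp_up`, `Ph_bd0`).  (3) Terms `e^{λp}` with `i ∉ Nr`: zero if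
`lam i ∈ S` (`DP S (lam i) = 0`), otherwise `|e^{λr} - 1|² ≤ 9`, `dp_up`, `lemX`: at most
`(m/‖λ‖²) 9 · 4^|S| e^4 (1/3)^n e^{Re λ0 p}`.  (4) Terms with `i ∈ Nr`: their sum is
`F0 Σ m + error`, `‖error‖ ≤ ‖F0‖ Σ m/2`, so its norm is at least `‖F0‖ Σ_{Nr} m/2 ≥ ‖F0‖/2`
(`i0 ∈ Nr`, `m ≥ 1`). -/
theorem lb (hZ : ZC lam m) (A : ℝ → ℝ) (hA : EFC lam m A) :
    ∃ C : ℝ, 0 ≤ C ∧ ∀ (p n : ℕ) (h r : ℝ) (i0 : ι) (S : Finset ℂ) (Nr : Finset ι)
      (K : ℝ → ℂ) (w : ℝ → ℝ) (B : ℝ) (F0 : ℂ), 1 ≤ p → 6 ≤ h → n * h + 2 ≤ p → 0 < r → r ≤ 1 →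
      Best lam p i0 → (∀ y ∈ S, y.re ≤ 1 / 2) → 0 ≤ B →
      KB K (n * h + 2 + (S.card : ℝ) / 20) B → NK w (n * h + 2 + (S.card : ℝ) / 20) →
      (∀ v : ℝ, ‖K v‖ ≤ w v) → (∀ z : ℂ, hat K z = DP S z * Ph n p h (z - lam i0)) →
      (∀ z : ℂ, hatr w z = DM S z * Ph n p h (z - (((lam i0).re : ℝ) : ℂ))) → i0 ∈ Nr →
      (∀ i, i ∈ Nr ∨ lam i ∈ S ∨ 1 ≤ |(lam i).im - (lam i0).im|) →
      (∀ i ∈ Nr, ‖(m i : ℂ) / (lam i) ^ 2 * (Complex.exp (lam i * p) *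
          ((Complex.exp (lam i * r) - 1) ^ 2 * (DP S (lam i) * Ph n p h (lam i - lam i0)))) -
        m i * F0‖ ≤ m i * ‖F0‖ / 2) →
      ‖F0‖ / 2 ≤ C * 4 ^ S.card * ((1 / 3) ^ n * Real.exp ((lam i0).re * p) + 1) +
        ‖∫ v in Set.Ioc 0 (n * h + 2 + (S.card : ℝ) / 20 + 2 * r),
          ((I0 A (p + v) : ℝ) : ℂ) * D2 r K v‖ := by
  classical
  obtain ⟨C1, hC1⟩ := Om1_bd
  have hC0 : 0 ≤ C1 := (abs_nonneg _).trans (hC1 0)
  obtain ⟨St, hSt⟩ : ∃ St : ℝ, St = ∑' i, m i / ‖lam i‖ ^ 2 := ⟨_, rfl⟩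
  have hS0 : 0 ≤ St := by
    rw [hSt]
    exact tsum_nonneg fun i => by
      have := hZ.zd.one i
      positivity
  refine ⟨St * (4 + 9 * Real.exp 4) + 4 * C1, by positivity, ?_⟩
  intro p n h r i0 S Nr K w B F0 hp hh hD hr hr1 hBest hS hB hK hw hKw hhat hhatr hi0 hcase hNr
  have hh0 : 0 < h := by linarith
  obtain ⟨D, hDdef⟩ : ∃ D : ℝ, D = n * h + 2 + (S.card : ℝ) / 20 := ⟨_, rfl⟩
  rw [← hDdef] at hK hw ⊢
  have hD0 : 0 ≤ D := by
    rw [hDdef]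
    positivity
  obtain ⟨hq, hq0, hq1, hqh⟩ := d2_kb K D B hK hD0 r hr.le
  obtain ⟨hsm, hev⟩ := ev hZ hq (by positivity) (by positivity) hq0 hq1 A hA (p : ℝ)
    (Nat.cast_nonneg p)
  obtain ⟨P, hP⟩ : ∃ P : ℝ, P = (4 : ℝ) ^ S.card := ⟨_, rfl⟩
  have hP0 : 0 < P := by
    rw [hP]
    positivity
  obtain ⟨E, hE⟩ : ∃ E : ℝ, E = (1 / 3 : ℝ) ^ n * Real.exp ((lam i0).re * p) := ⟨_, rfl⟩
  have hE0 : 0 ≤ E := by
    rw [hE]
    positivity
  obtain ⟨mn, hmn⟩ : ∃ mn : ι → ℂ, mn = fun i => (m i : ℂ) / (lam i) ^ 2 *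
      (Complex.exp (lam i * p) * ((Complex.exp (lam i * r) - 1) ^ 2 *
        (DP S (lam i) * Ph n p h (lam i - lam i0)))) := ⟨_, rfl⟩
  have hm0 : ∀ i, 0 ≤ m i := fun i => by linarith [hZ.zd.one i]
  have hmm : ∀ i, ‖(m i : ℂ) / (lam i) ^ 2‖ = m i / ‖lam i‖ ^ 2 := by
    intro i
    rw [norm_div, norm_pow, Complex.norm_real, Real.norm_eq_abs, abs_of_nonneg (hm0 i)]
  have hsec : ∀ i, ‖Complex.exp (-(lam i * (p : ℝ))) * hat (D2 r K) (-(lam i))‖ ≤ 4 * P := by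
    intro i
    rw [hqh, hhat, norm_mul, norm_mul, norm_mul]
    have e1 : ‖Complex.exp (-(lam i * (p : ℝ)))‖ ≤ 1 := by
      rw [Complex.norm_exp, Complex.neg_re, Complex.re_mul_ofReal, Real.exp_le_one_iff]
      have := mul_nonneg (hZ.re0 i) (Nat.cast_nonneg (α := ℝ) p)
      linarith
    have e2 := Lb_four (lam i) (hZ.re0 i) r hr
    have e3 : ‖DP S (-(lam i))‖ ≤ P := by
      rw [hP]
      refine (dp_up S hS _ ?_).1
      rw [Complex.neg_re]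
      linarith [hZ.re0 i]
    have e4 : ‖Ph n p h (-(lam i) - lam i0)‖ ≤ 1 := by
      refine Lb_ph n p hp h hh0 _ ?_
      rw [Complex.sub_re, Complex.neg_re]
      linarith [hZ.re0 i, hZ.re0 i0]
    calc _ ≤ (1 : ℝ) * (4 * (P * 1)) :=
          mul_le_mul e1 (mul_le_mul e2 (mul_le_mul e3 e4 (norm_nonneg _) hP0.le)
            (by positivity) (by norm_num)) (by positivity) zero_le_one
      _ = 4 * P := by ring
  have hfirst : ∀ i, i ∉ Nr → ‖Complex.exp (lam i * (p : ℝ)) * hat (D2 r K) (lam i)‖ ≤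
      9 * P * (Real.exp 4 * E) := by
    intro i hi
    rw [hqh, hhat]
    rcases hcase i with h1 | h1 | h1
    · exact absurd h1 hi
    · have e1 : DP S (lam i) = 0 := by
        unfold DP
        exact Finset.prod_eq_zero h1 (sub_self _)
      rw [e1, zero_mul, mul_zero, mul_zero, norm_zero]
      positivity
    · have e1 := lemX p hp i0 hBest n h hh hD i h1
      have e2 := Lb_nine (lam i) (hZ.re1 i) (hZ.re0 i) r hr hr1
      have e3 : ‖DP S (lam i)‖ ≤ P := by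
        rw [hP]
        exact (dp_up S hS _ (hZ.re1 i)).1
      have e4 : ‖Complex.exp (lam i * (p : ℝ))‖ * ‖Ph n p h (lam i - lam i0)‖ ≤
          Real.exp 4 * E := by
        rw [Complex.norm_exp, Complex.re_mul_ofReal]
        have e5 : Real.exp ((lam i).re * p) = Real.exp ((lam i0).re * p) *
            Real.exp (((lam i).re - (lam i0).re) * p) := by
          rw [← Real.exp_add]
          congr 1
          ring
        rw [e5, hE, mul_assoc]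
        calc _ ≤ Real.exp ((lam i0).re * p) * (Real.exp 4 * (1 / 3) ^ n) :=
              mul_le_mul_of_nonneg_left e1 (Real.exp_pos _).le
          _ = _ := by ring
      calc _ = ‖(Complex.exp (lam i * r) - 1) ^ 2‖ * ‖DP S (lam i)‖ *
            (‖Complex.exp (lam i * (p : ℝ))‖ * ‖Ph n p h (lam i - lam i0)‖) := by
              rw [norm_mul, norm_mul, norm_mul]
              ring
        _ ≤ 9 * P * (Real.exp 4 * E) :=
            mul_le_mul (mul_le_mul e2 e3 (norm_nonneg _) (by norm_num)) e4 (by positivity)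
              (by positivity)
  have hR := hsm.hasSum.sub (hasSum_sum_of_ne_finset_zero (s := Nr)
    (f := fun i => if i ∈ Nr then mn i else 0) (fun i hi => if_neg hi))
  have hRb : ∀ i, ‖(m i : ℂ) / (lam i) ^ 2 * (Complex.exp (lam i * (p : ℝ)) *
      hat (D2 r K) (lam i) + Complex.exp (-(lam i * (p : ℝ))) * hat (D2 r K) (-(lam i))) -
      (if i ∈ Nr then mn i else 0)‖ ≤
      m i / ‖lam i‖ ^ 2 * (4 * P + 9 * P * (Real.exp 4 * E)) := by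
    intro i
    by_cases hi : i ∈ Nr
    · rw [if_pos hi, hmn]
      have e1 : (m i : ℂ) / (lam i) ^ 2 * (Complex.exp (lam i * (p : ℝ)) *
          hat (D2 r K) (lam i) + Complex.exp (-(lam i * (p : ℝ))) * hat (D2 r K) (-(lam i))) -
          (m i : ℂ) / (lam i) ^ 2 * (Complex.exp (lam i * p) *
            ((Complex.exp (lam i * r) - 1) ^ 2 * (DP S (lam i) * Ph n p h (lam i - lam i0)))) =
          (m i : ℂ) / (lam i) ^ 2 *
            (Complex.exp (-(lam i * (p : ℝ))) * hat (D2 r K) (-(lam i))) := by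
        rw [hqh (lam i), hhat (lam i)]
        push_cast
        ring
      dsimp only
      rw [e1, norm_mul, hmm]
      refine mul_le_mul_of_nonneg_left ?_ (by have := hm0 i; positivity)
      have e2 := hsec i
      have e3 : 0 ≤ 9 * P * (Real.exp 4 * E) := by positivity
      linarith
    · rw [if_neg hi, sub_zero, norm_mul, hmm]
      refine mul_le_mul_of_nonneg_left ?_ (by have := hm0 i; positivity)
      refine (norm_add_le _ _).trans ?_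
      linarith [hsec i, hfirst i hi]
  have hT := tsum_of_norm_bounded (hZ.zd.sm.hasSum.mul_right
    (4 * P + 9 * P * (Real.exp 4 * E))) hRb
  rw [hR.tsum_eq, ← hSt] at hT
  have hsumNr : ∑ i ∈ Nr, (if i ∈ Nr then mn i else 0) = ∑ i ∈ Nr, mn i :=
    Finset.sum_congr rfl fun i hi => if_pos hi
  rw [hsumNr] at hT
  have hW : 1 ≤ ∑ i ∈ Nr, m i :=
    (hZ.zd.one i0).trans (Finset.single_le_sum (fun i _ => hm0 i) hi0)
  obtain ⟨W, hWdef⟩ : ∃ W : ℝ, W = ∑ i ∈ Nr, m i := ⟨_, rfl⟩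
  have hM : ‖(∑ i ∈ Nr, mn i) - (W : ℂ) * F0‖ ≤ W * ‖F0‖ / 2 := by
    have e1 : (∑ i ∈ Nr, mn i) - (W : ℂ) * F0 = ∑ i ∈ Nr, (mn i - (m i : ℂ) * F0) := by
      rw [Finset.sum_sub_distrib, ← Finset.sum_mul, hWdef]
      push_cast
      rfl
    rw [e1]
    refine (norm_sum_le _ _).trans ?_
    have e2 : W * ‖F0‖ / 2 = ∑ i ∈ Nr, m i * ‖F0‖ / 2 := by
      rw [hWdef, Finset.sum_mul, Finset.sum_div]
    rw [e2]
    refine Finset.sum_le_sum fun i hi => ?_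
    rw [hmn]
    exact hNr i hi
  rw [← hWdef] at hW
  have hO : ‖∫ v in Set.Ioc 0 (D + 2 * r), (Om1 ((p : ℝ) + v) : ℂ) * D2 r K v‖ ≤
      4 * C1 * P := by
    have e0 : IntegrableOn (fun v => ‖D2 r K v‖) (Set.Ioc 0 (D + 2 * r)) := by
      have h' := Ev_int hq (fun _ => (1 : ℂ)) continuousOn_const
      simp only [mul_one] at h'
      exact h'.norm
    have e1 : ‖∫ v in Set.Ioc 0 (D + 2 * r), (Om1 ((p : ℝ) + v) : ℂ) * D2 r K v‖ ≤
        ∫ v in Set.Ioc 0 (D + 2 * r), C1 * ‖D2 r K v‖ := by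
      refine norm_integral_le_of_norm_le (e0.const_mul C1) (Filter.Eventually.of_forall fun v => ?_)
      rw [norm_mul, Complex.norm_real]
      exact mul_le_mul_of_nonneg_right (hC1 _) (norm_nonneg _)
    rw [integral_const_mul] at e1
    have e2 := d2_norm K w D B hK hw hD0 hKw r hr.le
    have e3 : ∫ v in Set.Ioc 0 D, w v ≤ P := by
      have e4 := (nk_int w D hw).2
      rw [hhatr] at e4
      have e5 : ‖DM S 0‖ ≤ P := by
        rw [hP]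
        exact (dp_up S hS 0 (by rw [Complex.zero_re]; norm_num)).2
      have e6 : ‖Ph n p h (0 - (((lam i0).re : ℝ) : ℂ))‖ ≤ 1 := by
        refine Lb_ph n p hp h hh0 _ ?_
        rw [Complex.sub_re, Complex.zero_re, Complex.ofReal_re]
        linarith [hZ.re0 i0]
      have e7 : ‖((∫ v in Set.Ioc 0 D, w v : ℝ) : ℂ)‖ ≤ P * 1 := by
        rw [e4, norm_mul]
        exact mul_le_mul e5 e6 (norm_nonneg _) hP0.le
      rw [Complex.norm_real, mul_one] at e7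
      exact (le_abs_self _).trans e7
    calc _ ≤ _ := e1
      _ ≤ C1 * (4 * P) := mul_le_mul_of_nonneg_left (by linarith) hC0
      _ = 4 * C1 * P := by ring
  have hgoal : ∫ v in Set.Ioc 0 (D + 2 * r), ((I0 A (p + v) : ℝ) : ℂ) * D2 r K v =
      (∑' i, (m i : ℂ) / (lam i) ^ 2 * (Complex.exp (lam i * (p : ℝ)) * hat (D2 r K) (lam i) +
        Complex.exp (-(lam i * (p : ℝ))) * hat (D2 r K) (-(lam i)))) -
      ∫ v in Set.Ioc 0 (D + 2 * r), (Om1 ((p : ℝ) + v) : ℂ) * D2 r K v := hev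
  rw [hgoal, ← hP, ← hE]
  obtain ⟨TT, hTT⟩ : ∃ TT : ℂ, TT = ∑' i, (m i : ℂ) / (lam i) ^ 2 *
      (Complex.exp (lam i * (p : ℝ)) * hat (D2 r K) (lam i) +
      Complex.exp (-(lam i * (p : ℝ))) * hat (D2 r K) (-(lam i))) := ⟨_, rfl⟩
  obtain ⟨OO, hOO⟩ : ∃ OO : ℂ, OO = ∫ v in Set.Ioc 0 (D + 2 * r),
      (Om1 ((p : ℝ) + v) : ℂ) * D2 r K v := ⟨_, rfl⟩
  rw [← hTT] at hT ⊢
  rw [← hOO] at hO ⊢
  have n1 : ‖(W : ℂ) * F0‖ ≤ ‖TT - OO‖ + ‖OO‖ + ‖TT - ∑ i ∈ Nr, mn i‖ +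
      ‖(∑ i ∈ Nr, mn i) - (W : ℂ) * F0‖ := by
    have e1 : (W : ℂ) * F0 = (TT - OO) + OO - (TT - ∑ i ∈ Nr, mn i) -
        ((∑ i ∈ Nr, mn i) - (W : ℂ) * F0) := by ring
    calc ‖(W : ℂ) * F0‖ = ‖(TT - OO) + OO - (TT - ∑ i ∈ Nr, mn i) -
        ((∑ i ∈ Nr, mn i) - (W : ℂ) * F0)‖ := by rw [← e1]
      _ ≤ ‖(TT - OO) + OO - (TT - ∑ i ∈ Nr, mn i)‖ + ‖(∑ i ∈ Nr, mn i) - (W : ℂ) * F0‖ :=
          norm_sub_le _ _
      _ ≤ (‖(TT - OO) + OO‖ + ‖TT - ∑ i ∈ Nr, mn i‖) + ‖(∑ i ∈ Nr, mn i) - (W : ℂ) * F0‖ :=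
          add_le_add_left (norm_sub_le _ _) _
      _ ≤ _ := add_le_add_left (add_le_add_left (norm_add_le _ _) _) _
  rw [norm_mul, Complex.norm_real, Real.norm_eq_abs, abs_of_nonneg (by linarith : (0 : ℝ) ≤ W)]
    at n1
  have hF := norm_nonneg F0
  have n2 : ‖F0‖ / 2 ≤ W * ‖F0‖ / 2 := by nlinarith
  have n3 : St * (4 * P + 9 * P * (Real.exp 4 * E)) ≤
      St * (4 + 9 * Real.exp 4) * P * (E + 1) := by
    have e1 : St * (4 + 9 * Real.exp 4) * P * (E + 1) - St * (4 * P + 9 * P * (Real.exp 4 * E)) =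
        St * P * (4 * E + 9 * Real.exp 4) := by ring
    have e2 : 0 ≤ St * P * (4 * E + 9 * Real.exp 4) := by positivity
    linarith
  have n4 : 4 * C1 * P ≤ 4 * C1 * P * (E + 1) :=
    le_mul_of_one_le_right (by positivity) (by linarith)
  have n5 : (St * (4 + 9 * Real.exp 4) + 4 * C1) * P * (E + 1) =
      St * (4 + 9 * Real.exp 4) * P * (E + 1) + 4 * C1 * P * (E + 1) := by ring
  rw [n5]
  linarith

end W3283p
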