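import Pool.Agent.W_3283e1_sh.ADiv
import Pool.Agent.W_3283e1_lw.Cnt

set_option autoImplicit false

namespace W3283p

open MeasureTheory W3283v Filter Topology

variable {ι : Type} {lam : ι → ℂ} {m : ι → ℝ}

/-- The nonreal zeros have `‖λ‖ ≤ c1 |Im λ|`: those with `‖λ‖ ≤ 1` are finitely many (`W3283l.cnt_fin`), and
`‖λ‖ ≤ 1/2 + |Im λ| ≤ 2 |Im λ|` for the others... (`Re λ ≤ 1/2 ≤ ‖λ‖/2`). -/
theorem im_low (hZ : ZC lam m) : ∃ c1 : ℝ, 1 ≤ c1 ∧ ∀ i, (lam i).im ≠ 0 →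
    ‖lam i‖ ≤ c1 * |(lam i).im| := by
  classical
  have hF := W3283l.cnt_fin hZ.zd 1
  have hS : 0 ≤ ∑ i ∈ hF.toFinset, ‖lam i‖ / |(lam i).im| :=
    Finset.sum_nonneg fun i _ => by positivity
  refine ⟨2 + ∑ i ∈ hF.toFinset, ‖lam i‖ / |(lam i).im|, by linarith, fun i hi => ?_⟩
  have him : 0 < |(lam i).im| := abs_pos.2 hi
  by_cases h1 : ‖lam i‖ ≤ 1
  · have hmem : i ∈ hF.toFinset := hF.mem_toFinset.2 h1
    have h2 := Finset.single_le_sum (f := fun i => ‖lam i‖ / |(lam i).im|)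
      (fun i _ => by positivity) hmem
    have h3 : ‖lam i‖ / |(lam i).im| ≤ 2 + ∑ i ∈ hF.toFinset, ‖lam i‖ / |(lam i).im| := by
      have h4 : ‖lam i‖ / |(lam i).im| ≤ ∑ i ∈ hF.toFinset, ‖lam i‖ / |(lam i).im| := h2
      linarith
    rwa [div_le_iff₀ him] at h3
  · push Not at h1
    have h2 := Complex.norm_le_abs_re_add_abs_im (lam i)
    rw [abs_of_nonneg (hZ.re0 i)] at h2
    have h3 := hZ.re1 i
    have h4 : ‖lam i‖ ≤ 2 * |(lam i).im| := by linarith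
    nlinarith

theorem EF_int (A : ℝ → ℝ) (hA : EFC lam m A) (T : ℝ) : IntegrableOn A (Set.Ioc 0 T) := by
  obtain ⟨C, hC⟩ := hA.bd
  refine Measure.integrableOn_of_bounded (M := |C| * Real.exp (3 / 4 * T)) ?_
    hA.meas.aestronglyMeasurable ?_
  · rw [Real.volume_Ioc]
    exact ENNReal.ofReal_ne_top
  · refine (ae_restrict_iff' measurableSet_Ioc).2 (Filter.Eventually.of_forall fun u hu => ?_)
    have hu1 : 0 < u := hu.1
    have hu2 : u ≤ T := hu.2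
    rw [Real.norm_eq_abs]
    refine (hC u hu1.le).trans ?_
    refine (mul_le_mul_of_nonneg_right (le_abs_self C) (Real.exp_pos _).le).trans ?_
    exact mul_le_mul_of_nonneg_left (Real.exp_le_exp.2 (by linarith)) (abs_nonneg C)

theorem EF_rem (hZ : ZC lam m) : ∃ c2 : ℝ, 0 ≤ c2 ∧ ∀ i, ∀ u : ℝ, 1 ≤ u →
    ‖2 / (lam i) ^ 2 * TT (lam i) u - PP (lam i) u / u‖ ≤ c2 / ‖lam i‖ ^ 2 := by
  obtain ⟨c1, hc1, hlow⟩ := im_low hZ
  refine ⟨2 * c1 ^ 2 + 2, by positivity, fun i u hu => ?_⟩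
  have hu0 : 0 < u := by linarith
  have hw0 := hZ.re0 i
  have hw1 := hZ.re1 i
  have hne := hZ.ne i
  obtain ⟨w, hw⟩ : ∃ w : ℂ, w = lam i := ⟨_, rfl⟩
  have hlowi := hlow i
  rw [← hw] at hw0 hw1 hne hlowi ⊢
  have hwn : 0 < ‖w‖ := norm_pos_iff.2 hne
  have hneg : ‖QQ (-w) u / u - QQ (-w) 1‖ ≤ 2 / ‖w‖ ^ 2 := by
    have h1 := qq_neg w hw0 hne u hu
    have h2 := qq_neg w hw0 hne 1 le_rfl
    refine (norm_sub_le _ _).trans ?_
    have h3 : ‖QQ (-w) u / (u : ℂ)‖ ≤ 1 / ‖w‖ ^ 2 := by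
      rw [norm_div, Complex.norm_real, Real.norm_of_nonneg hu0.le]
      exact (div_le_self (norm_nonneg _) hu).trans h1
    have h4 : 2 / ‖w‖ ^ 2 = 1 / ‖w‖ ^ 2 + 1 / ‖w‖ ^ 2 := by ring
    rw [h4]
    exact add_le_add h3 h2
  have hle : 2 / ‖w‖ ^ 2 ≤ (2 * c1 ^ 2 + 2) / ‖w‖ ^ 2 :=
    div_le_div_of_nonneg_right (by nlinarith) (by positivity)
  by_cases him : w.im = 0
  · have hre : 0 < w.re := by
      rcases hw0.lt_or_eq with h | h
      · exact h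
      · exact absurd (Complex.ext h.symm him) hne
    have hP : PP w u = ((RR w.re u : ℝ) : ℂ) := by
      unfold PP
      rw [if_pos him]
    rw [tt_rr w him hre u hu, hP, add_sub_cancel_left]
    exact hneg.trans hle
  · have hP : PP w u = QQ w u := by
      unfold PP
      rw [if_neg him]
    rw [tt_qq w him hw0 u hu, hP]
    have h1 : QQ w u / (u : ℂ) - QQ w 1 + (QQ (-w) u / u - QQ (-w) 1) - QQ w u / u =
        -QQ w 1 + (QQ (-w) u / u - QQ (-w) 1) := by ring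
    rw [h1]
    have h2 := qq_bd w him 1 one_pos
    have h3 : Real.exp (w.re * 1) / (w.im ^ 2 * 1) ≤ 2 * c1 ^ 2 / ‖w‖ ^ 2 := by
      have himp : 0 < w.im ^ 2 := by positivity
      have h4 : Real.exp (w.re * 1) ≤ 2 := by
        have h5 : Real.exp (w.re * 1) ≤ Real.exp (1 / 2) := Real.exp_le_exp.2 (by linarith)
        have h6 : Real.exp (1 / 2) ^ 2 ≤ 2 ^ 2 := by
          rw [← Real.exp_nat_mul]
          have h7 : ((2 : ℕ) : ℝ) * (1 / 2) = 1 := by norm_num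
          rw [h7]
          have := Real.exp_one_lt_d9
          linarith
        have h8 : Real.exp (1 / 2) ≤ 2 := by
          have h9 := Real.exp_pos (1 / 2 : ℝ)
          nlinarith
        exact h5.trans h8
      have h5 : ‖w‖ ^ 2 ≤ c1 ^ 2 * w.im ^ 2 := by
        have h6 := pow_le_pow_left₀ (norm_nonneg w) (hlowi him) 2
        rwa [mul_pow, sq_abs] at h6
      rw [mul_one (w.im ^ 2), div_le_div_iff₀ himp (by positivity)]
      have h6 : Real.exp (w.re * 1) * ‖w‖ ^ 2 ≤ 2 * ‖w‖ ^ 2 :=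
        mul_le_mul_of_nonneg_right h4 (by positivity)
      linarith
    refine (norm_add_le _ _).trans ?_
    rw [norm_neg, add_div]
    exact add_le_add (h2.trans h3) hneg

/-- The explicit formula for the primitive of `e`: by `e_div`, `a_div`, `tt_qq`, `tt_rr`,
`I0 e u / u = O(1) + Σ m (PP λ u / u + O(1/‖λ‖²))`; the constants `QQ λ 1` (nonreal `λ`) are at most
`e^{1/2}/|Im λ|²` (`qq_bd`), and the functions of `-λ` at most `2/‖λ‖²` (`qq_neg`), so by `im_low` and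
`hZ.zd.sm` their sums are bounded. -/
theorem ef_prim (hZ : ZC lam m) (A e : ℝ → ℝ) (hA : EFC lam m A)
    (he : ∀ T : ℝ, IntegrableOn e (Set.Ioc 0 T)) (C0 : ℝ) (hC0 : 0 ≤ C0)
    (hid : ∀ u : ℝ, 0 < u → |u * e u - (∫ t in Set.Ioc 0 u, e t) - A u| ≤ C0) :
    ∃ C : ℝ, 0 ≤ C ∧ ∀ u : ℝ, 1 ≤ u →
      Summable (fun i => (m i : ℂ) * PP (lam i) u) ∧
      ‖((I0 e u : ℝ) : ℂ) - ∑' i, (m i : ℂ) * PP (lam i) u‖ ≤ C * u := by
  obtain ⟨c2, hc2, hrem⟩ := EF_rem hZ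
  obtain ⟨C1, hC1, hdiv⟩ := a_div hZ A hA
  have hed := e_div A e (EF_int A hA) he C0 hC0 hid
  have hS0 : 0 ≤ ∑' i, m i / ‖lam i‖ ^ 2 := tsum_nonneg fun i => by
    have h2 := hZ.zd.one i
    positivity
  refine ⟨C0 + |I0 e 1| + C1 + c2 * ∑' i, m i / ‖lam i‖ ^ 2, by positivity, fun u hu => ?_⟩
  have hu0 : 0 < u := by linarith
  have huc : (u : ℂ) ≠ 0 := Complex.ofReal_ne_zero.2 hu0.ne'
  obtain ⟨hsa, hda⟩ := hdiv u hu
  have hr : ∀ i, ‖(m i : ℂ) * (2 / (lam i) ^ 2 * TT (lam i) u - PP (lam i) u / u)‖ ≤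
      c2 * (m i / ‖lam i‖ ^ 2) := by
    intro i
    have h2 := hZ.zd.one i
    rw [norm_mul, Complex.norm_real, Real.norm_of_nonneg (by linarith)]
    refine (mul_le_mul_of_nonneg_left (hrem i u hu) (by linarith)).trans (le_of_eq ?_)
    ring
  have hsb : Summable fun i => c2 * (m i / ‖lam i‖ ^ 2) := hZ.zd.sm.mul_left c2
  have hsr : Summable fun i =>
      (m i : ℂ) * (2 / (lam i) ^ 2 * TT (lam i) u - PP (lam i) u / u) :=
    Summable.of_norm_bounded hsb hr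
  have hnr : ‖∑' i, (m i : ℂ) * (2 / (lam i) ^ 2 * TT (lam i) u - PP (lam i) u / u)‖ ≤
      c2 * ∑' i, m i / ‖lam i‖ ^ 2 := by
    have h1 := tsum_of_norm_bounded hsb.hasSum hr
    rwa [tsum_mul_left] at h1
  have hterm : ∀ i, (m i : ℂ) * PP (lam i) u = (u : ℂ) *
      (2 * (m i : ℂ) / (lam i) ^ 2 * TT (lam i) u -
        (m i : ℂ) * (2 / (lam i) ^ 2 * TT (lam i) u - PP (lam i) u / u)) := by
    intro i
    have h1 : 2 * (m i : ℂ) / (lam i) ^ 2 * TT (lam i) u =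
        (m i : ℂ) * (2 / (lam i) ^ 2 * TT (lam i) u) := by ring
    rw [h1, ← mul_sub, sub_sub_cancel]
    field_simp
  have hsP : Summable fun i => (m i : ℂ) * PP (lam i) u := by
    simp only [hterm]
    exact (hsa.sub hsr).mul_left _
  refine ⟨hsP, ?_⟩
  have htP : ∑' i, (m i : ℂ) * PP (lam i) u = (u : ℂ) *
      ((∑' i, 2 * (m i : ℂ) / (lam i) ^ 2 * TT (lam i) u) -
        ∑' i, (m i : ℂ) * (2 / (lam i) ^ 2 * TT (lam i) u - PP (lam i) u / u)) := by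
    simp only [hterm]
    rw [tsum_mul_left, hsa.tsum_sub hsr]
  obtain ⟨a, ha⟩ : ∃ a : ℂ, a = ∑' i, 2 * (m i : ℂ) / (lam i) ^ 2 * TT (lam i) u := ⟨_, rfl⟩
  obtain ⟨r, hrr⟩ : ∃ r : ℂ, r = ∑' i, (m i : ℂ) *
    (2 / (lam i) ^ 2 * TT (lam i) u - PP (lam i) u / u) := ⟨_, rfl⟩
  obtain ⟨J, hJ⟩ : ∃ J : ℝ, J = ∫ t in (1 : ℝ)..u, A t / t ^ 2 := ⟨_, rfl⟩
  have h1 := hed u hu
  rw [← hJ] at h1
  rw [← hJ, ← ha] at hda
  rw [← hrr] at hnr
  rw [htP, ← ha, ← hrr]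
  have h2 : ((I0 e u : ℝ) : ℂ) - (u : ℂ) * (a - r) =
      (u : ℂ) * (((I0 e u / u - J : ℝ) : ℂ) + (((J : ℝ) : ℂ) - a) + r) := by
    push_cast
    field_simp
    ring
  rw [h2, norm_mul, Complex.norm_real, Real.norm_of_nonneg hu0.le, mul_comm]
  refine mul_le_mul_of_nonneg_right ?_ hu0.le
  have h3 : ‖((I0 e u / u - J : ℝ) : ℂ)‖ ≤ C0 + |I0 e 1| := by
    rw [Complex.norm_real, Real.norm_eq_abs]
    exact h1
  have h4 := norm_add₃_le (a := ((I0 e u / u - J : ℝ) : ℂ)) (b := ((J : ℝ) : ℂ) - a) (c := r)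
  linarith

end W3283p
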