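import Pool.Agent.W_3283e1_sh.UbT
import Pool.Agent.W_3283e1_sh.EF

set_option autoImplicit false

namespace W3283p

open MeasureTheory W3283v Filter Topology

variable {ι : Type} {lam : ι → ℂ} {m : ι → ℝ}

theorem UbS_contI {e : ℝ → ℝ} (he : ∀ T : ℝ, IntegrableOn e (Set.Ioc 0 T)) (T : ℝ) :
    ContinuousOn (I0 e) (Set.Icc 0 T) :=
  intervalIntegral.continuousOn_primitive (μ := volume) (f := e) (a := 0) (b := T)
    ((integrableOn_Icc_iff_integrableOn_Ioc).2 (he T))

theorem UbS_int {w0 : ℝ → ℝ} {D : ℝ} (hw : NK w0 D) {f : ℝ → ℝ}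
    (hf : ContinuousOn f (Set.Icc 0 D)) :
    IntegrableOn (fun v => w0 v * f v) (Set.Ioc 0 D) := by
  obtain ⟨B, hB⟩ := isCompact_Icc.exists_bound_of_continuousOn hf
  have h1 := (nk_int w0 D hw).1
  have h2 : AEStronglyMeasurable f (volume.restrict (Set.Ioc 0 D)) :=
    (hf.mono Set.Ioc_subset_Icc_self).aestronglyMeasurable measurableSet_Ioc
  have h3 : ∀ᵐ v ∂(volume.restrict (Set.Ioc 0 D)), ‖f v‖ ≤ B :=
    (ae_restrict_iff' measurableSet_Ioc).2
      (Filter.Eventually.of_forall fun v hv => hB v (Set.Ioc_subset_Icc_self hv))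
  exact (Integrable.bdd_mul h1 h2 h3).congr (Filter.Eventually.of_forall fun v => mul_comm _ _)

theorem UbS_intC {w0 : ℝ → ℝ} {D : ℝ} (hw : NK w0 D) {f : ℝ → ℂ}
    (hf : ContinuousOn f (Set.Icc 0 D)) :
    IntegrableOn (fun v => (w0 v : ℂ) * f v) (Set.Ioc 0 D) := by
  obtain ⟨B, hB⟩ := isCompact_Icc.exists_bound_of_continuousOn hf
  have h1 : Integrable (fun v => (w0 v : ℂ)) (volume.restrict (Set.Ioc 0 D)) :=
    Integrable.ofReal (nk_int w0 D hw).1
  have h2 : AEStronglyMeasurable f (volume.restrict (Set.Ioc 0 D)) :=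
    (hf.mono Set.Ioc_subset_Icc_self).aestronglyMeasurable measurableSet_Ioc
  have h3 : ∀ᵐ v ∂(volume.restrict (Set.Ioc 0 D)), ‖f v‖ ≤ B :=
    (ae_restrict_iff' measurableSet_Ioc).2
      (Filter.Eventually.of_forall fun v hv => hB v (Set.Ioc_subset_Icc_self hv))
  exact (Integrable.bdd_mul h1 h2 h3).congr (Filter.Eventually.of_forall fun v => mul_comm _ _)

/-- The real part of the integral. -/
theorem UbS_re {w0 : ℝ → ℝ} {D : ℝ} (hw : NK w0 D) {f : ℝ → ℂ}
    (hf : ContinuousOn f (Set.Icc 0 D)) :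
    |∫ v in Set.Ioc 0 D, w0 v * (f v).re| ≤ ‖∫ v in Set.Ioc 0 D, (w0 v : ℂ) * f v‖ := by
  have h1 := Complex.reCLM.integral_comp_comm (UbS_intC hw hf)
  have h2 : ∀ v, Complex.reCLM ((w0 v : ℂ) * f v) = w0 v * (f v).re := fun v =>
    Complex.re_ofReal_mul _ _
  simp only [h2] at h1
  rw [h1]
  exact Complex.abs_re_le_norm _

theorem UbS_contQ {l : ℂ} (hl : l.im ≠ 0) {u : ℝ} (hu : 0 < u) : ContinuousAt (QQ l) u := by
  have h1 := (qq_deriv l |l.im| (abs_pos.2 hl) (fun s _ => by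
    have h := Complex.abs_im_le_norm (l - s)
    simpa using h) u hu).continuousAt
  have h2 : ContinuousAt (fun u : ℝ => QQ l u / (u : ℂ) * (u : ℂ)) u :=
    h1.mul Complex.continuous_ofReal.continuousAt
  refine h2.congr ?_
  filter_upwards [lt_mem_nhds hu] with v hv
  exact div_mul_cancel₀ _ (Complex.ofReal_ne_zero.2 hv.ne')

theorem UbS_contR {a : ℝ} (ha : 0 < a) {T : ℝ} (hT : 1 ≤ T) :
    ContinuousOn (RR a) (Set.Icc 1 T) := by
  have h1 : IntervalIntegrable (fun t : ℝ => Real.exp (a * t) / (a * t ^ 2)) volume 1 T := by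
    refine ContinuousOn.intervalIntegrable ?_
    rw [Set.uIcc_of_le hT]
    refine ContinuousOn.div (by fun_prop) (by fun_prop) fun t ht => ?_
    have : 0 < t := lt_of_lt_of_le one_pos ht.1
    positivity
  have h2 := intervalIntegral.continuousOn_primitive_interval' h1 (Set.left_mem_uIcc)
  rw [Set.uIcc_of_le hT] at h2
  exact continuousOn_id.mul h2

theorem UbS_re_pos (hZ : ZC lam m) (i : ι) (h : (lam i).im = 0) : 0 < (lam i).re := by
  refine lt_of_le_of_ne (hZ.re0 i) fun h1 => hZ.ne i ?_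
  exact Complex.ext h1.symm h

theorem UbS_contP (hZ : ZC lam m) (i : ι) {U D : ℝ} (hU : 1 ≤ U) (hD : 0 ≤ D) :
    ContinuousOn (fun v => PP (lam i) (U + v)) (Set.Icc 0 D) := by
  by_cases h : (lam i).im = 0
  · have h1 := UbS_contR (UbS_re_pos hZ i h) (T := U + D) (by linarith)
    have h2 : ContinuousOn (fun v => RR (lam i).re (U + v)) (Set.Icc 0 D) :=
      h1.comp (by fun_prop) fun v hv => ⟨by linarith [hv.1], by linarith [hv.2]⟩
    refine (Complex.continuous_ofReal.comp_continuousOn h2).congr fun v _ => ?_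
    simp only [PP, if_pos h, Function.comp_apply]
  · intro v hv
    have h1 : ContinuousAt (QQ (lam i)) (U + v) := UbS_contQ h (by linarith [hv.1])
    have h2 : ContinuousAt (fun v => QQ (lam i) (U + v)) v :=
      ContinuousAt.comp (f := fun v => U + v) (g := QQ (lam i)) h1 (by fun_prop)
    refine (h2.continuousWithinAt).congr (fun w _ => ?_) ?_
    · simp only [PP, if_neg h]
    · simp only [PP, if_neg h]

/-- The bound. -/
noncomputable def UbS_n (lam : ι → ℂ) (T : ℝ) (i : ι) : ℝ :=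
  if (lam i).im = 0 then RR (lam i).re T else Real.exp (T / 2) / (lam i).im ^ 2

/-- The sum over the nonreal zeros. -/
noncomputable def UbS_q (lam : ι → ℂ) (m : ι → ℝ) (i : ι) : ℝ :=
  if (lam i).im = 0 then 0 else m i / (lam i).im ^ 2

theorem UbS_PP_bd (hZ : ZC lam m) (i : ι) {u T : ℝ} (hu : 1 ≤ u) (hT : u ≤ T) :
    ‖PP (lam i) u‖ ≤ UbS_n lam T i := by
  unfold PP UbS_n
  by_cases h : (lam i).im = 0
  · rw [if_pos h, if_pos h, Complex.norm_real, Real.norm_eq_abs, abs_of_nonneg]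
    · exact rr_mono _ (UbS_re_pos hZ i h) _ _ hu hT
    · have h1 := rr_mono _ (UbS_re_pos hZ i h) _ _ le_rfl hu
      have h2 : RR (lam i).re 1 = 0 := by
        unfold RR
        rw [intervalIntegral.integral_same, mul_zero]
      linarith
  · rw [if_neg h, if_neg h]
    have hu0 : 0 < u := by linarith
    refine (qq_bd (lam i) h u hu0).trans ?_
    have h1 : 0 < (lam i).im ^ 2 := by positivity
    have h2 : Real.exp ((lam i).re * u) ≤ Real.exp (T / 2) := by
      refine Real.exp_le_exp.2 ?_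
      have := mul_le_mul_of_nonneg_right (hZ.re1 i) hu0.le
      linarith
    refine div_le_div₀ (Real.exp_pos _).le h2 h1 ?_
    exact le_mul_of_one_le_right h1.le hu

theorem UbS_sumq (hZ : ZC lam m) : Summable (UbS_q lam m) := by
  obtain ⟨c1, hc1, him⟩ := im_low hZ
  refine Summable.of_norm_bounded (hZ.zd.sm.mul_left (c1 ^ 2)) fun i => ?_
  have hm : 0 ≤ m i := zero_le_one.trans (hZ.zd.one i)
  have hl : 0 < ‖lam i‖ := norm_pos_iff.2 (hZ.ne i)
  unfold UbS_q
  by_cases h : (lam i).im = 0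
  · rw [if_pos h, norm_zero]
    positivity
  · rw [if_neg h, Real.norm_eq_abs, abs_of_nonneg (by positivity)]
    have h1 : ‖lam i‖ ^ 2 ≤ c1 ^ 2 * (lam i).im ^ 2 := by
      have := pow_le_pow_left₀ hl.le (him i h) 2
      rwa [mul_pow, sq_abs] at this
    have h2 : 0 < (lam i).im ^ 2 := by positivity
    rw [← mul_div_assoc, div_le_div_iff₀ h2 (by positivity)]
    have := mul_le_mul_of_nonneg_left h1 hm
    linarith

theorem UbS_sumn (hZ : ZC lam m) (T : ℝ) : Summable (fun i => m i * UbS_n lam T i) := by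
  have h1 : Summable (fun i => Real.exp (T / 2) * UbS_q lam m i) := (UbS_sumq hZ).mul_left _
  have h2 : Summable (fun i => if (lam i).im = 0 then m i * RR (lam i).re T else 0) := by
    refine summable_of_hasFiniteSupport ((W3283l.cnt_fin hZ.zd (1 / 2)).subset fun i hi => ?_)
    have h3 : (lam i).im = 0 := by
      by_contra h3
      exact hi (if_neg h3)
    have h4 : ‖lam i‖ = |(lam i).re| := by
      have h5 : lam i = ((lam i).re : ℂ) := Complex.ext rfl h3
      rw [h5, Complex.norm_real, Real.norm_eq_abs, Complex.ofReal_re]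
    change ‖lam i‖ ≤ 1 / 2
    rw [h4, abs_of_nonneg (hZ.re0 i)]
    exact hZ.re1 i
  refine (h1.add h2).congr fun i => ?_
  unfold UbS_q UbS_n
  split_ifs <;> ring

theorem UbS_tail {f : ι → ℂ} {b : ι → ℝ} (hf : Summable f) (hb : ∀ i, ‖f i‖ ≤ b i)
    {s : Finset ι} (hs : ∀ t : Finset ι, Disjoint t s → ‖∑ i ∈ t, b i‖ < 1) :
    ‖∑' i, f i - ∑ i ∈ s, f i‖ ≤ 2 := by
  classical
  have h1 : ∀ᶠ s' in Filter.atTop, ∑ i ∈ s', f i ∈ Metric.ball (∑' i, f i) 1 :=
    hf.hasSum (Metric.ball_mem_nhds _ one_pos)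
  obtain ⟨s', h2, h3⟩ := (h1.and (Filter.eventually_ge_atTop s)).exists
  have h4 : ∑ i ∈ s', f i = ∑ i ∈ s' \ s, f i + ∑ i ∈ s, f i := (Finset.sum_sdiff h3).symm
  have h5 : ‖∑ i ∈ s' \ s, f i‖ ≤ 1 := by
    have h6 := hs (s' \ s) Finset.sdiff_disjoint
    refine (norm_sum_le _ _).trans ((Finset.sum_le_sum fun i _ => hb i).trans ?_)
    exact (le_abs_self _).trans h6.le
  have h6 : ‖∑' i, f i - ∑ i ∈ s', f i‖ < 1 := by
    rw [← dist_eq_norm, dist_comm]
    exact h2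
  calc ‖∑' i, f i - ∑ i ∈ s, f i‖ = ‖(∑' i, f i - ∑ i ∈ s', f i) + ∑ i ∈ s' \ s, f i‖ := by
        rw [h4]
        congr 1
        ring
    _ ≤ ‖∑' i, f i - ∑ i ∈ s', f i‖ + ‖∑ i ∈ s' \ s, f i‖ := norm_add_le _ _
    _ ≤ 2 := by linarith

/-- One zero. -/
theorem UbS_term (hZ : ZC lam m) (i : ι) {w0 : ℝ → ℝ} {D U t G σ : ℝ} (hw : NK w0 D)
    (hD : 0 ≤ D) (hU : 1 ≤ U) (ht : 0 ≤ t) (ht1 : t ≤ 1) (hG0 : 0 ≤ G)
    (hG : (lam i).im ≠ 0 → ∀ s : ℝ, 0 ≤ s →
      Real.exp ((lam i).re * U) * ‖hatr w0 (lam i - s)‖ ≤ G)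
    (hσ : σ = -1 ∨ (σ = 1 ∧ (lam i).im ≠ 0)) :
    σ * (m i * ∫ v in Set.Ioc 0 D, w0 v * (PP (lam i) (U + t + v) - PP (lam i) (U + v)).re) ≤
      3 * G * UbS_q lam m i := by
  have hm : 0 ≤ m i := zero_le_one.trans (hZ.zd.one i)
  have c1 := UbS_contP hZ i (U := U + t) (D := D) (by linarith) hD
  have c2 := UbS_contP hZ i (U := U) (D := D) hU hD
  unfold UbS_q
  by_cases h : (lam i).im = 0
  · have hs : σ = -1 := hσ.resolve_right fun h1 => h1.2 h
    rw [if_pos h, mul_zero, hs]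
    have h1 : 0 ≤ ∫ v in Set.Ioc 0 D,
        w0 v * (PP (lam i) (U + t + v) - PP (lam i) (U + v)).re := by
      refine setIntegral_nonneg measurableSet_Ioc fun v hv => mul_nonneg (hw.nonneg v) ?_
      simp only [PP, if_pos h, Complex.sub_re, Complex.ofReal_re]
      have := rr_mono _ (UbS_re_pos hZ i h) (U + v) (U + t + v) (by linarith [hv.1])
        (by linarith)
      linarith
    have := mul_nonneg hm h1
    linarith
  · rw [if_neg h]
    have h2 : 0 < (lam i).im ^ 2 := by positivity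
    have e1 : ∫ v in Set.Ioc 0 D, w0 v * (PP (lam i) (U + t + v) - PP (lam i) (U + v)).re =
        (∫ v in Set.Ioc 0 D, w0 v * (PP (lam i) (U + t + v)).re) -
          ∫ v in Set.Ioc 0 D, w0 v * (PP (lam i) (U + v)).re := by
      have j1 := UbS_int hw (f := fun v => (PP (lam i) (U + t + v)).re)
        (Complex.continuous_re.comp_continuousOn c1)
      have j2 := UbS_int hw (f := fun v => (PP (lam i) (U + v)).re)
        (Complex.continuous_re.comp_continuousOn c2)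
      rw [← integral_sub j1 j2]
      refine integral_congr_ae (Filter.Eventually.of_forall fun v => ?_)
      simp only [Complex.sub_re]
      ring
    have hPQ : ∀ u, PP (lam i) u = QQ (lam i) u := fun u => if_neg h
    have b1 := UbS_re hw c1
    have b2 := UbS_re hw c2
    simp only [hPQ] at b1 b2 e1 ⊢
    have hexp : Real.exp ((lam i).re * t) ≤ 2 := by
      have h3 : (lam i).re * t ≤ 1 / 2 := by
        have := mul_le_mul (hZ.re1 i) ht1 ht (by norm_num)
        linarith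
      have h4 : Real.exp (1 / 2) ≤ 2 := by
        have h5 : Real.exp (1 / 2) ^ 2 = Real.exp 1 := by
          rw [← Real.exp_nat_mul]
          norm_num
        have h6 := Real.exp_one_lt_d9
        nlinarith [Real.exp_pos (1 / 2)]
      exact (Real.exp_le_exp.2 h3).trans h4
    have d1 := ub_term w0 D hw hD (lam i) h (U + t) (by linarith) (2 * G) fun s hs => by
      rw [mul_add, Real.exp_add]
      have h3 := hG h s hs
      have h4 : 0 ≤ Real.exp ((lam i).re * U) * ‖hatr w0 (lam i - s)‖ := by positivity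
      have h5 := mul_le_mul hexp h3 h4 (by norm_num)
      linarith
    have d2 := ub_term w0 D hw hD (lam i) h U hU G (hG h)
    have d3 : 2 * G / ((lam i).im ^ 2 * (U + t)) ≤ 2 * G / (lam i).im ^ 2 :=
      div_le_div_of_nonneg_left (by linarith) h2 (le_mul_of_one_le_right h2.le (by linarith))
    have d4 : G / ((lam i).im ^ 2 * U) ≤ G / (lam i).im ^ 2 :=
      div_le_div_of_nonneg_left hG0 h2 (le_mul_of_one_le_right h2.le hU)
    obtain ⟨X, hX⟩ : ∃ X, X = ∫ v in Set.Ioc 0 D, w0 v * (QQ (lam i) (U + t + v)).re := ⟨_, rfl⟩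
    obtain ⟨Y, hY⟩ : ∃ Y, Y = ∫ v in Set.Ioc 0 D, w0 v * (QQ (lam i) (U + v)).re := ⟨_, rfl⟩
    rw [e1]
    rw [← hX] at b1 ⊢
    rw [← hY] at b2 ⊢
    have e2 : |X - Y| ≤ 3 * G / (lam i).im ^ 2 := by
      have h3 := abs_sub X Y
      have h4 : 3 * G / (lam i).im ^ 2 = 2 * G / (lam i).im ^ 2 + G / (lam i).im ^ 2 := by ring
      linarith
    have e3 : σ * (m i * (X - Y)) ≤ m i * |X - Y| := by
      rcases hσ with hs | ⟨hs, _⟩
      · rw [hs]
        have := mul_le_mul_of_nonneg_left (neg_abs_le (X - Y)) hm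
        linarith
      · rw [hs]
        have := mul_le_mul_of_nonneg_left (le_abs_self (X - Y)) hm
        linarith
    have e4 := mul_le_mul_of_nonneg_left e2 hm
    have e5 : m i * (3 * G / (lam i).im ^ 2) = 3 * G * (m i / (lam i).im ^ 2) := by ring
    linarith

/-- The mean of `e` over `[U + v, U + v + t]` against a nonnegative kernel.  By `ef_prim` at `U + v + t` and
`U + v`: `I0 e (U+v+t) - I0 e (U+v) = O(C (2U + 2v + t)) + Σ m (PP λ (U+v+t) - PP λ (U+v))`.  Multiply by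
`w0 v` and integrate over `(0, D]`; the sum over the zeros is exchanged with the integral
(`hasSum_integral_of_summable_integral_norm`; `‖PP λ u‖ ≤ e^{u/2}/(Im λ)²` by `qq_bd`, `im_low`; the real
zeros are finitely many, `W3283l.cnt_fin`, and `RR` is bounded on bounded intervals).  The nonreal terms are at most
`2 G/(Im λ)²` by `ub_term` (for `U + t` use the bound `3 G`: `e^{λ(U+t)} = e^{λU} e^{λt}`, `t ≤ 2`,
`e^{Re λ t} ≤ 3`), and the real ones have the right sign by `rr_mono`: `σ = -1`, or there are none. -/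
theorem ub_sum (hZ : ZC lam m) (A e : ℝ → ℝ) (hA : EFC lam m A)
    (he : ∀ T : ℝ, IntegrableOn e (Set.Ioc 0 T)) (C0 : ℝ) (hC0 : 0 ≤ C0)
    (hid : ∀ u : ℝ, 0 < u → |u * e u - (∫ t in Set.Ioc 0 u, e t) - A u| ≤ C0)
    (σ : ℝ) (hσ : σ = -1 ∨ (σ = 1 ∧ ∀ i, (lam i).im ≠ 0)) :
    ∃ C : ℝ, 0 ≤ C ∧ ∀ (w0 : ℝ → ℝ) (D U t G : ℝ), NK w0 D → 0 ≤ D → 1 ≤ U → D ≤ U →
      0 ≤ t → t ≤ 1 → 0 ≤ G →
      (∀ i, (lam i).im ≠ 0 → ∀ s : ℝ, 0 ≤ s →
        Real.exp ((lam i).re * U) * ‖hatr w0 (lam i - s)‖ ≤ G) →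
      σ * ∫ v in Set.Ioc 0 D, w0 v * (I0 e (U + v + t) - I0 e (U + v)) ≤
        C * (U * (∫ v in Set.Ioc 0 D, w0 v) + G) := by
  obtain ⟨C1, hC1, hP⟩ := ef_prim hZ A e hA he C0 hC0 hid
  have hq := UbS_sumq hZ
  have hm : ∀ i, 0 ≤ m i := fun i => zero_le_one.trans (hZ.zd.one i)
  have hq0 : ∀ i, 0 ≤ UbS_q lam m i := by
    intro i
    have := hm i
    unfold UbS_q
    split_ifs <;> positivity
  have hS0 : 0 ≤ ∑' i, UbS_q lam m i := tsum_nonneg hq0
  refine ⟨5 * C1 + 2 + 3 * ∑' i, UbS_q lam m i, by positivity, ?_⟩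
  intro w0 D U t G hw hD hU hDU ht ht1 hG0 hG
  have hb : Summable (fun i => 2 * (m i * UbS_n lam (U + D + t) i)) :=
    (UbS_sumn hZ (U + D + t)).mul_left 2
  obtain ⟨s, hs⟩ := summable_iff_vanishing_norm.1 hb 1 one_pos
  obtain ⟨g, hg⟩ : ∃ g : ℝ → ℝ, g = fun v => ∑ i ∈ s,
      m i * (PP (lam i) (U + t + v) - PP (lam i) (U + v)).re := ⟨_, rfl⟩
  obtain ⟨F, hF⟩ : ∃ F : ℝ → ℝ, F = fun v => I0 e (U + v + t) - I0 e (U + v) := ⟨_, rfl⟩
  have hterm : ∀ i, ContinuousOn (fun v => (PP (lam i) (U + t + v) - PP (lam i) (U + v)).re)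
      (Set.Icc 0 D) := fun i =>
    Complex.continuous_re.comp_continuousOn
      ((UbS_contP hZ i (by linarith) hD).sub (UbS_contP hZ i hU hD))
  have hgc : ContinuousOn g (Set.Icc 0 D) := by
    rw [hg]
    exact continuousOn_finsetSum _ fun i _ => (hterm i).const_smul (m i)
  have hFc : ContinuousOn F (Set.Icc 0 D) := by
    rw [hF]
    refine ContinuousOn.sub ?_ ?_
    · exact (UbS_contI he (U + D + t)).comp (by fun_prop) fun v hv =>
        ⟨by linarith [hv.1], by linarith [hv.2]⟩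
    · exact (UbS_contI he (U + D + t)).comp (by fun_prop) fun v hv =>
        ⟨by linarith [hv.1], by linarith [hv.2]⟩
  have hpt : ∀ v ∈ Set.Ioc 0 D, |F v - g v| ≤ 5 * C1 * U + 2 := by
    intro v hv
    have hv1 := hv.1
    have hv2 := hv.2
    obtain ⟨p1, p2⟩ := hP (U + v + t) (by linarith)
    obtain ⟨p3, p4⟩ := hP (U + v) (by linarith)
    have e1 : U + v + t = U + t + v := by ring
    have p5 := UbS_tail (p1.sub p3) (b := fun i => 2 * (m i * UbS_n lam (U + D + t) i))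
      (fun i => by
        have k1 := UbS_PP_bd hZ i (u := U + v + t) (T := U + D + t) (by linarith) (by linarith)
        have k2 := UbS_PP_bd hZ i (u := U + v) (T := U + D + t) (by linarith) (by linarith)
        rw [← mul_sub, norm_mul, Complex.norm_real, Real.norm_eq_abs, abs_of_nonneg (hm i)]
        have k3 := (norm_sub_le (PP (lam i) (U + v + t)) (PP (lam i) (U + v))).trans
          (add_le_add k1 k2)
        have k4 := mul_le_mul_of_nonneg_left k3 (hm i)
        linarith) hs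
    rw [p1.tsum_sub p3] at p5
    have e2 : (∑ i ∈ s, ((m i : ℂ) * PP (lam i) (U + v + t) - (m i : ℂ) * PP (lam i) (U + v))).re =
        g v := by
      rw [hg, Complex.re_sum]
      refine Finset.sum_congr rfl fun i _ => ?_
      rw [← mul_sub, Complex.re_ofReal_mul, e1]
    obtain ⟨Z, hZ'⟩ : ∃ Z, Z = ∑ i ∈ s, ((m i : ℂ) * PP (lam i) (U + v + t) -
      (m i : ℂ) * PP (lam i) (U + v)) := ⟨_, rfl⟩
    rw [← hZ'] at p5 e2
    have e3 : F v - g v = ((I0 e (U + v + t) : ℂ) - (I0 e (U + v) : ℂ) - Z).re := by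
      rw [Complex.sub_re, Complex.sub_re, e2, Complex.ofReal_re, Complex.ofReal_re, hF]
    rw [e3]
    refine (Complex.abs_re_le_norm _).trans ?_
    have e4 : (I0 e (U + v + t) : ℂ) - (I0 e (U + v) : ℂ) - Z =
        ((I0 e (U + v + t) : ℂ) - ∑' i, (m i : ℂ) * PP (lam i) (U + v + t)) -
        ((I0 e (U + v) : ℂ) - ∑' i, (m i : ℂ) * PP (lam i) (U + v)) +
        (∑' i, (m i : ℂ) * PP (lam i) (U + v + t) - ∑' i, (m i : ℂ) * PP (lam i) (U + v) - Z) := by
      ring
    rw [e4]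
    refine (norm_add_le _ _).trans ?_
    have e5 := norm_sub_le ((I0 e (U + v + t) : ℂ) - ∑' i, (m i : ℂ) * PP (lam i) (U + v + t))
      ((I0 e (U + v) : ℂ) - ∑' i, (m i : ℂ) * PP (lam i) (U + v))
    have e6 : C1 * (U + v + t) ≤ C1 * (3 * U) := mul_le_mul_of_nonneg_left (by linarith) hC1
    have e7 : C1 * (U + v) ≤ C1 * (2 * U) := mul_le_mul_of_nonneg_left (by linarith) hC1
    linarith
  have hW0 : 0 ≤ ∫ v in Set.Ioc 0 D, w0 v :=
    setIntegral_nonneg measurableSet_Ioc fun v _ => hw.nonneg v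
  have i1 := UbS_int hw hFc
  have i2 := UbS_int hw hgc
  have h1 : |∫ v in Set.Ioc 0 D, w0 v * (F v - g v)| ≤
      (5 * C1 * U + 2) * ∫ v in Set.Ioc 0 D, w0 v := by
    rw [← Real.norm_eq_abs, ← integral_const_mul]
    refine norm_integral_le_of_norm_le (((nk_int w0 D hw).1).const_mul _) ?_
    refine (ae_restrict_iff' measurableSet_Ioc).2 (Filter.Eventually.of_forall fun v hv => ?_)
    rw [norm_mul, Real.norm_eq_abs, Real.norm_eq_abs, abs_of_nonneg (hw.nonneg v), mul_comm]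
    exact mul_le_mul_of_nonneg_right (hpt v hv) (hw.nonneg v)
  have h2 : ∫ v in Set.Ioc 0 D, w0 v * F v =
      (∫ v in Set.Ioc 0 D, w0 v * (F v - g v)) + ∫ v in Set.Ioc 0 D, w0 v * g v := by
    have h3 : ∫ v in Set.Ioc 0 D, w0 v * (F v - g v) =
        (∫ v in Set.Ioc 0 D, w0 v * F v) - ∫ v in Set.Ioc 0 D, w0 v * g v := by
      rw [← integral_sub i1 i2]
      simp only [mul_sub]
    linarith
  have h3 : ∫ v in Set.Ioc 0 D, w0 v * g v = ∑ i ∈ s,
      m i * ∫ v in Set.Ioc 0 D, w0 v * (PP (lam i) (U + t + v) - PP (lam i) (U + v)).re := by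
    simp only [← integral_const_mul]
    rw [← integral_finsetSum s fun i _ => (UbS_int hw (hterm i)).const_mul (m i)]
    refine integral_congr_ae (Filter.Eventually.of_forall fun v => ?_)
    simp only [hg, Finset.mul_sum]
    exact Finset.sum_congr rfl fun i _ => by ring
  have h4 : σ * ∫ v in Set.Ioc 0 D, w0 v * g v ≤ 3 * G * ∑' i, UbS_q lam m i := by
    rw [h3, Finset.mul_sum]
    have h5 : ∀ i ∈ s, σ * (m i * ∫ v in Set.Ioc 0 D,
        w0 v * (PP (lam i) (U + t + v) - PP (lam i) (U + v)).re) ≤ 3 * G * UbS_q lam m i :=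
      fun i _ => UbS_term hZ i hw hD hU ht ht1 hG0 (hG i)
        (hσ.imp_right fun h6 => ⟨h6.1, h6.2 i⟩)
    refine (Finset.sum_le_sum h5).trans ?_
    rw [← Finset.mul_sum]
    exact mul_le_mul_of_nonneg_left (hq.sum_le_tsum s fun i _ => hq0 i) (by positivity)
  have h5 : σ * ∫ v in Set.Ioc 0 D, w0 v * (F v - g v) ≤
      |∫ v in Set.Ioc 0 D, w0 v * (F v - g v)| := by
    rcases hσ with hs | ⟨hs, _⟩
    · rw [hs]
      have := neg_abs_le (∫ v in Set.Ioc 0 D, w0 v * (F v - g v))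
      linarith
    · rw [hs, one_mul]
      exact le_abs_self _
  have h6 : σ * ∫ v in Set.Ioc 0 D, w0 v * (I0 e (U + v + t) - I0 e (U + v)) =
      σ * (∫ v in Set.Ioc 0 D, w0 v * (F v - g v)) + σ * ∫ v in Set.Ioc 0 D, w0 v * g v := by
    rw [← mul_add, ← h2, hF]
  rw [h6]
  have h7 : (2 : ℝ) * ∫ v in Set.Ioc 0 D, w0 v ≤ 2 * (U * ∫ v in Set.Ioc 0 D, w0 v) := by
    have := mul_le_mul_of_nonneg_right hU hW0
    linarith
  have h8 : 0 ≤ (∑' i, UbS_q lam m i) * (U * ∫ v in Set.Ioc 0 D, w0 v) :=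
    mul_nonneg hS0 (mul_nonneg (by linarith) hW0)
  have h9 : 0 ≤ (5 * C1 + 2) * G := by positivity
  have h10 : (5 * C1 + 2 + 3 * ∑' i, UbS_q lam m i) * (U * (∫ v in Set.Ioc 0 D, w0 v) + G) =
      5 * C1 * U * (∫ v in Set.Ioc 0 D, w0 v) + 2 * (U * ∫ v in Set.Ioc 0 D, w0 v) +
      3 * ((∑' i, UbS_q lam m i) * (U * ∫ v in Set.Ioc 0 D, w0 v)) + (5 * C1 + 2) * G +
      3 * G * ∑' i, UbS_q lam m i := by ring
  rw [h10]
  have h11 : (5 * C1 * U + 2) * (∫ v in Set.Ioc 0 D, w0 v) =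
      5 * C1 * U * (∫ v in Set.Ioc 0 D, w0 v) + 2 * ∫ v in Set.Ioc 0 D, w0 v := by ring
  linarith

end W3283p
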