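import Pool.Agent.W_3283e1_sh.Clu
import Pool.Agent.W_3283e1_sh.Lb
import Pool.Agent.W_3283e1_sh.Cmb
import Pool.Agent.W_3283e1_sh.KDif
import Pool.Agent.W_3283e1_sh.UbS

set_option autoImplicit false

namespace W3283p

open MeasureTheory W3283v

variable {ι : Type} {lam : ι → ℂ} {m : ι → ℝ}

/-- A width of the boxes which kills all the nonreal zeros. -/
theorem Core_h (hZ : ZC lam m) : ∃ h : ℝ, 6 ≤ h ∧ ∀ i, (lam i).im ≠ 0 → 6 ≤ |(lam i).im| * h := by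
  obtain ⟨c1, hc1, him⟩ := im_low hZ
  set S : ℝ := ∑' i, m i / ‖lam i‖ ^ 2 with hS
  have hS0 : 0 ≤ S := tsum_nonneg fun i => by
    have := hZ.zd.one i
    positivity
  refine ⟨6 + 6 * c1 * (1 + S), by nlinarith, fun i hi => ?_⟩
  have hpos : 0 < ‖lam i‖ := norm_pos_iff.2 (hZ.ne i)
  have h1 : m i / ‖lam i‖ ^ 2 ≤ S := hZ.zd.sm.le_tsum i fun j _ => by
    have := hZ.zd.one j
    positivity
  have h2 : 1 ≤ S * ‖lam i‖ ^ 2 := by
    rw [div_le_iff₀ (by positivity)] at h1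
    exact (hZ.zd.one i).trans h1
  have h3 : 1 ≤ ‖lam i‖ * (1 + S) := by
    rcases le_total 1 ‖lam i‖ with h | h
    · nlinarith
    · nlinarith [mul_nonneg hS0 (mul_nonneg hpos.le (sub_nonneg.2 h))]
  have h4 := him i hi
  have h5 : 0 ≤ |(lam i).im| := abs_nonneg _
  have h6 : ‖lam i‖ * (1 + S) ≤ c1 * |(lam i).im| * (1 + S) :=
    mul_le_mul_of_nonneg_right h4 (by linarith)
  nlinarith

theorem Core_int (n p : ℕ) (hp : 1 ≤ p) (h : ℝ) (hh : 0 < h) (S : Finset ℂ)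
    (hS : ∀ y ∈ S, y.re ≤ 1 / 2) (a : ℝ) (ha : 0 ≤ a) (w : ℝ → ℝ) (D : ℝ) (hw : NK w D)
    (hhat : ∀ z : ℂ, hatr w z = DM S z * Ph n p h (z - ((a : ℝ) : ℂ))) :
    0 ≤ ∫ v in Set.Ioc 0 D, w v ∧ ∫ v in Set.Ioc 0 D, w v ≤ 4 ^ S.card := by
  refine ⟨integral_nonneg fun v => hw.nonneg v, ?_⟩
  have h1 := (nk_int w D hw).2
  have h2 : ‖hatr w 0‖ ≤ 4 ^ S.card := by
    rw [hhat 0, norm_mul]
    have h3 := (dp_up S hS 0 (by norm_num)).2
    have h4 := Ph_bd0 n p hp h hh (0 - ((a : ℝ) : ℂ))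
    have h5 : max 0 (0 - ((a : ℝ) : ℂ)).re = 0 := by
      rw [max_eq_left]
      simp only [Complex.sub_re, Complex.zero_re, Complex.ofReal_re]
      linarith
    rw [h5, zero_mul, Real.exp_zero] at h4
    calc ‖DM S 0‖ * ‖Ph n p h (0 - ((a : ℝ) : ℂ))‖ ≤ 4 ^ S.card * 1 :=
          mul_le_mul h3 h4 (norm_nonneg _) (by positivity)
      _ = 4 ^ S.card := mul_one _
  rw [← h1, Complex.norm_real, Real.norm_eq_abs] at h2
  exact (le_abs_self _).trans h2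

theorem Core_num (C1 C2 C0 X N4 q P τ E E1 r F dp : ℝ) (hC1 : 0 ≤ C1) (hC2 : 0 ≤ C2)
    (hC0 : 0 ≤ C0) (hN4 : 1 ≤ N4) (hq : 0 ≤ q) (hP : 1 ≤ P) (hτ : 0 ≤ τ) (hE : 0 < E)
    (hE1 : E ≤ E1) (hr : 0 < r) (hrP : P * r ≤ 1) (hF : F * E = r ^ 2 * dp)
    (h : F / 2 ≤ C1 * N4 * (q / E + 1) + (2 * P * (C2 * (P * N4 + N4 * (X * q) / E)) +
      (8 * P * r * τ + 2 * C0 * r) * N4)) (hX : 0 ≤ X) (hr1 : r ≤ 1) :
    r ^ 2 * dp ≤ 2 * (C1 + 2 * C2 * (1 + X) + 8 + 2 * C0) * N4 *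
      ((P ^ 2 + P * τ) * E1 + P * q) := by
  have h1 : F * E / 2 ≤ C1 * N4 * (q + E) + (2 * P * (C2 * (P * N4 * E + N4 * (X * q))) +
      (8 * P * r * τ + 2 * C0 * r) * N4 * E) := by
    have h2 := mul_le_mul_of_nonneg_right h hE.le
    have e1 : F / 2 * E = F * E / 2 := by ring
    have e2 : (C1 * N4 * (q / E + 1) + (2 * P * (C2 * (P * N4 + N4 * (X * q) / E)) +
        (8 * P * r * τ + 2 * C0 * r) * N4)) * E = C1 * N4 * (q + E) +
        (2 * P * (C2 * (P * N4 * E + N4 * (X * q))) + (8 * P * r * τ + 2 * C0 * r) * N4 * E) := by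
      field_simp
    rw [e1, e2] at h2
    exact h2
  rw [← hF]
  have hE0 : 0 ≤ E1 := hE.le.trans hE1
  have hPP : 1 ≤ P ^ 2 := by nlinarith
  have hPq : q ≤ P * q := by nlinarith
  have hPE : E ≤ P ^ 2 * E1 := hE1.trans (by nlinarith)
  have hτE : τ * E ≤ P * τ * E1 := by
    have := mul_le_mul_of_nonneg_left hE1 hτ
    nlinarith [mul_nonneg hτ hE0]
  have k1 : C1 * N4 * (q + E) ≤ C1 * N4 * ((P ^ 2 + P * τ) * E1 + P * q) := by
    refine mul_le_mul_of_nonneg_left ?_ (by positivity)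
    nlinarith [mul_nonneg (mul_nonneg (by linarith : (0 : ℝ) ≤ P) hτ) hE0]
  have k2 : 2 * P * (C2 * (P * N4 * E + N4 * (X * q))) ≤
      2 * C2 * (1 + X) * N4 * ((P ^ 2 + P * τ) * E1 + P * q) := by
    have e1 : 2 * P * (C2 * (P * N4 * E + N4 * (X * q))) =
        2 * C2 * N4 * (P ^ 2 * E + X * (P * q)) := by ring
    have e2 : 2 * C2 * (1 + X) * N4 * ((P ^ 2 + P * τ) * E1 + P * q) =
        2 * C2 * N4 * ((1 + X) * ((P ^ 2 + P * τ) * E1 + P * q)) := by ring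
    rw [e1, e2]
    refine mul_le_mul_of_nonneg_left ?_ (by positivity)
    have a1 : 0 ≤ P * τ * E1 := by positivity
    have a2 : 0 ≤ P * q := by positivity
    have a3 : 0 ≤ P ^ 2 * E1 := by positivity
    have a4 : P ^ 2 * E ≤ P ^ 2 * E1 := mul_le_mul_of_nonneg_left hE1 (by positivity)
    nlinarith [mul_nonneg hX a1, mul_nonneg hX a2, mul_nonneg hX a3]
  have k3 : (8 * P * r * τ + 2 * C0 * r) * N4 * E ≤
      (8 + 2 * C0) * N4 * ((P ^ 2 + P * τ) * E1 + P * q) := by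
    have a1 : 0 ≤ P * τ * E1 := by positivity
    have a2 : 0 ≤ P * q := by positivity
    have a3 : 0 ≤ P ^ 2 * E1 := by positivity
    have b1 : 8 * P * r * τ * E ≤ 8 * (τ * E) := by
      have : P * r * (τ * E) ≤ 1 * (τ * E) := mul_le_mul_of_nonneg_right hrP (by positivity)
      linarith
    have b2 : 2 * C0 * r * E ≤ 2 * C0 * (P ^ 2 * E1) := by
      have : r * E ≤ P ^ 2 * E1 := by
        refine le_trans ?_ hPE
        nlinarith
      nlinarith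
    have e1 : (8 * P * r * τ + 2 * C0 * r) * N4 * E =
        N4 * (8 * P * r * τ * E + 2 * C0 * r * E) := by ring
    have e2 : (8 + 2 * C0) * N4 * ((P ^ 2 + P * τ) * E1 + P * q) =
        N4 * ((8 + 2 * C0) * ((P ^ 2 + P * τ) * E1 + P * q)) := by ring
    rw [e1, e2]
    refine mul_le_mul_of_nonneg_left ?_ (by linarith)
    have a5 : 0 ≤ C0 * (P * τ * E1) := mul_nonneg hC0 a1
    have a6 : 0 ≤ C0 * (P * q) := mul_nonneg hC0 a2
    nlinarith
  have e3 : 2 * (C1 + 2 * C2 * (1 + X) + 8 + 2 * C0) * N4 *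
      ((P ^ 2 + P * τ) * E1 + P * q) = 2 * (C1 * N4 * ((P ^ 2 + P * τ) * E1 + P * q) +
      2 * C2 * (1 + X) * N4 * ((P ^ 2 + P * τ) * E1 + P * q) +
      (8 + 2 * C0) * N4 * ((P ^ 2 + P * τ) * E1 + P * q)) := by ring
  rw [e3]
  linarith

/-- The inequality at the scale `p`, if `σ e ≥ -τ` on the window.  `h = max 6 (6 c1)` with `c1`, `x0` such that
`|Im λ| h ≥ 6` for all nonreal zeros (`im_low` and a lower bound of `‖λ‖`, which exists by
`W3283l.cnt_fin`).  `best_exists`, `cluster`, `kdif` (`K`, `w`), `lb` with `F0 = e^{λ0 p} r² DP S λ0`,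
`r = 1/p³`, `cmb` with `U = p`, `D = n h + 2 + |S|/20`, `ub_sum` with `t = 2r`,
`G = 4^|S| e^4 (1/3)^n e^{Re λ0 p}` (`lemX'`, `dp_up`: `hatr w (λ - s) = DM S (λ-s) Ph (λ - s - Re λ0)`),
`∫ w = hatr w 0 ≤ 4^|S|`; `4^|S| ≤ 4^N`.  Divide by `e^{Re λ0 p}` and use `best_re`
(`Re λ0 ≥ Re λ1 - |Im λ1|/p²`). -/
theorem core (hZ : ZC lam m) (hL : LCnt lam m) (A e : ℝ → ℝ) (hA : EFC lam m A)
    (he : ∀ T : ℝ, IntegrableOn e (Set.Ioc 0 T)) (C0 : ℝ) (hC0 : 0 ≤ C0)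
    (hid : ∀ u : ℝ, 0 < u → |u * e u - (∫ t in Set.Ioc 0 u, e t) - A u| ≤ C0)
    (σ : ℝ) (hσ : σ = -1 ∨ (σ = 1 ∧ ∀ i, (lam i).im ≠ 0)) (i1 : ι) :
    ∃ (C h Cn : ℝ) (p0 : ℕ), 0 < C ∧ 6 ≤ h ∧ 0 < Cn ∧ ∀ p n : ℕ, p0 ≤ p →
      n * h + 5 + (⌊Cn * Real.log p⌋₊ : ℝ) / 20 ≤ p → ∀ τ : ℝ, 0 ≤ τ →
      (∀ v : ℝ, p ≤ v → v ≤ p + (n * h + 4 + (⌊Cn * Real.log p⌋₊ : ℝ) / 20) → -τ ≤ σ * e v) →
      (1 / (p : ℝ) ^ 3) ^ 2 *
          ((1 / (p : ℝ) ^ 2) / ((Real.log p) ^ 2) ^ ⌊Cn * Real.log p⌋₊ / 40) ^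
            ⌊Cn * Real.log p⌋₊ ≤
        C * 4 ^ ⌊Cn * Real.log p⌋₊ *
          (((p : ℝ) ^ 2 + p * τ) *
            Real.exp (-((lam i1).re * p - |(lam i1).im| / p)) + p * (1 / 3) ^ n) := by
  obtain ⟨h, hh, him⟩ := Core_h hZ
  obtain ⟨Cn, p0, hCn, hp0, hclu⟩ := cluster hZ hL i1
  obtain ⟨C1, hC1, hlb⟩ := lb hZ A hA
  obtain ⟨C2, hC2, hub⟩ := ub_sum hZ A e hA he C0 hC0 hid σ hσ
  have hh0 : 0 < h := by linarith
  have hAi : ∀ T : ℝ, IntegrableOn A (Set.Ioc 0 T) := fun T => GrA_int A hA 0 T le_rfl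
  refine ⟨2 * (C1 + 2 * C2 * (1 + Real.exp 4) + 8 + 2 * C0), h, Cn, p0, by positivity, hh, hCn,
    fun p n hp hsz τ hτ hpos => ?_⟩
  set N : ℕ := ⌊Cn * Real.log p⌋₊ with hN
  have hp100 : 100 ≤ p := hp0.trans hp
  have hp1 : 1 ≤ p := by omega
  have hpR : (100 : ℝ) ≤ p := by exact_mod_cast hp100
  obtain ⟨i0, hB⟩ := best_exists hZ i1 p hp1
  obtain ⟨S, Nr, hSN, hi0, hcov, hSre, hdp, hnear⟩ := hclu p hp i0 hB
  obtain ⟨K, w, B, hB0, hKB, hNK, hKw, hhK, hhw⟩ := kdif n p hp1 h hh0 (lam i0) (hZ.re0 i0) S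
  have hSN' : (S.card : ℝ) ≤ N := by exact_mod_cast hSN
  have hSc : (0 : ℝ) ≤ S.card := Nat.cast_nonneg _
  have hn0 : (0 : ℝ) ≤ n * h := by positivity
  set D : ℝ := n * h + 2 + (S.card : ℝ) / 20 with hD
  have hD0 : 0 ≤ D := by positivity
  have hD3 : D + 3 ≤ p := by
    rw [hD]
    linarith
  have hnh : n * h + 2 ≤ p := by
    have : 0 ≤ (N : ℝ) / 20 := by positivity
    linarith
  set r : ℝ := 1 / (p : ℝ) ^ 3 with hr
  have hr0 : 0 < r := by positivity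
  have hPr : p * r ≤ 1 / 100 := by
    rw [hr, mul_one_div, div_le_div_iff₀ (by positivity) (by norm_num)]
    nlinarith [sq_nonneg ((p : ℝ) - 100)]
  have hr1 : r ≤ 1 / 100 := by nlinarith
  set θ0 : ℝ := (lam i0).re with hθ0
  set F0 : ℂ := Complex.exp (lam i0 * p) * (((r : ℝ) : ℂ) ^ 2 * DP S (lam i0)) with hF0
  have h1 := hlb p n h r i0 S Nr K w B F0 hp1 hh hnh hr0 (by linarith) hB hSre hB0 hKB hNK hKw
    hhK hhw hi0 hcov (fun i hi => hnear i hi n h hh0 hnh)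
  have hσ' : σ = 1 ∨ σ = -1 := by
    rcases hσ with h | ⟨h, -⟩
    · exact Or.inr h
    · exact Or.inl h
  have h2 := cmb A e hAi he C0 hC0 hid K w D B hKB hNK hD0 hKw r hr0 (by linarith) p (by linarith)
    hD3 σ τ hσ' hτ (fun v hv hv' => hpos v hv (by
      refine hv'.trans ?_
      rw [hD]
      linarith))
  obtain ⟨hI0, hI1⟩ := Core_int n p hp1 h hh0 S hSre θ0 (hZ.re0 i0) w D hNK hhw
  have h3 := hub w D p (2 * r) (4 ^ S.card * (Real.exp 4 * (1 / 3) ^ n) * Real.exp (θ0 * p)) hNK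
    hD0 (by linarith) (by linarith) (by positivity) (by linarith) (by positivity)
    (fun i hi s hs => by
      have g1 := lemX' p hp1 i0 hB n h hh hnh i (him i hi) s hs
      have g2 := (dp_up S hSre (lam i - s) (by
        rw [Complex.sub_re, Complex.ofReal_re]
        linarith [hZ.re1 i])).2
      rw [hhw, norm_mul]
      have e1 : Real.exp ((lam i).re * p) =
          Real.exp (((lam i).re - (lam i0).re) * p) * Real.exp (θ0 * p) := by
        rw [← Real.exp_add]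
        congr 1
        rw [hθ0]
        ring
      rw [e1]
      calc Real.exp (((lam i).re - (lam i0).re) * p) * Real.exp (θ0 * p) *
            (‖DM S (lam i - s)‖ * ‖Ph n p h (lam i - s - (((lam i0).re : ℝ) : ℂ))‖)
          = ‖DM S (lam i - s)‖ * (Real.exp (((lam i).re - (lam i0).re) * p) *
              ‖Ph n p h (lam i - s - (((lam i0).re : ℝ) : ℂ))‖) * Real.exp (θ0 * p) := by ring
        _ ≤ 4 ^ S.card * (Real.exp 4 * (1 / 3) ^ n) * Real.exp (θ0 * p) := by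
            refine mul_le_mul_of_nonneg_right ?_ (Real.exp_pos _).le
            exact mul_le_mul g2 g1 (by positivity) (by positivity))
  have h4N : (4 : ℝ) ^ S.card ≤ 4 ^ N := pow_le_pow_right₀ (by norm_num) hSN
  have hFn : ‖F0‖ = Real.exp (θ0 * p) * (r ^ 2 * ‖DP S (lam i0)‖) := by
    rw [hF0, norm_mul, norm_mul, norm_pow, Complex.norm_real, Real.norm_eq_abs, abs_of_pos hr0,
      Complex.norm_exp]
    congr 2
    rw [Complex.mul_re, Complex.natCast_re, Complex.natCast_im, mul_zero, sub_zero]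
  have hEE : Real.exp (θ0 * p) * Real.exp (-(θ0 * p)) = 1 := by
    rw [← Real.exp_add, add_neg_cancel, Real.exp_zero]
  have hEinv : Real.exp (θ0 * p) = 1 / Real.exp (-(θ0 * p)) := by
    rw [eq_div_iff (Real.exp_pos _).ne']
    exact hEE
  have hfin := Core_num C1 C2 C0 (Real.exp 4) (4 ^ N) ((1 / 3) ^ n) p τ (Real.exp (-(θ0 * p)))
    (Real.exp (-((lam i1).re * p - |(lam i1).im| / p))) r ‖F0‖ ‖DP S (lam i0)‖ hC1 hC2 hC0
    (one_le_pow₀ (by norm_num)) (by positivity) (by linarith) hτ (Real.exp_pos _) (by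
      apply Real.exp_le_exp.2
      have g1 := best_re hp1 hB i1
      have g2 : ((lam i1).re - |(lam i1).im| / (p : ℝ) ^ 2) * p ≤ θ0 * p :=
        mul_le_mul_of_nonneg_right g1 (by linarith)
      have g3 : ((lam i1).re - |(lam i1).im| / (p : ℝ) ^ 2) * p =
          (lam i1).re * p - |(lam i1).im| / p := by
        have : (p : ℝ) ≠ 0 := by linarith
        field_simp
      linarith) hr0 (by linarith) (by
      rw [hFn, mul_comm (Real.exp (θ0 * p)), mul_assoc, hEE, mul_one]) ?_ (Real.exp_pos _).le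
    (by linarith)
  · refine le_trans ?_ hfin
    exact mul_le_mul_of_nonneg_left hdp (by positivity)
  · refine h1.trans (add_le_add ?_ (h2.trans (add_le_add ?_ ?_)))
    · rw [hEinv]
      have e1 : (1 / 3 : ℝ) ^ n * (1 / Real.exp (-(θ0 * p))) + 1 =
          (1 / 3) ^ n / Real.exp (-(θ0 * p)) + 1 := by ring
      rw [e1]
      refine mul_le_mul_of_nonneg_right (mul_le_mul_of_nonneg_left h4N hC1) (by positivity)
    · refine mul_le_mul_of_nonneg_left (h3.trans ?_) (by positivity)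
      refine mul_le_mul_of_nonneg_left (add_le_add ?_ ?_) hC2
      · exact mul_le_mul_of_nonneg_left (hI1.trans h4N) (by positivity)
      · rw [hEinv]
        have e1 : (4 : ℝ) ^ S.card * (Real.exp 4 * (1 / 3) ^ n) * (1 / Real.exp (-(θ0 * p))) =
            4 ^ S.card * ((Real.exp 4 * (1 / 3) ^ n) / Real.exp (-(θ0 * p))) := by ring
        have e2 : (4 : ℝ) ^ N * (Real.exp 4 * (1 / 3) ^ n) / Real.exp (-(θ0 * p)) =
            4 ^ N * ((Real.exp 4 * (1 / 3) ^ n) / Real.exp (-(θ0 * p))) := by ring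
        rw [e1, e2]
        exact mul_le_mul_of_nonneg_right h4N (by positivity)
    · exact mul_le_mul_of_nonneg_left (hI1.trans h4N) (by positivity)

end W3283p
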