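import Pool.Agent.W_3283e1_sh.Defs

set_option autoImplicit false

namespace W3283p

open MeasureTheory W3283v

/-- The second difference: as `ker_two` of `W_3283e1_v3.Ker`, for the explicit function `D2 r K`
(`D2 r K v = q1 (v - r) - q1 v`, `q1 v = K (v - r) - K v`; `Ker_dif_kb`, `Ker_dif_hat` twice with
`c = 1`; the integral and the first moment by translation invariance, as there). -/
theorem d2_kb (K : ℝ → ℂ) (D B : ℝ) (hK : KB K D B) (hD : 0 ≤ D) (r : ℝ) (hr : 0 ≤ r) :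
    KB (D2 r K) (D + 2 * r) (4 * B) ∧ ∫ v : ℝ, D2 r K v = 0 ∧ ∫ v : ℝ, D2 r K v * v = 0 ∧
      ∀ z : ℂ, hat (D2 r K) z = (Complex.exp (z * r) - 1) ^ 2 * hat K z := by
  obtain ⟨q1, hq1⟩ : ∃ q1 : ℝ → ℂ, q1 = fun v => K (v - r) - 1 * K v := ⟨_, rfl⟩
  have hk1 : KB q1 (D + r) ((1 + ‖(1 : ℂ)‖) * B) := by
    rw [hq1]
    exact Ker_dif_kb hK r hr 1
  have hh1 : ∀ w : ℂ, hat q1 w = (Complex.exp (w * r) - 1) * hat K w := by
    intro w
    rw [hq1]
    exact Ker_dif_hat hK r 1 w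
  have hk2 := Ker_dif_kb hk1 r hr 1
  have hh2 := fun w : ℂ => Ker_dif_hat hk1 r 1 w
  have h10 : ∫ v : ℝ, q1 v = 0 := by
    rw [Ker_int_eq_hat, hh1, zero_mul, Complex.exp_zero, sub_self, zero_mul]
  have hD2 : D2 r K = fun v => q1 (v - r) - 1 * q1 v := by
    funext v
    rw [hq1]
    unfold D2
    have e1 : v - 2 * r = v - r - r := by ring
    rw [e1]
    ring
  rw [hD2]
  refine ⟨?_, ?_, ?_, ?_⟩
  · have e1 : D + r + r = D + 2 * r := by ring
    have e2 : (1 + ‖(1 : ℂ)‖) * ((1 + ‖(1 : ℂ)‖) * B) = 4 * B := by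
      rw [norm_one]
      ring
    rw [e1, e2] at hk2
    exact hk2
  · rw [Ker_int_eq_hat, hh2, zero_mul, Complex.exp_zero, sub_self, zero_mul]
  · have h1 : ∀ v : ℝ, (q1 (v - r) - 1 * q1 v) * (v : ℂ) =
        q1 (v - r) * (v : ℂ) - q1 v * (v : ℂ) := by
      intro v
      ring
    simp only [h1]
    have i0 : Integrable (fun v : ℝ => q1 v * (v : ℂ)) :=
      kb_int hk1 (fun v : ℝ => (v : ℂ)) (by fun_prop)
    have i1 : Integrable (fun v : ℝ => q1 v * (r : ℂ)) :=
      kb_int hk1 (fun _ : ℝ => (r : ℂ)) (by fun_prop)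
    rw [integral_sub (Ker_shift_int hk1 (fun v : ℝ => (v : ℂ)) (by fun_prop) r) i0,
      Ker_shift (fun v : ℝ => (v : ℂ)) r]
    have h2 : ∀ v : ℝ, q1 v * ((v + r : ℝ) : ℂ) = q1 v * (v : ℂ) + q1 v * (r : ℂ) := by
      intro v
      push_cast
      ring
    simp only [h2]
    rw [integral_add i0 i1, integral_mul_const, h10, zero_mul, add_zero, sub_self]
  · intro w
    rw [hh2, hh1]
    ring

theorem D2k_int {w : ℝ → ℝ} {D : ℝ} (hw : NK w D) : Integrable w := by
  have hs : Function.support w ⊆ Set.Icc 0 D := by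
    intro v hv
    rw [Function.mem_support] at hv
    constructor
    · by_contra h0
      exact hv (hw.neg v (not_le.1 h0))
    · by_contra h0
      exact hv (hw.pos v (not_le.1 h0))
  rw [← integrableOn_iff_integrable_of_support_subset hs]
  obtain ⟨B, hB⟩ := hw.bd
  refine Measure.integrableOn_of_bounded (M := B) measure_Icc_lt_top.ne
    hw.meas.aestronglyMeasurable (Filter.Eventually.of_forall fun v => ?_)
  rw [Real.norm_of_nonneg (hw.nonneg v)]
  exact hB v

/-- `∫ ‖D2 r K‖ ≤ 4 ∫ w` if `‖K‖ ≤ w`. -/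
theorem d2_norm (K : ℝ → ℂ) (w : ℝ → ℝ) (D B : ℝ) (hK : KB K D B) (hw : NK w D) (hD : 0 ≤ D)
    (hKw : ∀ v : ℝ, ‖K v‖ ≤ w v) (r : ℝ) (hr : 0 ≤ r) :
    ∫ v in Set.Ioc 0 (D + 2 * r), ‖D2 r K v‖ ≤ 4 * ∫ v in Set.Ioc 0 D, w v := by
  have hi := D2k_int hw
  have hi2 : Integrable fun v => ‖D2 r K v‖ := by
    have h1 := (kb_int (d2_kb K D B hK hD r hr).1 (fun _ => 1) continuous_const).norm
    simpa only [mul_one] using h1
  have hR : ∫ v in Set.Ioc 0 D, w v = ∫ v, w v := by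
    refine setIntegral_eq_integral_of_ae_compl_eq_zero ?_
    have h0 : ∀ᵐ v : ℝ, v ∈ ({0} : Set ℝ)ᶜ := compl_mem_ae_iff.2 (measure_singleton 0)
    filter_upwards [h0] with v hv hv'
    rw [Set.mem_Ioc, not_and_or, not_lt, not_le] at hv'
    rcases hv' with h | h
    · exact hw.neg v (lt_of_le_of_ne h hv)
    · exact hw.pos v h
  have i1 : Integrable fun v => w (v - 2 * r) := hi.comp_sub_right _
  have i2 : Integrable fun v => w (v - r) := hi.comp_sub_right _
  have e1 : ∫ v, w (v - 2 * r) = ∫ v, w v := integral_sub_right_eq_self w (2 * r)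
  have e2 : ∫ v, w (v - r) = ∫ v, w v := integral_sub_right_eq_self w r
  have hle : ∫ v, ‖D2 r K v‖ ≤ ∫ v, ((w (v - 2 * r) + 2 * w (v - r)) + w v) := by
    refine integral_mono hi2 ((i1.add (i2.const_mul 2)).add hi) fun v => ?_
    show ‖K (v - 2 * r) - 2 * K (v - r) + K v‖ ≤ (w (v - 2 * r) + 2 * w (v - r)) + w v
    refine (norm_add_le _ _).trans (add_le_add ((norm_sub_le _ _).trans
      (add_le_add (hKw _) ?_)) (hKw _))
    rw [norm_mul, Complex.norm_two]
    exact mul_le_mul_of_nonneg_left (hKw _) (by norm_num)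
  have e3 : ∫ v, ((w (v - 2 * r) + 2 * w (v - r)) + w v) = 4 * ∫ v, w v := by
    have i12 : Integrable fun v => w (v - 2 * r) + 2 * w (v - r) := i1.add (i2.const_mul 2)
    rw [integral_add i12 hi, integral_add i1 (i2.const_mul 2), integral_const_mul, e1, e2]
    ring
  rw [hR, ← e3]
  refine le_trans ?_ hle
  exact setIntegral_le_integral hi2 (Filter.Eventually.of_forall fun v => norm_nonneg _)

end W3283p
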