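import Pool.Agent.W_3283e1_v3.Ev
import Pool.Agent.W_3283e1_v3.Ker

set_option autoImplicit false

/-! Short intervals `[X, X exp ((log log X)^3)]` for the BSD product (method of Pintz).  Notation of
`W_3283e1_v3`: `lam i` the zeros (one of each pair `± λ`, `0 ≤ Re λ ≤ 1/2`), `m i` the multiplicities,
`A` a function with the explicit formula `∫_0^u A = Σ 2m/λ² (cosh λu - 1) + c3 u - Om1 u`. -/

namespace W3283p

open MeasureTheory W3283v

variable {ι : Type}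

/-- `(e^z - 1)/z`. -/
noncomputable def ph (z : ℂ) : ℂ := if z = 0 then 1 else (Complex.exp z - 1) / z

/-- The transform of the kernel: `n` boxes of width `h` and `2p` boxes of width `1/p`. -/
noncomputable def Ph (n p : ℕ) (h : ℝ) (w : ℂ) : ℂ := ph (w * h) ^ n * ph (w / p) ^ (2 * p)

/-- A bounded nonnegative kernel supported in `[0, D]`. -/
structure NK (q : ℝ → ℝ) (D : ℝ) : Prop where
  meas : Measurable q
  nonneg : ∀ v : ℝ, 0 ≤ q v
  neg : ∀ v : ℝ, v < 0 → q v = 0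
  pos : ∀ v : ℝ, D < v → q v = 0
  bd : ∃ B : ℝ, ∀ v : ℝ, q v ≤ B

/-- The transform of a real kernel. -/
noncomputable def hatr (q : ℝ → ℝ) (w : ℂ) : ℂ := hat (fun v => ((q v : ℝ) : ℂ)) w

/-- The zero `i0` is the leading one at the scale `p`: it maximises `e^{Re λ} / (1 + |Im λ|/p²)`. -/
def Best (lam : ι → ℂ) (p : ℕ) (i0 : ι) : Prop :=
  ∀ i, Real.exp ((lam i).re - (lam i0).re) * (1 + |(lam i0).im| / (p : ℝ) ^ 2) ≤
    1 + |(lam i).im| / (p : ℝ) ^ 2

/-- Local count of the zeros. -/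
def LCnt (lam : ι → ℂ) (m : ι → ℝ) : Prop :=
  ∃ C : ℝ, 0 ≤ C ∧ ∀ (T : ℝ) (s : Finset ι), (∀ i ∈ s, |(lam i).im - T| ≤ 1) →
    ∑ i ∈ s, m i ≤ C * Real.log (|T| + 2)

/-- The product of the difference operators with the nodes `y ∈ S`. -/
noncomputable def DP (S : Finset ℂ) (z : ℂ) : ℂ :=
  ∏ y ∈ S, (Complex.exp (z / 20) - Complex.exp (y / 20))

/-- Its majorant. -/
noncomputable def DM (S : Finset ℂ) (z : ℂ) : ℂ :=
  ∏ y ∈ S, (Complex.exp (z / 20) + ((Real.exp (y.re / 20) : ℝ) : ℂ))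

/-- `u (d/du) - 1` applied to it gives `e^{wu}/w` (for `w` not in `[0, ∞)`). -/
noncomputable def QQ (w : ℂ) (u : ℝ) : ℂ :=
  ∫ s in Set.Ioi (0 : ℝ), Complex.exp ((w - s) * u) / (w - s) ^ 2

/-- The same for real `a > 0`. -/
noncomputable def RR (a u : ℝ) : ℝ := u * ∫ t in (1 : ℝ)..u, Real.exp (a * t) / (a * t ^ 2)

noncomputable def PP (w : ℂ) (u : ℝ) : ℂ := if w.im = 0 then ((RR w.re u : ℝ) : ℂ) else QQ w u

/-- The double primitive of a zero: `λ ∫_1^u sinh (λ t)/t² dt` after an integration by parts. -/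
noncomputable def TT (w : ℂ) (u : ℝ) : ℂ :=
  (Complex.cosh (w * u) - 1) / (u : ℂ) ^ 2 - (Complex.cosh w - 1) +
    2 * ∫ t in (1 : ℝ)..u, (Complex.cosh (w * t) - 1) / (t : ℂ) ^ 3

/-- The primitive. -/
noncomputable def I0 (f : ℝ → ℝ) (u : ℝ) : ℝ := ∫ t in Set.Ioc 0 u, f t

/-- The second difference `K (v - 2r) - 2 K (v - r) + K v`. -/
noncomputable def D2 (r : ℝ) (K : ℝ → ℂ) (v : ℝ) : ℂ := K (v - 2 * r) - 2 * K (v - r) + K v

end W3283p
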