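import Pool.Agent.W_3283e1_zd.ZGam

set_option autoImplicit false

namespace W3283p

open Complex

/-- `Re ψ(2 + iT) ≤ C log (|T| + 2)`.  By `W3283z.ZGam_sum` (with `s = 1 + iT`) and `W3283z.ZGam_re`, `Re ψ(2+iT) + γ =
Σ_n (1/(n+1) - (n+2)/((n+2)² + T²))`.  With `N = ⌈|T|⌉₊ + 1`: for `n + 2 ≥ |T|`,
`(n+2)/((n+2)² + T²) ≥ 1/(n+2+|T|) ≥ 1/(n+1+N)`; for `n + 2 < |T|` use `≥ 0` (at most `N` terms).  So the sum is
at most `Σ_{n<N} 1/(n+1) + Σ_n (1/(n+1) - 1/(n+1+N)) = 2 H_N ≤ 2 (1 + log N)`. -/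
theorem dig_up : ∃ C : ℝ, 0 ≤ C ∧ ∀ T : ℝ,
    (Complex.digamma (1 + (1 + T * I))).re ≤ C * Real.log (|T| + 2) := by
  refine ⟨6, by norm_num, fun T => ?_⟩
  have hT0 : 0 ≤ |T| := abs_nonneg T
  set s : ℂ := 1 + T * I with hs
  have hre : 0 < s.re := by simp [hs]
  have hsum := Complex.hasSum_re (W3283z.ZGam_sum s hre)
  rw [Complex.add_re, Complex.ofReal_re] at hsum
  have hterm : ∀ n : ℕ, (1 / ((n : ℂ) + 1) - 1 / ((n : ℂ) + 1 + s)).re =
      1 / ((n : ℝ) + 1) - ((n : ℝ) + 1 + 1) / (((n : ℝ) + 1 + 1) ^ 2 + T ^ 2) := fun n => by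
    have := W3283z.ZGam_re 1 T n
    rw [Complex.ofReal_one] at this
    exact this
  obtain ⟨N, hN1, hN2⟩ : ∃ N : ℕ, |T| + 1 ≤ N ∧ (N : ℝ) ≤ |T| + 2 := by
    refine ⟨⌈|T|⌉₊ + 1, ?_, ?_⟩
    · push_cast
      have := Nat.le_ceil |T|
      linarith
    · push_cast
      have := (Nat.ceil_lt_add_one hT0).le
      linarith
  set H : ℕ → ℝ := fun m => ∑ n ∈ Finset.range m, 1 / ((n : ℝ) + 1) with hH
  have hNpos : (0 : ℝ) ≤ N := Nat.cast_nonneg N
  -- termwise bound
  have hb : ∀ n : ℕ, 1 / ((n : ℝ) + 1) - ((n : ℝ) + 1 + 1) / (((n : ℝ) + 1 + 1) ^ 2 + T ^ 2) ≤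
      (if n < N then 1 / ((n : ℝ) + 1) else 0) + (1 / ((n : ℝ) + 1) - 1 / ((n : ℝ) + 1 + N)) := by
    intro n
    have hn : (0 : ℝ) ≤ n := Nat.cast_nonneg n
    by_cases h : n < N
    · rw [if_pos h]
      have h1 : 0 ≤ ((n : ℝ) + 1 + 1) / (((n : ℝ) + 1 + 1) ^ 2 + T ^ 2) := by positivity
      have h2 : 1 / ((n : ℝ) + 1 + N) ≤ 1 / ((n : ℝ) + 1) :=
        one_div_le_one_div_of_le (by positivity) (by linarith)
      linarith
    · rw [if_neg h, zero_add]
      have hnN : (N : ℝ) ≤ n := by exact_mod_cast not_lt.1 h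
      have h1 : 1 / ((n : ℝ) + 1 + N) ≤ ((n : ℝ) + 1 + 1) / (((n : ℝ) + 1 + 1) ^ 2 + T ^ 2) := by
        rw [div_le_div_iff₀ (by positivity) (by positivity)]
        have h2 : T ^ 2 = |T| ^ 2 := (sq_abs T).symm
        rw [h2]
        nlinarith
      linarith
  -- partial sums
  have hH2 : ∀ m : ℕ, ∑ n ∈ Finset.range m, (1 / ((n : ℝ) + 1) - 1 / ((n : ℝ) + 1 + N)) ≤ H N := by
    intro m
    rw [Finset.sum_sub_distrib]
    have h1 : H (N + m) = H N + ∑ n ∈ Finset.range m, 1 / ((n : ℝ) + 1 + N) := by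
      simp only [hH]
      rw [Finset.sum_range_add]
      congr 1
      refine Finset.sum_congr rfl fun n _ => ?_
      push_cast
      congr 1
      ring
    have h2 : H m ≤ H (N + m) := by
      simp only [hH]
      refine Finset.sum_le_sum_of_subset_of_nonneg ?_ fun n _ _ => by positivity
      exact Finset.range_subset_range.2 (Nat.le_add_left m N)
    have h3 : H m = ∑ n ∈ Finset.range m, 1 / ((n : ℝ) + 1) := rfl
    linarith
  have hH3 : ∀ m : ℕ, ∑ n ∈ Finset.range m, (if n < N then 1 / ((n : ℝ) + 1) else 0) ≤ H N := by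
    intro m
    rw [← Finset.sum_filter]
    refine Finset.sum_le_sum_of_subset_of_nonneg ?_ fun n _ _ => by positivity
    intro n hn
    rw [Finset.mem_filter] at hn
    exact Finset.mem_range.2 hn.2
  have hle : (Complex.digamma (1 + s)).re + Real.eulerMascheroniConstant ≤ 2 * H N := by
    refine le_of_tendsto' hsum.tendsto_sum_nat fun m => ?_
    rw [Finset.sum_congr rfl fun n _ => hterm n]
    refine (Finset.sum_le_sum fun n _ => hb n).trans ?_
    rw [Finset.sum_add_distrib]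
    have := hH2 m
    have := hH3 m
    linarith
  have hgam : 0 ≤ Real.eulerMascheroniConstant := by
    have := Real.one_half_lt_eulerMascheroniConstant
    linarith
  have hHN : H N ≤ 1 + Real.log N := by
    have h7 := harmonic_le_one_add_log N
    have h8 : ((harmonic N : ℚ) : ℝ) = H N := by
      simp only [hH]
      unfold harmonic
      push_cast
      exact Finset.sum_congr rfl fun n _ => (one_div _).symm
    rw [h8] at h7
    exact h7
  have hlog : Real.log N ≤ Real.log (|T| + 2) :=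
    Real.log_le_log (by linarith) hN2
  have hlog2 : 1 / 2 ≤ Real.log (|T| + 2) := by
    have h1 : Real.log 2 ≤ Real.log (|T| + 2) := Real.log_le_log (by norm_num) (by linarith)
    have := Real.log_two_gt_d9
    linarith
  linarith

end W3283p
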