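import Pool.Agent.W_3283e1_sh.DigU
import Pool.Agent.W_3283e1_sh.Defs
import Pool.Agent.W_3283e1_v3.FamG
import Pool.Agent.W_3283e1_lw.Exp

set_option autoImplicit false

namespace W3283p

open Complex W3283e1 W3283f W3283l W3283v

theorem LCf_term (T : ℝ) (w : ℂ) (h0 : 0 ≤ w.re) (h1 : w.re ≤ 1 / 2) :
    0 ≤ (2 * (1 + T * I) / ((1 + T * I) ^ 2 - w ^ 2)).re ∧
      (|w.im - T| ≤ 1 → 1 / 4 ≤ (2 * (1 + T * I) / ((1 + T * I) ^ 2 - w ^ 2)).re) := by
  obtain ⟨a, ha⟩ : ∃ a : ℂ, a = 1 + T * I - w := ⟨_, rfl⟩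
  obtain ⟨b, hb⟩ : ∃ b : ℂ, b = 1 + T * I + w := ⟨_, rfl⟩
  have har : a.re = 1 - w.re := by rw [ha]; simp
  have hai : a.im = T - w.im := by rw [ha]; simp
  have hbr : b.re = 1 + w.re := by rw [hb]; simp
  have ha0 : a ≠ 0 := by
    intro h
    rw [h, Complex.zero_re] at har
    linarith
  have hb0 : b ≠ 0 := by
    intro h
    rw [h, Complex.zero_re] at hbr
    linarith
  have e : 2 * (1 + T * I) / ((1 + T * I) ^ 2 - w ^ 2) = a⁻¹ + b⁻¹ := by
    have e1 : (1 + T * I) ^ 2 - w ^ 2 = a * b := by rw [ha, hb]; ring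
    have e2 : 2 * (1 + T * I) = a + b := by rw [ha, hb]; ring
    rw [e1, e2]
    field_simp
    ring
  rw [e, Complex.add_re, Complex.inv_re, Complex.inv_re]
  have hna : 0 < Complex.normSq a := Complex.normSq_pos.2 ha0
  have hnb : 0 < Complex.normSq b := Complex.normSq_pos.2 hb0
  have hb1 : 0 ≤ b.re / Complex.normSq b := div_nonneg (by linarith) hnb.le
  have ha1 : 0 ≤ a.re / Complex.normSq a := div_nonneg (by linarith) hna.le
  refine ⟨by linarith, fun hT => ?_⟩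
  have h2 : 1 / 4 ≤ a.re / Complex.normSq a := by
    rw [le_div_iff₀ hna, Complex.normSq_apply, har, hai]
    have h3 := abs_le.1 hT
    have h4 : (T - w.im) * (T - w.im) ≤ 1 := by nlinarith
    nlinarith
  linarith

theorem LCf_ES (n j : ℕ) (T : ℝ) :
    |(ES (fun i => vL i * cA (aL n j) i) vL (1 + T * I)).re| ≤
      ∑' i, |vL i * cA (aL n j) i| * Real.exp (-(1 * vL i)) := by
  refine (Complex.abs_re_le_norm _).trans ?_
  have hs := (Exp_ds n j).sm 1 (by norm_num)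
  unfold ES
  have hn : ∀ i, ‖((vL i * cA (aL n j) i : ℝ) : ℂ) * Complex.exp (-((1 + T * I) * vL i))‖ =
      |vL i * cA (aL n j) i| * Real.exp (-(1 * vL i)) := by
    intro i
    rw [norm_mul, Ser_norm, Complex.norm_real, Real.norm_eq_abs]
    simp
  have hs' : Summable fun i => ‖((vL i * cA (aL n j) i : ℝ) : ℂ) *
      Complex.exp (-((1 + T * I) * vL i))‖ := by
    simp only [hn]
    exact hs
  refine (norm_tsum_le_tsum_norm hs').trans (le_of_eq (tsum_congr hn))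

/-- The local count of the zeros.  `log_idG` at `s = 1 + iT`, real parts: `2s/(s²-λ²) = 1/(s-λ) + 1/(s+λ)`, both with
real part `≥ 0`, and `Re 1/(s-λ) = (1-θ)/((1-θ)² + (T-γ)²) ≥ 1/4` if `|γ - T| ≤ 1` (`1/2 ≤ 1 - θ ≤ 1`), so
`Σ_{i ∈ s} m i / 4 ≤ Re Σ' 2 m s/(s²-λ²) = -Re ES - log(π k) + Re ψ(1+s) - Re (r/s)`; the series `ES` is bounded
on `Re s = 1` (`Exp_ds`, absolute convergence) and `dig_up`; constants are at most `C log (|T| + 2)` since
`log 2 > 0`. -/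
theorem lcnt_fam (n j : ℕ) (hj : j = 0 ∨ j = 1) (hn : Odd n) (hs : Squarefree n) :
    LCnt (laF n j) (meF n j) := by
  obtain ⟨C, hC, hdig⟩ := dig_up
  have hZ := zc_fam n j hj hn hs
  obtain ⟨E, hE⟩ : ∃ E : ℝ, E = ∑' i, |vL i * cA (aL n j) i| * Real.exp (-(1 * vL i)) := ⟨_, rfl⟩
  have hE0 : 0 ≤ E := by
    rw [hE]
    exact tsum_nonneg fun i => by positivity
  have hl2 : 0 < Real.log 2 := Real.log_pos (by norm_num)
  refine ⟨4 * ((E + |Real.log (Real.pi * kF n j)|) / Real.log 2 + C), by positivity, ?_⟩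
  intro T s hS
  have hre : (1 + (T : ℂ) * I).re = 1 := by simp
  obtain ⟨hsum, hid⟩ := log_idG n j hj hn hs (1 + (T : ℂ) * I) (by rw [hre]; norm_num)
  have hm0 : ∀ i, 0 ≤ meF n j i := fun i => by
    unfold meF
    exact Nat.cast_nonneg _
  have hterm : ∀ i, (2 * (meF n j i : ℂ) * (1 + (T : ℂ) * I) /
      ((1 + (T : ℂ) * I) ^ 2 - (laF n j i) ^ 2)).re =
      meF n j i * (2 * (1 + (T : ℂ) * I) / ((1 + (T : ℂ) * I) ^ 2 - (laF n j i) ^ 2)).re := by
    intro i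
    rw [← Complex.re_ofReal_mul]
    congr 1
    ring
  have hsr : Summable fun i => (2 * (meF n j i : ℂ) * (1 + (T : ℂ) * I) /
      ((1 + (T : ℂ) * I) ^ 2 - (laF n j i) ^ 2)).re := (Complex.hasSum_re hsum.hasSum).summable
  have h1 : ∑ i ∈ s, (2 * (meF n j i : ℂ) * (1 + (T : ℂ) * I) /
      ((1 + (T : ℂ) * I) ^ 2 - (laF n j i) ^ 2)).re ≤
      (∑' i, 2 * (meF n j i : ℂ) * (1 + (T : ℂ) * I) /
      ((1 + (T : ℂ) * I) ^ 2 - (laF n j i) ^ 2)).re := by
    rw [Complex.re_tsum hsum]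
    refine hsr.sum_le_tsum s fun i _ => ?_
    rw [hterm]
    exact mul_nonneg (hm0 i) (LCf_term T _ (hZ.re0 i) (hZ.re1 i)).1
  have h2 : ∑ i ∈ s, meF n j i / 4 ≤ ∑ i ∈ s, (2 * (meF n j i : ℂ) * (1 + (T : ℂ) * I) /
      ((1 + (T : ℂ) * I) ^ 2 - (laF n j i) ^ 2)).re := by
    refine Finset.sum_le_sum fun i hi => ?_
    rw [hterm]
    have h3 := (LCf_term T _ (hZ.re0 i) (hZ.re1 i)).2 (hS i hi)
    have h4 := mul_le_mul_of_nonneg_left h3 (hm0 i)
    linarith
  rw [← Finset.sum_div] at h2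
  -- the real parts
  have hid' : (∑' i, 2 * (meF n j i : ℂ) * (1 + (T : ℂ) * I) /
      ((1 + (T : ℂ) * I) ^ 2 - (laF n j i) ^ 2)) =
      -ES (fun i => vL i * cA (aL n j) i) vL (1 + (T : ℂ) * I) -
        Real.log (Real.pi * kF n j) + Complex.digamma (1 + (1 + (T : ℂ) * I)) -
        (analyticOrderNatAt (fF' n j) 0 : ℂ) / (1 + (T : ℂ) * I) := by
    rw [hid]
    ring
  have hr : 0 ≤ ((analyticOrderNatAt (fF' n j) 0 : ℂ) / (1 + (T : ℂ) * I)).re := by
    have e1 : ((analyticOrderNatAt (fF' n j) 0 : ℕ) : ℂ) =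
        (((analyticOrderNatAt (fF' n j) 0 : ℕ) : ℝ) : ℂ) := (Complex.ofReal_natCast _).symm
    rw [e1, div_eq_mul_inv, Complex.re_ofReal_mul, Complex.inv_re, hre]
    exact mul_nonneg (Nat.cast_nonneg _) (div_nonneg zero_le_one (Complex.normSq_nonneg _))
  have hES := LCf_ES n j T
  rw [← hE] at hES
  have hup := hdig T
  rw [hid', Complex.sub_re, Complex.add_re, Complex.sub_re, Complex.neg_re,
    Complex.ofReal_re] at h1
  have h5 := (abs_le.1 hES).1
  have h6 := neg_abs_le (Real.log (Real.pi * kF n j))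
  have h7 : ∑ i ∈ s, meF n j i ≤ 4 * ((E + |Real.log (Real.pi * kF n j)|) +
      C * Real.log (|T| + 2)) := by
    linarith
  refine h7.trans ?_
  have h8 : Real.log 2 ≤ Real.log (|T| + 2) := Real.log_le_log (by norm_num) (by
    have := abs_nonneg T
    linarith)
  have h9 : (E + |Real.log (Real.pi * kF n j)|) ≤
      (E + |Real.log (Real.pi * kF n j)|) / Real.log 2 * Real.log (|T| + 2) := by
    have h10 : 0 ≤ (E + |Real.log (Real.pi * kF n j)|) / Real.log 2 := by positivity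
    have h11 := mul_le_mul_of_nonneg_left h8 h10
    rwa [div_mul_cancel₀ _ hl2.ne'] at h11
  nlinarith

end W3283p
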