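import Pool.Agent.W_3283e1_sh.ShA
import Pool.Agent.W_3283e1_sh.LCf
import Pool.Agent.W_3283e1_v3.LocF
import Pool.Agent.W_3283e1_h97.LocG

set_option autoImplicit false

namespace W3283p

open Complex W3283e1 W3283f W3283l W3283v W3283c MeasureTheory Filter Topology

/-- `shortA` for the family: the hypotheses are checked as in `wild_fam` (`W_3283e1_v3.LocF`). -/
theorem erA_short (a : ℝ) (ha : 2 < a) (k : ℕ) (c : ℤ) (n f i j : ℕ) (L : ℂ → ℂ) (r : ℕ)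
    (l V : ℝ) (h : W3283g.SU k c n f i j L r l V) (s0 : ℂ) (δ : ℝ) (hs0 : L s0 = 0)
    (hδ0 : 0 ≤ δ) (hδ : 1 + δ < s0.re) (σ : ℝ)
    (hσ : σ = 1 ∨ (σ = -1 ∧ ∀ x : ℝ, 1 < x → L x ≠ 0)) :
    ∃ U1 : ℝ, ∀ U : ℝ, U1 ≤ U → ∃ v : ℝ, U ≤ v ∧ v ≤ U + (Real.log U) ^ a ∧
      Real.exp (δ * v) ≤ σ * ee n j l V r v := by
  have hlV : l / V ≠ 0 := div_ne_zero h.hl h.hV.ne'
  have hr := fF_zero n j h.hj h.hn h.hs r (l / V) hlV h.hlim'
  have hEF := ef_famG n j h.hj h.hn h.hs r hr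
  have hZ := zc_fam n j h.hj h.hn h.hs
  obtain ⟨CB, hCB⟩ := B_bd n j h.hj h.hn h.hs
  have hCB0 : 0 ≤ CB := (abs_nonneg _).trans (hCB 0 le_rfl)
  have hDF := dataF_fam n j h.hj h.hn h.hs
  have hαn : ∀ p : ℕ, p.Prime → p ≠ 2 → ‖alF n j p‖ ^ 2 = p := hDF.norm_α
  have heloc : ∀ U : ℝ, IntegrableOn (W3283g.er (alF n j) (lGold (l / V) r) r) (Set.Ioc 0 U) :=
    W3283g.Ces_loc _ (W3283g.er_int (alF n j) hαn (lGold (l / V) r) r 1 (by norm_num))
  have hre : (s0 - 1).re = s0.re - 1 := by rw [Complex.sub_re, Complex.one_re]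
  have hs1 : LLF n j (1 + (s0 - 1)) = 0 := by
    refine (h.hzero (s0 - 1) ?_).1 ?_
    · rw [hre]; linarith
    · rw [add_sub_cancel]; exact hs0
  have hz : fF' n j (s0 - 1) = 0 :=
    (fam_zero n j h.hj h.hn h.hs (s0 - 1) (by rw [hre]; linarith)).2 hs1
  have hid : ∀ u : ℝ, 0 < u → |u * W3283g.er (alF n j) (lGold (l / V) r) r u -
      (∫ t in Set.Ioc 0 u, W3283g.er (alF n j) (lGold (l / V) r) r t) - AF n j r u| ≤ CB := by
    intro u hu
    have h1 := (abel_er (alF n j) (lGold (l / V) r) r u hu).2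
    have h2 := hCB u hu.le
    have h3 : u * W3283g.er (alF n j) (lGold (l / V) r) r u -
        (∫ t in Set.Ioc 0 u, W3283g.er (alF n j) (lGold (l / V) r) r t) - AF n j r u =
        ALs (alF n j) u + SS n j u := by
      rw [h1]
      unfold AF
      ring
    rw [h3]
    exact h2
  have him : σ = 1 ∨ (σ = -1 ∧ ∀ i, (laF n j i).im ≠ 0) := by
    rcases hσ with h1 | ⟨h1, h2⟩
    · exact Or.inl h1
    · refine Or.inr ⟨h1, fun i0 him0 => ?_⟩
      have g1 := hZ.re0 i0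
      have g2 := hZ.ne i0
      have g3 : 0 < (laF n j i0).re := by
        rcases g1.lt_or_eq with g | g
        · exact g
        · exact absurd (Complex.ext g.symm him0) g2
      have g4 : laF n j i0 = (((laF n j i0).re : ℝ) : ℂ) := Complex.ext (by simp) (by simp [him0])
      have g5 : fF' n j (laF n j i0) = 0 := i0.2.2
      have g6 := (fam_zero n j h.hj h.hn h.hs _ g3).1 g5
      have g7 := (h.hzero (laF n j i0) g3.le).2 g6
      refine h2 (1 + (laF n j i0).re) (by linarith) ?_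
      push_cast
      rw [← g4]
      exact g7
  obtain ⟨U1, hU1⟩ := shortA a ha hZ (lcnt_fam n j h.hj h.hn h.hs) (AF n j r)
    (W3283g.er (alF n j) (lGold (l / V) r) r) hEF heloc CB hCB0 hid
    ⟨s0 - 1, Or.inl (by rw [hre]; linarith), hz⟩ δ hδ0 (by
      show δ < (s0 - 1).re
      rw [hre]
      linarith) σ him
  exact ⟨U1, hU1⟩

/-- All amplitudes. -/
theorem allA_short (a : ℝ) (ha : 2 < a) (k : ℕ) (c : ℤ) (n f i j : ℕ) (L : ℂ → ℂ) (r : ℕ)
    (l V : ℝ) (h : W3283g.SU k c n f i j L r l V) (D : ℝ → ℝ) (hD : Amp L D) (σ : ℝ)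
    (hσ : σ = 1 ∨ (σ = -1 ∧ ∀ x : ℝ, 1 < x → L x ≠ 0)) :
    ∃ U1 : ℝ, ∀ U : ℝ, U1 ≤ U → ∃ v : ℝ, U ≤ v ∧ v ≤ U + (Real.log U) ^ a ∧
      D (Real.exp v) ≤ σ * ee n j l V r v := by
  have hσ1 : σ = 1 ∨ σ = -1 := by
    rcases hσ with h1 | ⟨h1, -⟩
    · exact Or.inl h1
    · exact Or.inr h1
  rcases hD with ⟨K, hK, hD⟩ | ⟨s0, δ, hs0, hδ0, hδ, hD⟩
  · by_cases hRH : ∀ s : ℂ, 1 < s.re → L s ≠ 0
    · obtain ⟨D', hD', hDD⟩ := er_rh k c n f i j L r l V h hRH K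
      refine ⟨max 1 (Real.exp (D' + 1)), fun U hU => ?_⟩
      have hU1 : 1 ≤ U := (le_max_left _ _).trans hU
      have hU2 : Real.exp (D' + 1) ≤ U := (le_max_right _ _).trans hU
      have hU3 : D' + 1 ≤ Real.log U := (Real.le_log_iff_exp_le (by linarith)).2 hU2
      obtain ⟨u, h1, h2, h3⟩ := hDD U hU1 σ hσ1
      refine ⟨u, h1, ?_, ?_⟩
      · have g1 : (Real.log U) ^ (1 : ℝ) ≤ (Real.log U) ^ a :=
          Real.rpow_le_rpow_of_exponent_le (by linarith) (by linarith)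
        rw [Real.rpow_one] at g1
        linarith
      · rw [hD _ (Real.one_lt_exp_iff.2 (by linarith)), Real.log_exp]
        exact h3
    · push Not at hRH
      obtain ⟨s0, hs, hs0⟩ := hRH
      obtain ⟨U1, hU1⟩ := erA_short a ha k c n f i j L r l V h s0 0 hs0 le_rfl (by linarith) σ hσ
      refine ⟨max U1 (K + 1), fun U hU => ?_⟩
      obtain ⟨v, h1, h2, h3⟩ := hU1 U ((le_max_left _ _).trans hU)
      have hv : K + 1 ≤ v := ((le_max_right _ _).trans hU).trans h1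
      refine ⟨v, h1, h2, ?_⟩
      rw [hD _ (Real.one_lt_exp_iff.2 (by linarith)), Real.log_exp]
      rw [zero_mul, Real.exp_zero] at h3
      refine le_trans ?_ h3
      rw [div_le_one (by linarith)]
      linarith
  · obtain ⟨U1, hU1⟩ := erA_short a ha k c n f i j L r l V h s0 δ hs0 hδ0.le hδ σ hσ
    refine ⟨U1, fun U hU => ?_⟩
    obtain ⟨v, h1, h2, h3⟩ := hU1 U hU
    refine ⟨v, h1, h2, ?_⟩
    rw [hD, ← Real.exp_mul, mul_comm v δ]
    exact h3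

end W3283p
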