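import Pool.Agent.W_3283e1_sh.Defs

set_option autoImplicit false

namespace W3283p

open MeasureTheory W3283v

theorem IbP_ii {f : ℝ → ℝ} (hf : ∀ T : ℝ, IntegrableOn f (Set.Ioc 0 T)) {a b : ℝ} (ha : 0 ≤ a)
    (hab : a ≤ b) : IntervalIntegrable f volume a b := by
  rw [intervalIntegrable_iff_integrableOn_Ioc_of_le hab]
  exact (hf b).mono_set (Set.Ioc_subset_Ioc_left ha)

theorem IbP_split {f : ℝ → ℝ} (hf : ∀ T : ℝ, IntegrableOn f (Set.Ioc 0 T)) {t : ℝ} (ht : 1 ≤ t) :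
    I0 f t = I0 f 1 + ∫ v in (1 : ℝ)..t, f v := by
  unfold I0
  rw [← intervalIntegral.integral_of_le zero_le_one,
    ← intervalIntegral.integral_of_le (zero_le_one.trans ht)]
  exact (intervalIntegral.integral_add_adjacent_intervals (IbP_ii hf le_rfl zero_le_one)
    (IbP_ii hf zero_le_one ht)).symm

theorem IbP_cont (k : ℕ) {u : ℝ} (hu : 1 ≤ u) :
    ContinuousOn (fun t : ℝ => (t ^ k)⁻¹) (Set.uIcc 1 u) := by
  refine ContinuousOn.inv₀ (by fun_prop) fun t ht => ?_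
  rw [Set.uIcc_of_le hu] at ht
  exact pow_ne_zero _ (by linarith [ht.1])

/-- Integration by parts for a primitive: `I0 f` is absolutely continuous with a.e. derivative `f`.  Proof by Fubini:
`k ∫_1^u I0 f t / t^(k+1) dt = k ∫_1^u (I0 f 1 + ∫_1^t f x dx) / t^(k+1) dt`, and
`k ∫_x^u dt / t^(k+1) = 1/x^k - 1/u^k`. -/
theorem ibp (f : ℝ → ℝ) (hf : ∀ T : ℝ, IntegrableOn f (Set.Ioc 0 T)) (k : ℕ) (hk : 1 ≤ k) (u : ℝ)
    (hu : 1 ≤ u) :
    ∫ t in (1 : ℝ)..u, f t / t ^ k =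
      I0 f u / u ^ k - I0 f 1 + k * ∫ t in (1 : ℝ)..u, I0 f t / t ^ (k + 1) := by
  have hii : IntervalIntegrable f volume 1 u := IbP_ii hf zero_le_one hu
  set F : ℝ → ℝ := fun t => I0 f 1 + ∫ v in (1 : ℝ)..t, f v with hF
  set g : ℝ → ℝ := fun t => (t ^ k)⁻¹ with hg
  have hFac : AbsolutelyContinuousOnInterval F 1 u := by
    refine AbsolutelyContinuousOnInterval.add ?_
      (hii.absolutelyContinuousOnInterval_intervalIntegral Set.left_mem_uIcc)
    exact (contDiffOn_const (𝕜 := ℝ) (n := 1)).absolutelyContinuousOnInterval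
  have hgd : ContDiffOn ℝ 1 g (Set.uIcc 1 u) := by
    refine ContDiffOn.inv (by fun_prop) fun t ht => ?_
    rw [Set.uIcc_of_le hu] at ht
    exact pow_ne_zero _ (by linarith [ht.1])
  have hgac : AbsolutelyContinuousOnInterval g 1 u := hgd.absolutelyContinuousOnInterval
  have key := hFac.integral_mul_deriv_eq_deriv_mul hgac
  have hder : ∀ t : ℝ, 1 ≤ t → deriv g t = -(k : ℝ) / t ^ (k + 1) := by
    intro t ht
    have ht0 : t ≠ 0 := by linarith
    have h1 : HasDerivAt g (-((k : ℝ) * t ^ (k - 1)) / (t ^ k) ^ 2) t :=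
      (hasDerivAt_pow k t).inv (pow_ne_zero _ ht0)
    rw [h1.deriv]
    obtain ⟨j, rfl⟩ : ∃ j, k = j + 1 := ⟨k - 1, by omega⟩
    rw [Nat.add_sub_cancel]
    field_simp
    ring
  have hL : ∫ x in (1 : ℝ)..u, F x * deriv g x = -((k : ℝ) * ∫ t in (1 : ℝ)..u, I0 f t / t ^ (k + 1)) := by
    rw [← intervalIntegral.integral_const_mul, ← intervalIntegral.integral_neg]
    refine intervalIntegral.integral_congr fun t ht => ?_
    rw [Set.uIcc_of_le hu] at ht
    simp only [hF]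
    rw [hder t ht.1, ← IbP_split hf ht.1]
    ring
  have hR : ∫ x in (1 : ℝ)..u, deriv F x * g x = ∫ t in (1 : ℝ)..u, f t / t ^ k := by
    refine intervalIntegral.integral_congr_ae ?_
    filter_upwards [hii.ae_hasDerivAt_integral] with x hx hx2
    have h1 : HasDerivAt F (f x) x :=
      (hx (Set.uIoc_subset_uIcc hx2) 1 Set.left_mem_uIcc).const_add (I0 f 1)
    rw [h1.deriv]
    simp only [hg]
    rw [div_eq_mul_inv]
  rw [hL, hR] at key
  have hF1 : F 1 = I0 f 1 := by simp [hF]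
  have hFu : F u = I0 f u := by
    simp only [hF]
    exact (IbP_split hf hu).symm
  rw [hF1, hFu] at key
  simp only [hg, one_pow, inv_one, mul_one] at key
  rw [div_eq_mul_inv]
  linarith

/-- `ibp` with `k = 1`: `I0 e u / u - I0 e 1 = ∫_1^u (t e(t) - I0 e t)/t² dt`, and
`|t e(t) - I0 e t - A t| ≤ C0`, `∫_1^∞ C0/t² = C0`. -/
theorem e_div (A e : ℝ → ℝ) (hA : ∀ T : ℝ, IntegrableOn A (Set.Ioc 0 T))
    (he : ∀ T : ℝ, IntegrableOn e (Set.Ioc 0 T)) (C0 : ℝ) (hC0 : 0 ≤ C0)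
    (hid : ∀ u : ℝ, 0 < u → |u * e u - (∫ t in Set.Ioc 0 u, e t) - A u| ≤ C0) :
    ∀ u : ℝ, 1 ≤ u → |I0 e u / u - ∫ t in (1 : ℝ)..u, A t / t ^ 2| ≤ C0 + |I0 e 1| := by
  intro u hu
  have h1 := ibp e he 1 le_rfl u hu
  rw [pow_one, Nat.cast_one, one_mul] at h1
  have hie : IntervalIntegrable e volume 1 u := IbP_ii he zero_le_one hu
  have hiA : IntervalIntegrable A volume 1 u := IbP_ii hA zero_le_one hu
  have hI0 : ContinuousOn (fun t => I0 e t) (Set.uIcc 1 u) := by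
    have h2 : ContinuousOn (fun t => I0 e 1 + ∫ v in (1 : ℝ)..t, e v) (Set.uIcc 1 u) :=
      (hie.absolutelyContinuousOnInterval_intervalIntegral Set.left_mem_uIcc).continuousOn.const_add _
    refine h2.congr fun t ht => ?_
    rw [Set.uIcc_of_le hu] at ht
    exact IbP_split he ht.1
  have i1 : IntervalIntegrable (fun t => e t / t ^ 1) volume 1 u := by
    simp only [div_eq_mul_inv]
    exact hie.mul_continuousOn (IbP_cont 1 hu)
  have i2 : IntervalIntegrable (fun t => A t / t ^ 2) volume 1 u := by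
    simp only [div_eq_mul_inv]
    exact hiA.mul_continuousOn (IbP_cont 2 hu)
  have i3 : IntervalIntegrable (fun t => I0 e t / t ^ 2) volume 1 u := by
    simp only [div_eq_mul_inv]
    exact (hI0.mul (IbP_cont 2 hu)).intervalIntegrable
  have i4 : IntervalIntegrable (fun t : ℝ => C0 * (t ^ 2)⁻¹) volume 1 u :=
    (continuousOn_const.mul (IbP_cont 2 hu)).intervalIntegrable
  have h3 : I0 e u / u - ∫ t in (1 : ℝ)..u, A t / t ^ 2 =
      I0 e 1 + ∫ t in (1 : ℝ)..u, (t * e t - I0 e t - A t) / t ^ 2 := by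
    have h4 : ∫ t in (1 : ℝ)..u, (t * e t - I0 e t - A t) / t ^ 2 =
        (∫ t in (1 : ℝ)..u, e t / t ^ 1) - (∫ t in (1 : ℝ)..u, I0 e t / t ^ 2) -
          ∫ t in (1 : ℝ)..u, A t / t ^ 2 := by
      rw [← intervalIntegral.integral_sub i1 i3, ← intervalIntegral.integral_sub (i1.sub i3) i2]
      refine intervalIntegral.integral_congr fun t ht => ?_
      rw [Set.uIcc_of_le hu] at ht
      have ht0 : t ≠ 0 := by linarith [ht.1]
      show (t * e t - I0 e t - A t) / t ^ 2 = e t / t ^ 1 - I0 e t / t ^ 2 - A t / t ^ 2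
      field_simp
    rw [h4]
    simp only [pow_one] at h1 ⊢
    have h5 : (1 : ℕ) + 1 = 2 := rfl
    simp only [h5] at h1
    linarith
  rw [h3]
  have h6 : |∫ t in (1 : ℝ)..u, (t * e t - I0 e t - A t) / t ^ 2| ≤
      ∫ t in (1 : ℝ)..u, C0 * (t ^ 2)⁻¹ := by
    have h7 := intervalIntegral.norm_integral_le_of_norm_le (μ := volume) hu (g := fun t : ℝ => C0 * (t ^ 2)⁻¹)
      (f := fun t => (t * e t - I0 e t - A t) / t ^ 2)
      (Filter.Eventually.of_forall fun t ht => ?_) i4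
    · rwa [Real.norm_eq_abs] at h7
    · have ht0 : 0 < t := by linarith [ht.1]
      rw [Real.norm_eq_abs, abs_div, abs_of_pos (pow_pos ht0 2), div_eq_mul_inv]
      exact mul_le_mul_of_nonneg_right (hid t ht0) (by positivity)
  have h8 : ∫ t in (1 : ℝ)..u, C0 * (t ^ 2)⁻¹ ≤ C0 := by
    have h9 : ∫ t in (1 : ℝ)..u, C0 * (t ^ 2)⁻¹ = C0 * (1 - u⁻¹) := by
      rw [intervalIntegral.integral_const_mul]
      congr 1
      have h10 : ∫ t in (1 : ℝ)..u, (t ^ 2)⁻¹ = (-u⁻¹) - (-(1 : ℝ)⁻¹) := by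
        refine intervalIntegral.integral_eq_sub_of_hasDerivAt (f := fun t : ℝ => -t⁻¹) (fun t ht => ?_)
          (IbP_cont 2 hu).intervalIntegrable
        rw [Set.uIcc_of_le hu] at ht
        have ht0 : t ≠ 0 := by linarith [ht.1]
        have h11 := (hasDerivAt_inv ht0).neg
        rw [neg_neg] at h11
        exact h11
      rw [h10]
      ring
    rw [h9]
    have h12 : 0 ≤ u⁻¹ := by positivity
    nlinarith
  calc |I0 e 1 + ∫ t in (1 : ℝ)..u, (t * e t - I0 e t - A t) / t ^ 2|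
      ≤ |I0 e 1| + |∫ t in (1 : ℝ)..u, (t * e t - I0 e t - A t) / t ^ 2| := abs_add_le _ _
    _ ≤ C0 + |I0 e 1| := by linarith

end W3283p
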