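import Pool.Agent.W_3283e1_sh.Defs

set_option autoImplicit false

namespace W3283p

open MeasureTheory W3283v

theorem KerP_int (h : ℝ) (hh : 0 < h) (w : ℂ) :
    ((1 / h : ℝ) : ℂ) * (∫ t in Set.Ioc 0 h, Complex.exp (w * (t : ℝ))) = ph (w * h) := by
  have hc : (h : ℂ) ≠ 0 := by exact_mod_cast hh.ne'
  unfold ph
  by_cases hw : w = 0
  · rw [if_pos (by rw [hw, zero_mul]), hw]
    simp only [zero_mul, Complex.exp_zero]
    rw [setIntegral_const, Real.volume_real_Ioc_of_le hh.le, sub_zero]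
    push_cast
    rw [Complex.real_smul, mul_one]
    field_simp
  · rw [if_neg (mul_ne_zero hw hc), ← intervalIntegral.integral_of_le hh.le,
      integral_exp_mul_complex hw]
    push_cast
    rw [mul_zero, Complex.exp_zero]
    field_simp

theorem KerP_kb {q : ℝ → ℝ} {D : ℝ} (hq : NK q D) :
    ∃ B : ℝ, 0 ≤ B ∧ (∀ v, q v ≤ B) ∧ KB (fun v => ((q v : ℝ) : ℂ)) D B := by
  obtain ⟨B, hB⟩ := hq.bd
  refine ⟨B, (hq.nonneg 0).trans (hB 0), hB, ?_, ?_, ?_, ?_⟩
  · exact Complex.measurable_ofReal.comp hq.meas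
  · intro v hv
    simp only [hq.neg v hv, Complex.ofReal_zero]
  · intro v hv
    simp only [hq.pos v hv, Complex.ofReal_zero]
  · intro v
    rw [Complex.norm_real, Real.norm_of_nonneg (hq.nonneg v)]
    exact hB v

/-- The box `(1/h) 1_[0,h]` (`KerB_base` of `W_3283e1_v3.KerB` is the complex version). -/
theorem nk_base (h : ℝ) (hh : 0 < h) : ∃ q : ℝ → ℝ, NK q h ∧ ∀ w : ℂ, hatr q w = ph (w * h) := by
  refine ⟨(Set.Ioc 0 h).indicator fun _ => 1 / h, ⟨?_, ?_, ?_, ?_, ?_⟩, fun w => ?_⟩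
  · exact measurable_const.indicator measurableSet_Ioc
  · intro v
    exact Set.indicator_nonneg (fun _ _ => by positivity) v
  · intro v hv
    exact Set.indicator_of_notMem (fun hm => absurd hm.1.le (not_le.2 hv)) _
  · intro v hv
    exact Set.indicator_of_notMem (fun hm => absurd hm.2 (not_le.2 hv)) _
  · refine ⟨1 / h, fun v => ?_⟩
    by_cases hv : v ∈ Set.Ioc 0 h
    · rw [Set.indicator_of_mem hv]
    · rw [Set.indicator_of_notMem hv]
      positivity
  · rw [← KerP_int h hh w, ← integral_const_mul]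
    unfold hatr hat
    rw [← integral_indicator measurableSet_Ioc]
    refine integral_congr_ae (Filter.Eventually.of_forall fun v => ?_)
    simp only
    by_cases hv : v ∈ Set.Ioc 0 h
    · rw [Set.indicator_of_mem hv, Set.indicator_of_mem hv]
    · rw [Set.indicator_of_notMem hv, Set.indicator_of_notMem hv, Complex.ofReal_zero, zero_mul]

/-- Averaging: `q' v = (1/h) ∫_{t ∈ (0,h]} q (v - t)`; `Ker_avg_hat` of `W_3283e1_v3.Ker` (with
`∫_0^h e^{wt} dt = h ph (w h)`) gives the transform; for the measurability see `ker_avg`. -/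
theorem nk_avg (q : ℝ → ℝ) (D : ℝ) (hq : NK q D) (hD : 0 ≤ D) (h : ℝ) (hh : 0 < h) :
    ∃ q' : ℝ → ℝ, NK q' (D + h) ∧ ∀ w : ℂ, hatr q' w = ph (w * h) * hatr q w := by
  obtain ⟨B, hB0, hB, hk⟩ := KerP_kb hq
  have hvol : volume.real (Set.Ioc 0 h) = h := by
    rw [Real.volume_real_Ioc_of_le hh.le, sub_zero]
  refine ⟨fun v => (1 / h) * ∫ t in Set.Ioc 0 h, q (v - t), ⟨?_, ?_, ?_, ?_, ?_⟩, fun w => ?_⟩
  · have hm : Measurable (Function.uncurry fun (v t : ℝ) => q (v - t)) := by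
      have hq1 := hq.meas
      unfold Function.uncurry
      fun_prop
    have h1 : StronglyMeasurable fun v => ∫ t in Set.Ioc 0 h, q (v - t) :=
      hm.stronglyMeasurable.integral_prod_right
    exact h1.measurable.const_mul _
  · intro v
    have h1 : 0 ≤ ∫ t in Set.Ioc 0 h, q (v - t) := integral_nonneg fun t => hq.nonneg _
    exact mul_nonneg (by positivity) h1
  · intro v hv
    have h0 : ∫ t in Set.Ioc 0 h, q (v - t) = 0 := by
      refine setIntegral_eq_zero_of_forall_eq_zero fun t ht => ?_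
      have ht1 : 0 < t := ht.1
      exact hq.neg _ (by linarith)
    simp only [h0, mul_zero]
  · intro v hv
    have h0 : ∫ t in Set.Ioc 0 h, q (v - t) = 0 := by
      refine setIntegral_eq_zero_of_forall_eq_zero fun t ht => ?_
      have ht2 : t ≤ h := ht.2
      exact hq.pos _ (by linarith)
    simp only [h0, mul_zero]
  · refine ⟨B, fun v => ?_⟩
    have h1 : ‖∫ t in Set.Ioc 0 h, q (v - t)‖ ≤ B * volume.real (Set.Ioc 0 h) :=
      norm_setIntegral_le_of_norm_le_const (by simp) (fun t _ => by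
        rw [Real.norm_of_nonneg (hq.nonneg _)]
        exact hB _)
    rw [hvol] at h1
    have h2 : ∫ t in Set.Ioc 0 h, q (v - t) ≤ B * h := (Real.le_norm_self _).trans h1
    calc 1 / h * ∫ t in Set.Ioc 0 h, q (v - t) ≤ 1 / h * (B * h) :=
          mul_le_mul_of_nonneg_left h2 (by positivity)
      _ = B := by field_simp
  · have h1 := Ker_avg_hat hk h w
    unfold hatr
    have h2 : (fun v : ℝ => (((1 / h) * ∫ t in Set.Ioc 0 h, q (v - t) : ℝ) : ℂ)) =
        fun v : ℝ => ((1 / h : ℝ) : ℂ) * ∫ t in Set.Ioc 0 h, ((q (v - t) : ℝ) : ℂ) := by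
      funext v
      rw [Complex.ofReal_mul, ← integral_complex_ofReal]
    rw [h2, h1, ← mul_assoc, KerP_int h hh w]

theorem KerP_iter {q : ℝ → ℝ} {D : ℝ} (hq : NK q D) (hD : 0 ≤ D) (h : ℝ) (hh : 0 < h) (n : ℕ) :
    ∃ q' : ℝ → ℝ, NK q' (D + n * h) ∧ ∀ w : ℂ, hatr q' w = ph (w * h) ^ n * hatr q w := by
  induction n with
  | zero =>
    refine ⟨q, ?_, fun w => ?_⟩
    · rw [Nat.cast_zero, zero_mul, add_zero]
      exact hq
    · rw [pow_zero, one_mul]
  | succ n ih =>
    obtain ⟨q1, h1, h2⟩ := ih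
    obtain ⟨q2, h3, h4⟩ := nk_avg q1 _ h1 (by positivity) h hh
    refine ⟨q2, ?_, fun w => ?_⟩
    · have e : D + ((n + 1 : ℕ) : ℝ) * h = D + n * h + h := by push_cast; ring
      rw [e]
      exact h3
    · rw [h4, h2, pow_succ]
      ring

/-- `2p` boxes of width `1/p` and `n` boxes of width `h`: induction with `nk_avg`
(`2p · (1/p) = 2`). -/
theorem ker0 (n p : ℕ) (hp : 1 ≤ p) (h : ℝ) (hh : 0 < h) :
    ∃ q : ℝ → ℝ, NK q (n * h + 2) ∧ ∀ w : ℂ, hatr q w = Ph n p h w := by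
  have hp0 : (0 : ℝ) < p := by exact_mod_cast hp
  have hp1 : (0 : ℝ) < 1 / p := by positivity
  obtain ⟨q0, h1, h2⟩ := nk_base (1 / p) hp1
  obtain ⟨q1, h3, h4⟩ := KerP_iter h1 hp1.le (1 / p) hp1 (2 * p - 1)
  have e1 : (1 : ℝ) / p + ((2 * p - 1 : ℕ) : ℝ) * (1 / p) = 2 := by
    rw [Nat.cast_sub (by omega)]
    push_cast
    field_simp
    ring
  rw [e1] at h3
  obtain ⟨q2, h5, h6⟩ := KerP_iter h3 (by norm_num) h hh n
  refine ⟨q2, ?_, fun w => ?_⟩
  · rw [add_comm]
    exact h5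
  · rw [h6, h4, h2]
    unfold Ph
    have e2 : w * ((1 / p : ℝ) : ℂ) = w / p := by
      push_cast
      ring
    rw [e2, ← pow_succ, show 2 * p - 1 + 1 = 2 * p by omega]

end W3283p
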