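import Mathlib

set_option autoImplicit false

namespace W3283p

theorem Num_real (C h Cn b c θ : ℝ) (hh : 0 < h) (hCn : 0 < Cn) (hb : 0 ≤ b)
    (hc : 0 ≤ c) (hθ : c < θ) : ∀ᶠ L : ℝ in Filter.atTop, 1 ≤ L ∧
      5 + Cn * L / 20 ≤ L ^ 3 / 4 ∧ L ^ 3 ≤ Real.exp L ∧
      (6 * L + Cn * L * (2 * L + 2 * (Cn * L) * Real.log L + Real.log 40)) +
        Cn * L * Real.log 4 + 2 * L + (|Real.log (4 * C)| + |Real.log (2 * C)| + 1) + b ≤
          L ^ 3 / (4 * h) ∧
      (1 / (4 * h) + c) * L ^ 3 < (θ - c) * Real.exp L := by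
  set M : ℝ := |Real.log (4 * C)| + |Real.log (2 * C)| + 1 with hM
  have hM0 : 0 ≤ M := by positivity
  set K : ℝ := (8 + Cn * Real.log 40 + Cn * Real.log 4) + 2 * Cn + M + b with hK
  have hl40 : 0 ≤ Real.log 40 := Real.log_nonneg (by norm_num)
  have hl4 : 0 ≤ Real.log 4 := Real.log_nonneg (by norm_num)
  have hδ : 0 < 1 / (16 * h * Cn ^ 2) := by positivity
  have hlog : ∀ᶠ L : ℝ in Filter.atTop, Real.log L ≤ 1 / (16 * h * Cn ^ 2) * L := by
    filter_upwards [Real.isLittleO_log_id_atTop.def hδ, Filter.eventually_ge_atTop (1 : ℝ)]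
      with L hL h1
    have h2 := (le_abs_self _).trans hL
    simp only [id, Real.norm_eq_abs] at h2
    rwa [abs_of_nonneg (zero_le_one.trans h1)] at h2
  have hexp : ∀ a : ℝ, ∀ᶠ L : ℝ in Filter.atTop, a * L ^ 3 < Real.exp L := by
    intro a
    filter_upwards [(Real.tendsto_exp_div_pow_atTop 3).eventually (Filter.eventually_gt_atTop a),
      Filter.eventually_ge_atTop (1 : ℝ)] with L h1 h2
    rwa [lt_div_iff₀ (by positivity)] at h1
  filter_upwards [hlog, hexp 1, hexp ((1 / (4 * h) + c) / (θ - c)),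
    Filter.eventually_ge_atTop (1 : ℝ), Filter.eventually_ge_atTop (4 * (5 + Cn / 20)),
    Filter.eventually_ge_atTop (8 * h * K)] with L h1 h2 h3 h4 h5 h6
  have hL2 : L ≤ L ^ 2 := by nlinarith
  refine ⟨h4, ?_, by linarith, ?_, ?_⟩
  · have h7 : L * (4 * (5 + Cn / 20)) ≤ L * L ^ 2 :=
      mul_le_mul_of_nonneg_left (h5.trans hL2) (by linarith)
    nlinarith
  · have h7 : Cn * L * (2 * (Cn * L) * Real.log L) ≤ L ^ 3 / (8 * h) := by
      calc Cn * L * (2 * (Cn * L) * Real.log L) = 2 * Cn ^ 2 * L ^ 2 * Real.log L := by ring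
        _ ≤ 2 * Cn ^ 2 * L ^ 2 * (1 / (16 * h * Cn ^ 2) * L) :=
          mul_le_mul_of_nonneg_left h1 (by positivity)
        _ = L ^ 3 / (8 * h) := by
          field_simp
          ring
    have h8 : (8 + Cn * Real.log 40 + Cn * Real.log 4) * L + 2 * Cn * L ^ 2 + M + b ≤
        K * L ^ 2 := by
      have e1 : (8 + Cn * Real.log 40 + Cn * Real.log 4) * L ≤
          (8 + Cn * Real.log 40 + Cn * Real.log 4) * L ^ 2 :=
        mul_le_mul_of_nonneg_left hL2 (by positivity)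
      have e2 : (M + b) * 1 ≤ (M + b) * L ^ 2 :=
        mul_le_mul_of_nonneg_left (by nlinarith) (by positivity)
      rw [hK]
      nlinarith
    have h9 : K * L ^ 2 ≤ L ^ 3 / (8 * h) := by
      rw [le_div_iff₀ (by positivity)]
      have := mul_le_mul_of_nonneg_right h6 (sq_nonneg L)
      nlinarith
    have h10 : L ^ 3 / (4 * h) = L ^ 3 / (8 * h) + L ^ 3 / (8 * h) := by
      field_simp
      ring
    rw [h10]
    nlinarith
  · have h7 : 0 < θ - c := by linarith
    rw [div_mul_eq_mul_div, div_lt_iff₀ h7] at h3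
    linarith

/-- The size of the parameters, for large `p`.  With `L = log p`, `N = ⌊Cn L⌋`, `n = ⌊L³/(2h)⌋`:
`n h ≤ L³/2`, `N/20 ≤ Cn L`, so the first line; `L³ ≤ p` eventually.  Third line: the logarithm of the right
side is `-6L - N (2L + 2N log L + log 40) ≥ -C' L² (1 + log L)`; on the left, `C 4^N ≤ e^{C' L}`,
`(p² + p e^{c(p + L³)}) e^{-(θp - b/p)} ≤ 2 p² e^{b + c L³} e^{-(θ-c)p}` and `p (1/3)^n ≤ 3 p e^{-L³/(2h)}`
(`log 3 ≥ 1`), and `L³/(2h)` beats `C' L² (1 + log L)`. -/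
theorem num (C h Cn b c θ : ℝ) (hC : 0 < C) (hh : 0 < h) (hCn : 0 < Cn) (hb : 0 ≤ b) (hc : 0 ≤ c)
    (hθ : c < θ) :
    ∃ p1 : ℕ, ∀ p : ℕ, p1 ≤ p →
      (⌊(Real.log p) ^ 3 / (2 * h)⌋₊ : ℝ) * h + 5 + (⌊Cn * Real.log p⌋₊ : ℝ) / 20 ≤
        3 / 4 * (Real.log p) ^ 3 ∧
      3 / 4 * (Real.log p) ^ 3 ≤ p ∧
      C * 4 ^ ⌊Cn * Real.log p⌋₊ *
        (((p : ℝ) ^ 2 + p * Real.exp (c * (p + (Real.log p) ^ 3))) *
          Real.exp (-(θ * p - b / p)) + p * (1 / 3) ^ ⌊(Real.log p) ^ 3 / (2 * h)⌋₊) <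
        (1 / (p : ℝ) ^ 3) ^ 2 *
          ((1 / (p : ℝ) ^ 2) / ((Real.log p) ^ 2) ^ ⌊Cn * Real.log p⌋₊ / 40) ^
            ⌊Cn * Real.log p⌋₊ := by
  have htend : Filter.Tendsto (fun p : ℕ => Real.log (p : ℝ)) Filter.atTop Filter.atTop :=
    Real.tendsto_log_atTop.comp tendsto_natCast_atTop_atTop
  obtain ⟨p1, hp1⟩ := Filter.eventually_atTop.1
    ((htend.eventually (Num_real C h Cn b c θ hh hCn hb hc hθ)).and
      (Filter.eventually_ge_atTop 1))
  refine ⟨p1, fun p hp => ?_⟩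
  obtain ⟨⟨h1, h2, h3, h4, h5⟩, h6⟩ := hp1 p hp
  have hp0 : (0 : ℝ) < p := by exact_mod_cast h6
  have hp1' : (1 : ℝ) ≤ p := by exact_mod_cast h6
  have hexp : Real.exp (Real.log p) = p := Real.exp_log hp0
  set L := Real.log (p : ℝ) with hL
  rw [hexp] at h3 h5
  have hL0 : 0 < L := by linarith
  set N := ⌊Cn * L⌋₊ with hN
  set n := ⌊L ^ 3 / (2 * h)⌋₊ with hn
  have hN1 : (N : ℝ) ≤ Cn * L := Nat.floor_le (by positivity)
  have hn1 : (n : ℝ) ≤ L ^ 3 / (2 * h) := Nat.floor_le (by positivity)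
  have hn2 : L ^ 3 / (2 * h) < (n : ℝ) + 1 := Nat.lt_floor_add_one _
  have hlogL : 0 ≤ Real.log L := Real.log_nonneg h1
  have hl40 : 0 ≤ Real.log 40 := Real.log_nonneg (by norm_num)
  have hl4 : 0 ≤ Real.log 4 := Real.log_nonneg (by norm_num)
  refine ⟨?_, ?_, ?_⟩
  · have e1 : (n : ℝ) * h ≤ L ^ 3 / 2 := by
      have := mul_le_mul_of_nonneg_right hn1 hh.le
      have e2 : L ^ 3 / (2 * h) * h = L ^ 3 / 2 := by
        field_simp
      linarith
    nlinarith
  · have : (0 : ℝ) ≤ L ^ 3 := by positivity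
    linarith
  · set X : ℝ := 6 * L + Cn * L * (2 * L + 2 * (Cn * L) * Real.log L + Real.log 40) with hX
    set Y : ℝ := Cn * L * Real.log 4 with hY
    have hR : Real.exp (-X) ≤ (1 / (p : ℝ) ^ 3) ^ 2 *
        ((1 / (p : ℝ) ^ 2) / (L ^ 2) ^ N / 40) ^ N := by
      have e1 : (1 / (p : ℝ) ^ 3) ^ 2 = Real.exp (-(6 * L)) := by
        rw [Real.exp_neg, ← hexp, ← Real.exp_nat_mul, one_div, inv_pow, ← Real.exp_nat_mul]
        congr 2
        push_cast
        ring
      have e2 : (1 / (p : ℝ) ^ 2) / (L ^ 2) ^ N / 40 =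
          Real.exp (-(2 * L + 2 * N * Real.log L + Real.log 40)) := by
        rw [Real.exp_neg, Real.exp_add, Real.exp_add, Real.exp_log (by norm_num : (0 : ℝ) < 40)]
        have e3 : Real.exp (2 * N * Real.log L) = (L ^ 2) ^ N := by
          rw [← pow_mul, ← Real.rpow_natCast, Real.rpow_def_of_pos hL0]
          congr 1
          push_cast
          ring
        have e4 : Real.exp (2 * L) = (p : ℝ) ^ 2 := by
          rw [← hexp, ← Real.exp_nat_mul]
          congr 1
        rw [e3, e4]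
        field_simp
      rw [e1, e2, ← Real.exp_nat_mul, ← Real.exp_add]
      refine Real.exp_le_exp.2 ?_
      have e5 : (N : ℝ) * (2 * L + 2 * N * Real.log L + Real.log 40) ≤
          Cn * L * (2 * L + 2 * (Cn * L) * Real.log L + Real.log 40) := by
        have e6 : 2 * (N : ℝ) * Real.log L ≤ 2 * (Cn * L) * Real.log L :=
          mul_le_mul_of_nonneg_right (by linarith) hlogL
        refine mul_le_mul hN1 (by linarith) (by positivity) (by positivity)
      rw [hX]
      linarith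
    have h4N : (4 : ℝ) ^ N ≤ Real.exp Y := by
      have e1 : (4 : ℝ) ^ N = Real.exp (N * Real.log 4) := by
        rw [Real.exp_nat_mul, Real.exp_log (by norm_num)]
      rw [e1]
      exact Real.exp_le_exp.2 (mul_le_mul_of_nonneg_right hN1 hl4)
    have hM1 : Real.log (4 * C) ≤ |Real.log (4 * C)| := le_abs_self _
    have hM2 : Real.log (2 * C) ≤ |Real.log (2 * C)| := le_abs_self _
    have hM3 : 0 ≤ |Real.log (4 * C)| := abs_nonneg _
    have hM4 : 0 ≤ |Real.log (2 * C)| := abs_nonneg _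
    have hL3 : 0 < L ^ 3 := by positivity
    have hlt : L ^ 3 / (4 * h) < L ^ 3 / (2 * h) := by
      refine div_lt_div_of_pos_left hL3 (by positivity) (by linarith)
    -- first term
    have t1 : C * 4 ^ N * (((p : ℝ) ^ 2 + p * Real.exp (c * (p + L ^ 3))) *
        Real.exp (-(θ * p - b / p))) < Real.exp (-X) / 2 := by
      have e1 : (p : ℝ) ^ 2 + p * Real.exp (c * (p + L ^ 3)) ≤
          2 * ((p : ℝ) ^ 2 * Real.exp (c * (p + L ^ 3))) := by
        have e2 : 1 ≤ Real.exp (c * (p + L ^ 3)) := Real.one_le_exp (by positivity)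
        have e3 : (p : ℝ) ^ 2 * 1 ≤ (p : ℝ) ^ 2 * Real.exp (c * (p + L ^ 3)) :=
          mul_le_mul_of_nonneg_left e2 (by positivity)
        have e4 : (p : ℝ) * Real.exp (c * (p + L ^ 3)) ≤
            (p : ℝ) ^ 2 * Real.exp (c * (p + L ^ 3)) :=
          mul_le_mul_of_nonneg_right (by nlinarith) (Real.exp_pos _).le
        linarith
      have e5 : b / p ≤ b := div_le_self hb hp1'
      have e6 : C * 4 ^ N * (((p : ℝ) ^ 2 + p * Real.exp (c * (p + L ^ 3))) *
          Real.exp (-(θ * p - b / p))) ≤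
          C * Real.exp Y * ((2 * ((p : ℝ) ^ 2 * Real.exp (c * (p + L ^ 3)))) *
            Real.exp (-(θ * p - b))) := by
        gcongr
      have e7 : C * Real.exp Y * ((2 * ((p : ℝ) ^ 2 * Real.exp (c * (p + L ^ 3)))) *
            Real.exp (-(θ * p - b))) =
          Real.exp (Real.log (4 * C) + Y + 2 * L + c * (p + L ^ 3) - (θ * p - b)) / 2 := by
        have e8 : Real.exp (2 * L) = (p : ℝ) ^ 2 := by
          rw [← hexp, ← Real.exp_nat_mul]
          congr 1
        rw [Real.exp_sub, Real.exp_add, Real.exp_add, Real.exp_add, e8, Real.exp_neg,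
          Real.exp_log (by positivity)]
        ring
      rw [e7] at e6
      refine e6.trans_lt ?_
      refine div_lt_div_of_pos_right (Real.exp_lt_exp.2 ?_) two_pos
      have e9 : (1 / (4 * h) + c) * L ^ 3 = L ^ 3 / (4 * h) + c * L ^ 3 := by ring
      rw [e9] at h5
      nlinarith
    -- second term
    have t2 : C * 4 ^ N * (p * (1 / 3) ^ n) < Real.exp (-X) / 2 := by
      have e1 : ((1 : ℝ) / 3) ^ n ≤ Real.exp (1 - L ^ 3 / (2 * h)) := by
        have e2 : (1 : ℝ) / 3 ≤ Real.exp (-1) := by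
          rw [Real.exp_neg, one_div]
          refine inv_anti₀ (Real.exp_pos _) ?_
          have := Real.exp_one_lt_d9
          linarith
        have e3 : ((1 : ℝ) / 3) ^ n ≤ Real.exp (-1) ^ n :=
          pow_le_pow_left₀ (by norm_num) e2 n
        refine e3.trans ?_
        rw [← Real.exp_nat_mul]
        refine Real.exp_le_exp.2 ?_
        linarith
      have e4 : C * 4 ^ N * (p * (1 / 3) ^ n) ≤
          C * Real.exp Y * (p * Real.exp (1 - L ^ 3 / (2 * h))) := by
        gcongr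
      have e5 : C * Real.exp Y * (p * Real.exp (1 - L ^ 3 / (2 * h))) =
          Real.exp (Real.log (2 * C) + Y + L + (1 - L ^ 3 / (2 * h))) / 2 := by
        rw [Real.exp_add, Real.exp_add, Real.exp_add, hexp, Real.exp_log (by positivity)]
        ring
      rw [e5] at e4
      refine e4.trans_lt ?_
      refine div_lt_div_of_pos_right (Real.exp_lt_exp.2 ?_) two_pos
      linarith
    calc C * 4 ^ N * (((p : ℝ) ^ 2 + p * Real.exp (c * (p + L ^ 3))) *
        Real.exp (-(θ * p - b / p)) + p * (1 / 3) ^ n)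
        = C * 4 ^ N * (((p : ℝ) ^ 2 + p * Real.exp (c * (p + L ^ 3))) *
        Real.exp (-(θ * p - b / p))) + C * 4 ^ N * (p * (1 / 3) ^ n) := by ring
      _ < Real.exp (-X) / 2 + Real.exp (-X) / 2 := add_lt_add t1 t2
      _ = Real.exp (-X) := by ring
      _ ≤ _ := hR

end W3283p
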