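import Pool.Agent.W_3283e1_sh.Defs

set_option autoImplicit false

namespace W3283p

open MeasureTheory W3283v Filter Topology

theorem QQd_expint (u : ℝ) (hu : 0 < u) :
    IntegrableOn (fun s : ℝ => Real.exp (-u * s)) (Set.Ioi 0) ∧
      ∫ s in Set.Ioi (0 : ℝ), Real.exp (-u * s) = 1 / u := by
  refine ⟨integrableOn_exp_mul_Ioi (by linarith) 0, ?_⟩
  rw [integral_exp_mul_Ioi (by linarith) 0]
  rw [mul_zero, Real.exp_zero]
  field_simp

theorem QQd_norm (w : ℂ) (u s : ℝ) :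
    ‖Complex.exp ((w - s) * u)‖ = Real.exp (w.re * u) * Real.exp (-u * s) := by
  rw [Complex.norm_exp, ← Real.exp_add]
  congr 1
  simp
  ring

/-- The integrand of `QQ w u` is integrable for `u > 0` and `w` not in `[0, ∞)`: if `d > 0` is a lower bound of
`‖w - s‖` over `s ≥ 0`, it is at most `e^{Re w u} e^{-su}/d²`.  Here `d = |Im w|`, or `d = ‖w‖` if
`Re w ≤ 0`. -/
theorem qq_int (w : ℂ) (d : ℝ) (hd : 0 < d) (hw : ∀ s : ℝ, 0 ≤ s → d ≤ ‖w - s‖) (u : ℝ)
    (hu : 0 < u) :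
    IntegrableOn (fun s : ℝ => Complex.exp ((w - s) * u) / (w - s) ^ 2) (Set.Ioi 0) ∧
      ‖QQ w u‖ ≤ Real.exp (w.re * u) / (d ^ 2 * u) := by
  obtain ⟨h1, h2⟩ := QQd_expint u hu
  have hg : IntegrableOn (fun s : ℝ => Real.exp (w.re * u) / d ^ 2 * Real.exp (-u * s))
      (Set.Ioi 0) := h1.const_mul _
  have hb : ∀ s ∈ Set.Ioi (0 : ℝ), ‖Complex.exp ((w - s) * u) / (w - s) ^ 2‖ ≤
      Real.exp (w.re * u) / d ^ 2 * Real.exp (-u * s) := by
    intro s hs
    rw [norm_div, QQd_norm, norm_pow]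
    have h3 : d ^ 2 ≤ ‖w - s‖ ^ 2 := pow_le_pow_left₀ hd.le (hw s (le_of_lt hs)) 2
    have h4 : 0 < d ^ 2 := pow_pos hd 2
    rw [div_mul_eq_mul_div]
    exact div_le_div_of_nonneg_left (mul_nonneg (Real.exp_nonneg _) (Real.exp_nonneg _)) h4 h3
  have hm : AEStronglyMeasurable (fun s : ℝ => Complex.exp ((w - s) * u) / (w - s) ^ 2)
      (volume.restrict (Set.Ioi 0)) := by
    apply Measurable.aestronglyMeasurable
    fun_prop
  have hI : IntegrableOn (fun s : ℝ => Complex.exp ((w - s) * u) / (w - s) ^ 2) (Set.Ioi 0) :=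
    Integrable.mono' hg hm ((ae_restrict_mem measurableSet_Ioi).mono hb)
  refine ⟨hI, ?_⟩
  unfold QQ
  calc ‖∫ s in Set.Ioi (0 : ℝ), Complex.exp ((w - s) * u) / (w - s) ^ 2‖
      ≤ ∫ s in Set.Ioi (0 : ℝ), Real.exp (w.re * u) / d ^ 2 * Real.exp (-u * s) :=
        norm_integral_le_of_norm_le hg ((ae_restrict_mem measurableSet_Ioi).mono hb)
    _ = Real.exp (w.re * u) / d ^ 2 * (1 / u) := by
        rw [integral_const_mul, h2]
    _ = Real.exp (w.re * u) / (d ^ 2 * u) := by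
        field_simp

/-- `‖w - s‖ ≥ |Im w|`. -/
theorem qq_bd (w : ℂ) (hw : w.im ≠ 0) (u : ℝ) (hu : 0 < u) :
    ‖QQ w u‖ ≤ Real.exp (w.re * u) / (w.im ^ 2 * u) := by
  have h := (qq_int w |w.im| (abs_pos.2 hw) (fun s _ => by
    have h1 := Complex.abs_im_le_norm (w - s)
    simpa using h1) u hu).2
  rwa [sq_abs] at h

/-- `‖-w - s‖ ≥ ‖w‖` for `Re w ≥ 0`, `s ≥ 0`. -/
theorem qq_neg (w : ℂ) (hw : 0 ≤ w.re) (hw0 : w ≠ 0) (u : ℝ) (hu : 1 ≤ u) :
    ‖QQ (-w) u‖ ≤ 1 / ‖w‖ ^ 2 := by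
  have hpos : 0 < ‖w‖ := norm_pos_iff.2 hw0
  have hle : ∀ s : ℝ, 0 ≤ s → ‖w‖ ≤ ‖-w - s‖ := by
    intro s hs
    have h1 : ‖-w - (s : ℂ)‖ = ‖w + s‖ := by
      rw [← norm_neg]
      congr 1
      ring
    rw [h1]
    have h2 : ‖w‖ ^ 2 ≤ ‖w + (s : ℂ)‖ ^ 2 := by
      rw [← Complex.normSq_eq_norm_sq, ← Complex.normSq_eq_norm_sq, Complex.normSq_apply,
        Complex.normSq_apply]
      simp only [Complex.add_re, Complex.ofReal_re, Complex.add_im, Complex.ofReal_im, add_zero]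
      nlinarith [mul_nonneg hw hs, sq_nonneg s]
    exact le_of_sq_le_sq h2 (norm_nonneg _)
  have h := (qq_int (-w) ‖w‖ hpos hle u (by linarith)).2
  refine h.trans ?_
  have h3 : Real.exp ((-w).re * u) ≤ 1 := by
    rw [Complex.neg_re]
    apply Real.exp_le_one_iff.2
    have := mul_nonneg hw (by linarith : (0 : ℝ) ≤ u)
    linarith
  have h4 : 0 < ‖w‖ ^ 2 := pow_pos hpos 2
  rw [div_le_div_iff₀ (mul_pos h4 (by linarith)) h4]
  have h5 : ‖w‖ ^ 2 ≤ ‖w‖ ^ 2 * u := le_mul_of_one_le_right h4.le hu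
  calc Real.exp ((-w).re * u) * ‖w‖ ^ 2 ≤ 1 * ‖w‖ ^ 2 :=
        mul_le_mul_of_nonneg_right h3 h4.le
    _ ≤ 1 * (‖w‖ ^ 2 * u) := by linarith

/-- `(QQ w u / u)' = e^{wu}/(w u²)`: differentiation under the integral sign
(`hasDerivAt_integral_of_dominated_loc_of_deriv_le`) gives `u Q' - Q =
∫_0^∞ (u/(w-s) - 1/(w-s)²) e^{(w-s)u} ds = -∫_0^∞ (d/ds) (e^{(w-s)u}/(w-s)) ds = e^{wu}/w`. -/
theorem qq_deriv (w : ℂ) (d : ℝ) (hd : 0 < d) (hw : ∀ s : ℝ, 0 ≤ s → d ≤ ‖w - s‖) (u : ℝ)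
    (hu : 0 < u) :
    HasDerivAt (fun u : ℝ => QQ w u / u) (Complex.exp (w * u) / (w * (u : ℂ) ^ 2)) u := by
  have hne : ∀ s : ℝ, 0 ≤ s → w - (s : ℂ) ≠ 0 := fun s hs h => by
    have := hw s hs
    rw [h, norm_zero] at this
    linarith
  have hw0 : w ≠ 0 := by
    have := hne 0 le_rfl
    simpa using this
  have hu0 : (u : ℂ) ≠ 0 := by
    exact_mod_cast hu.ne'
  -- derivative under the integral
  have hball : Metric.ball u (u / 2) ∈ 𝓝 u := Metric.ball_mem_nhds u (by linarith)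
  have hQ : Integrable (fun s : ℝ => Complex.exp ((w - s) * u) / (w - s))
      (volume.restrict (Set.Ioi 0)) ∧
      HasDerivAt (fun v : ℝ => QQ w v)
        (∫ s in Set.Ioi (0 : ℝ), Complex.exp ((w - s) * u) / (w - s)) u := by
    refine hasDerivAt_integral_of_dominated_loc_of_deriv_le
      (F := fun (v : ℝ) (s : ℝ) => Complex.exp ((w - s) * v) / (w - s) ^ 2)
      (F' := fun (v : ℝ) (s : ℝ) => Complex.exp ((w - s) * v) / (w - s))
      (bound := fun s : ℝ => Real.exp (|w.re| * (2 * u)) / d * Real.exp (-(u / 2) * s))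
      hball ?_ ?_ ?_ ?_ ?_ ?_
    · refine Filter.Eventually.of_forall fun v => ?_
      apply Measurable.aestronglyMeasurable
      fun_prop
    · exact (qq_int w d hd hw u hu).1
    · apply Measurable.aestronglyMeasurable
      fun_prop
    · refine (ae_restrict_mem measurableSet_Ioi).mono fun s hs v hv => ?_
      rw [Metric.mem_ball, Real.dist_eq, abs_lt] at hv
      have hs0 : (0 : ℝ) < s := hs
      rw [norm_div, QQd_norm]
      have h1 : Real.exp (w.re * v) ≤ Real.exp (|w.re| * (2 * u)) := by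
        apply Real.exp_le_exp.2
        have hv0 : 0 ≤ v := by linarith
        calc w.re * v ≤ |w.re| * v := mul_le_mul_of_nonneg_right (le_abs_self _) hv0
          _ ≤ |w.re| * (2 * u) := mul_le_mul_of_nonneg_left (by linarith) (abs_nonneg _)
      have h2 : Real.exp (-v * s) ≤ Real.exp (-(u / 2) * s) := by
        apply Real.exp_le_exp.2
        nlinarith
      have h3 : Real.exp (w.re * v) * Real.exp (-v * s) ≤
          Real.exp (|w.re| * (2 * u)) * Real.exp (-(u / 2) * s) :=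
        mul_le_mul h1 h2 (Real.exp_nonneg _) (Real.exp_nonneg _)
      rw [div_mul_eq_mul_div]
      exact div_le_div₀ (mul_nonneg (Real.exp_nonneg _) (Real.exp_nonneg _)) h3 hd
        (hw s hs0.le)
    · exact ((QQd_expint (u / 2) (by linarith)).1).const_mul _
    · refine (ae_restrict_mem measurableSet_Ioi).mono fun s hs v _ => ?_
      have hs0 : (0 : ℝ) < s := hs
      have h1 : HasDerivAt (fun v : ℝ => (w - (s : ℂ)) * (v : ℂ)) ((w - s) * 1) v :=
        (Complex.ofRealCLM.hasDerivAt (x := v)).const_mul (w - (s : ℂ))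
      have h2 := (h1.cexp).div_const ((w - (s : ℂ)) ^ 2)
      refine h2.congr_deriv ?_
      have h3 := hne s hs0.le
      field_simp
  obtain ⟨hI1, hder⟩ := hQ
  have hI2 := (qq_int w d hd hw u hu).1
  -- the boundary term
  have hbt : ∫ s in Set.Ioi (0 : ℝ), (Complex.exp ((w - s) * u) / (w - s) ^ 2 -
      u * (Complex.exp ((w - s) * u) / (w - s))) = 0 - Complex.exp ((w - (0 : ℝ)) * u) / (w - (0 : ℝ)) := by
    refine integral_Ioi_of_hasDerivAt_of_tendsto'
      (f := fun s : ℝ => Complex.exp ((w - s) * u) / (w - s)) ?_ ?_ ?_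
    · intro s hs
      have hs0 : (0 : ℝ) ≤ s := hs
      have h3 := hne s hs0
      have h0 : HasDerivAt (fun s : ℝ => w - (s : ℂ)) (-1) s :=
        (Complex.ofRealCLM.hasDerivAt (x := s)).const_sub w
      have h1 : HasDerivAt (fun s : ℝ => (w - (s : ℂ)) * (u : ℂ)) (-1 * (u : ℂ)) s :=
        h0.mul_const (u : ℂ)
      have h2 := (h1.cexp).div h0 h3
      refine h2.congr_deriv ?_
      field_simp
      ring
    · exact hI2.sub (hI1.const_mul (u : ℂ))
    · rw [tendsto_zero_iff_norm_tendsto_zero]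
      have h1 : Tendsto (fun s : ℝ => Real.exp (w.re * u) / d * Real.exp (-u * s)) atTop
          (𝓝 (Real.exp (w.re * u) / d * 0)) := by
        apply Tendsto.const_mul
        have h2 : Tendsto (fun s : ℝ => u * s) atTop atTop := tendsto_id.const_mul_atTop hu
        have h3 := Real.tendsto_exp_neg_atTop_nhds_zero.comp h2
        refine h3.congr fun s => ?_
        show Real.exp (-(u * s)) = Real.exp (-u * s)
        congr 1
        ring
      rw [mul_zero] at h1
      refine squeeze_zero' (Filter.Eventually.of_forall fun s => norm_nonneg _) ?_ h1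
      filter_upwards [eventually_ge_atTop (0 : ℝ)] with s hs
      rw [norm_div, QQd_norm, div_mul_eq_mul_div]
      exact div_le_div_of_nonneg_left (mul_nonneg (Real.exp_nonneg _) (Real.exp_nonneg _)) hd
        (hw s hs)
  rw [integral_sub hI2 (hI1.const_mul (u : ℂ)), integral_const_mul] at hbt
  have hdiv := hder.div (Complex.ofRealCLM.hasDerivAt (x := u)) hu0
  refine hdiv.congr_deriv ?_
  have e1 : QQ w u = ∫ s in Set.Ioi (0 : ℝ), Complex.exp ((w - s) * u) / (w - s) ^ 2 := rfl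
  rw [← e1] at hbt
  simp only [Complex.ofRealCLM_apply, Complex.ofReal_one, mul_one]
  have e2 : (∫ s in Set.Ioi (0 : ℝ), Complex.exp ((w - s) * u) / (w - s)) * (u : ℂ) - QQ w u =
      Complex.exp (w * u) / w := by
    have h5 : Complex.exp ((w - ((0 : ℝ) : ℂ)) * u) / (w - ((0 : ℝ) : ℂ)) =
        Complex.exp (w * u) / w := by
      rw [Complex.ofReal_zero, sub_zero]
    rw [h5] at hbt
    linear_combination -hbt
  rw [e2]
  field_simp

end W3283p
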