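import Pool.Agent.W_3283e1_sh.Core
import Pool.Agent.W_3283e1_sh.Num

set_option autoImplicit false

namespace W3283p

open MeasureTheory W3283v

variable {ι : Type} {lam : ι → ℂ} {m : ι → ℝ}

/-- Excursions in the windows `[U, U + (log U)³]`.  Suppose there is none in the window of `U`; put
`p = ⌈U⌉₊`, `n = ⌊(log p)³/(2h)⌋₊`, `τ = e^{c(p + (log p)³)}`; then `-σ e v ≥ -e^{cv} ≥ -τ` for
`p ≤ v ≤ p + 3/4 (log p)³` (contained in `[U, U + (log U)³]` for large `U`), and `core` with `-σ`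
contradicts `num` with `θ = Re λ1`, `b = |Im λ1|`. -/
theorem short (hZ : ZC lam m) (hL : LCnt lam m) (A e : ℝ → ℝ) (hA : EFC lam m A)
    (he : ∀ T : ℝ, IntegrableOn e (Set.Ioc 0 T)) (C0 : ℝ) (hC0 : 0 ≤ C0)
    (hid : ∀ u : ℝ, 0 < u → |u * e u - (∫ t in Set.Ioc 0 u, e t) - A u| ≤ C0)
    (i1 : ι) (c : ℝ) (hc : 0 ≤ c) (hc1 : c < (lam i1).re)
    (σ : ℝ) (hσ : σ = 1 ∨ (σ = -1 ∧ ∀ i, (lam i).im ≠ 0)) :
    ∃ U1 : ℝ, ∀ U : ℝ, U1 ≤ U → ∃ v : ℝ, U ≤ v ∧ v ≤ U + (Real.log U) ^ 3 ∧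
      Real.exp (c * v) ≤ σ * e v := by
  have hσ' : -σ = -1 ∨ (-σ = 1 ∧ ∀ i, (lam i).im ≠ 0) := by
    rcases hσ with h | ⟨h, h'⟩
    · exact Or.inl (by rw [h])
    · exact Or.inr ⟨by rw [h]; norm_num, h'⟩
  obtain ⟨C, h, Cn, p0, hC, hh, hCn, hcore⟩ := core hZ hL A e hA he C0 hC0 hid (-σ) hσ' i1
  obtain ⟨p1, hnum⟩ := num C h Cn |(lam i1).im| c (lam i1).re hC (by linarith) hCn
    (abs_nonneg _) hc hc1
  refine ⟨max (Real.exp 20) (max p0 p1 + 1), fun U hU => ?_⟩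
  by_contra hcon
  push Not at hcon
  have hU20 : Real.exp 20 ≤ U := (le_max_left _ _).trans hU
  have hUp : ((max p0 p1 : ℕ) : ℝ) + 1 ≤ U := (le_max_right _ _).trans hU
  have hU0 : 0 < U := (Real.exp_pos 20).trans_le hU20
  have hlogU : 20 ≤ Real.log U := (Real.le_log_iff_exp_le hU0).2 hU20
  have hU1 : 1 ≤ U := by
    have h1 := Real.add_one_le_exp (20 : ℝ)
    linarith
  obtain ⟨p, hp⟩ : ∃ p : ℕ, p = ⌈U⌉₊ := ⟨_, rfl⟩
  have hpU : U ≤ (p : ℝ) := by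
    rw [hp]
    exact Nat.le_ceil U
  have hpU1 : (p : ℝ) ≤ U + 1 := by
    rw [hp]
    exact (Nat.ceil_lt_add_one hU0.le).le
  have hpp : max p0 p1 ≤ p := by
    have h1 : ((max p0 p1 : ℕ) : ℝ) ≤ (p : ℝ) := by linarith
    exact_mod_cast h1
  have hp0 : (0 : ℝ) < p := hU0.trans_le hpU
  obtain ⟨n1, n2, n3⟩ := hnum p ((le_max_right _ _).trans hpp)
  obtain ⟨L, hL'⟩ : ∃ L : ℝ, L = Real.log p := ⟨_, rfl⟩
  have hLU : Real.log U ≤ L := by
    rw [hL']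
    exact Real.log_le_log hU0 hpU
  have hLU1 : L ≤ Real.log U + 1 := by
    rw [hL']
    have h1 : (p : ℝ) ≤ U * Real.exp 1 := by
      have h2 := Real.add_one_le_exp (1 : ℝ)
      nlinarith
    have h2 := Real.log_le_log hp0 h1
    rw [Real.log_mul hU0.ne' (Real.exp_pos 1).ne', Real.log_exp] at h2
    exact h2
  have hwin : 3 / 4 * L ^ 3 + 1 ≤ (Real.log U) ^ 3 := by
    have h0 : 0 ≤ L := by linarith
    have h1 : L ^ 3 ≤ (Real.log U + 1) ^ 3 := pow_le_pow_left₀ h0 hLU1 3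
    nlinarith [sq_nonneg (Real.log U), mul_nonneg (sub_nonneg.2 hlogU) (sq_nonneg (Real.log U))]
  have hτ0 : 0 ≤ Real.exp (c * (p + (Real.log p) ^ 3)) := (Real.exp_pos _).le
  have key := hcore p ⌊(Real.log p) ^ 3 / (2 * h)⌋₊ ((le_max_left _ _).trans hpp)
    (n1.trans n2) (Real.exp (c * (p + (Real.log p) ^ 3))) hτ0 (fun v hv hv' => by
      have h1 : v ≤ p + 3 / 4 * (Real.log p) ^ 3 := by linarith
      have h2 : σ * e v < Real.exp (c * v) := by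
        refine hcon v (hpU.trans hv) ?_
        rw [← hL'] at h1
        linarith
      have h3 : Real.exp (c * v) ≤ Real.exp (c * (p + (Real.log p) ^ 3)) := by
        refine Real.exp_le_exp.2 (mul_le_mul_of_nonneg_left ?_ hc)
        have h4 : 0 ≤ (Real.log p) ^ 3 := by
          rw [← hL']
          have : 0 ≤ L := by linarith
          positivity
        linarith
      rw [neg_mul]
      linarith)
  exact absurd n3 (not_lt.2 key)

end W3283p
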